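import Pool.Agent.Lib.MP_75d53c_ag.Count

/-! The restriction of a ternary form to a line, as a univariate polynomial. -/

set_option autoImplicit false

open MvPolynomial

namespace Pool.Agent.Lib.MP_75d53c_ag

section bin

variable {R S : Type} [CommRing R] [CommRing S]

/-- `bin F a b = F(a + t b)` as a polynomial in `t`. -/
noncomputable def bin (F : MvPolynomial (Fin 3) R) (a b : Fin 3 → R) : Polynomial R :=
  eval₂ Polynomial.C (fun i => Polynomial.C (a i) + Polynomial.C (b i) * Polynomial.X) F

lemma map_bin (φ : R →+* S) (F : MvPolynomial (Fin 3) R) (a b : Fin 3 → R) :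
    (bin F a b).map φ = bin (map φ F) (φ ∘ a) (φ ∘ b) := by
  unfold bin
  rw [eval₂_map]
  rw [← Polynomial.coe_mapRingHom, hom_eval₂]
  congr 1
  · ext x; simp
  · funext i; simp

lemma eval_bin (F : MvPolynomial (Fin 3) R) (a b : Fin 3 → R) (t : R) :
    (bin F a b).eval t = eval (a + t • b) F := by
  unfold bin
  rw [← Polynomial.coe_evalRingHom, hom_eval₂]
  have : (Polynomial.evalRingHom t).comp Polynomial.C = RingHom.id R := by
    ext x; simp
  rw [this]
  unfold eval
  congr 1
  funext i
  simp only [Polynomial.coe_evalRingHom, Polynomial.eval_add, Polynomial.eval_C,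
    Polynomial.eval_mul, Polynomial.eval_X, Pi.add_apply, Pi.smul_apply, smul_eq_mul]
  ring

lemma bin_monomial (m : Fin 3 →₀ ℕ) (c : R) (a b : Fin 3 → R) :
    bin (monomial m c) a b =
      Polynomial.C c * ∏ i : Fin 3, (Polynomial.C (a i) + Polynomial.C (b i) * Polynomial.X) ^ (m i) := by
  unfold bin
  rw [eval₂_monomial, Finsupp.prod_fintype]
  intro i; simp

lemma bin_add (F G : MvPolynomial (Fin 3) R) (a b : Fin 3 → R) :
    bin (F + G) a b = bin F a b + bin G a b := by
  unfold bin; rw [eval₂_add]

lemma natDegree_lin_le (x y : R) : (Polynomial.C x + Polynomial.C y * Polynomial.X).natDegree ≤ 1 := by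
  compute_degree

lemma natDegree_bin_monomial_le (m : Fin 3 →₀ ℕ) (hm : m.degree = 6) (c : R) (a b : Fin 3 → R) :
    (bin (monomial m c) a b).natDegree ≤ 6 := by
  rw [bin_monomial]
  refine (Polynomial.natDegree_C_mul_le _ _).trans ?_
  refine (Polynomial.natDegree_prod_le _ _).trans ?_
  rw [← hm, Finsupp.degree_eq_sum]
  apply Finset.sum_le_sum
  intro i _
  refine (Polynomial.natDegree_pow_le).trans ?_
  calc m i * (Polynomial.C (a i) + Polynomial.C (b i) * Polynomial.X).natDegree ≤ m i * 1 :=
        Nat.mul_le_mul_left _ (natDegree_lin_le _ _)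
    _ = m i := by ring

lemma coeff_six_bin_monomial (m : Fin 3 →₀ ℕ) (hm : m.degree = 6) (c : R) (a b : Fin 3 → R) :
    (bin (monomial m c) a b).coeff 6 = eval b (monomial m c) := by
  rw [bin_monomial, Polynomial.coeff_C_mul, eval_monomial, Finsupp.prod_fintype _ _ (by intro i; simp)]
  congr 1
  rw [Fin.prod_univ_three, Fin.prod_univ_three]
  have hsum : m 0 + m 1 + m 2 = 6 := by
    rw [Finsupp.degree_eq_sum, Fin.sum_univ_three] at hm; exact hm
  have hle : ∀ i, ((Polynomial.C (a i) + Polynomial.C (b i) * Polynomial.X) ^ (m i)).natDegree ≤ m i := by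
    intro i
    refine (Polynomial.natDegree_pow_le).trans ?_
    calc m i * (Polynomial.C (a i) + Polynomial.C (b i) * Polynomial.X).natDegree ≤ m i * 1 :=
          Nat.mul_le_mul_left _ (natDegree_lin_le _ _)
      _ = m i := by ring
  have hco : ∀ i, ((Polynomial.C (a i) + Polynomial.C (b i) * Polynomial.X) ^ (m i)).coeff (m i) = b i ^ m i := by
    intro i
    have := Polynomial.coeff_pow_of_natDegree_le (m := m i) (natDegree_lin_le (a i) (b i))
    rw [mul_one] at this
    rw [this]
    simp
  have h01 := Polynomial.coeff_mul_add_eq_of_natDegree_le (hle 0) (hle 1)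
  have h012 := Polynomial.coeff_mul_add_eq_of_natDegree_le
    (Polynomial.natDegree_mul_le_of_le (hle 0) (hle 1)) (hle 2)
  rw [hsum] at h012
  rw [h012, h01, hco, hco, hco]

lemma natDegree_bin_le (F : MvPolynomial (Fin 3) R) (hF : F.IsHomogeneous 6) (a b : Fin 3 → R) :
    (bin F a b).natDegree ≤ 6 := by
  have h : F = ∑ m ∈ F.support, monomial m (coeff m F) := F.as_sum
  have h2 : bin F a b = ∑ m ∈ F.support, bin (monomial m (coeff m F)) a b := by
    conv_lhs => rw [h]
    unfold bin
    rw [eval₂_sum]
  rw [h2]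
  apply Polynomial.natDegree_sum_le_of_forall_le
  intro m hm
  apply natDegree_bin_monomial_le
  exact (hF.degree_eq_sum_deg_support hm).symm ▸ rfl

lemma coeff_six_bin (F : MvPolynomial (Fin 3) R) (hF : F.IsHomogeneous 6) (a b : Fin 3 → R) :
    (bin F a b).coeff 6 = eval b F := by
  have h : F = ∑ m ∈ F.support, monomial m (coeff m F) := F.as_sum
  have h2 : bin F a b = ∑ m ∈ F.support, bin (monomial m (coeff m F)) a b := by
    conv_lhs => rw [h]
    unfold bin
    rw [eval₂_sum]
  rw [h2, Polynomial.finsetSum_coeff]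
  conv_rhs => rw [h, map_sum]
  apply Finset.sum_congr rfl
  intro m hm
  apply coeff_six_bin_monomial
  exact (hF.degree_eq_sum_deg_support hm).symm ▸ rfl

/-- a form of degree six scales by the sixth power -/
lemma eval_smul_six (F : MvPolynomial (Fin 3) R) (hF : F.IsHomogeneous 6) (c : R) (v : Fin 3 → R) :
    eval (c • v) F = c ^ 6 * eval v F := by
  rw [F.as_sum, map_sum, map_sum, Finset.mul_sum]
  apply Finset.sum_congr rfl
  intro m hm
  have hd : m.degree = 6 := (hF.degree_eq_sum_deg_support hm).symm ▸ rfl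
  rw [eval_monomial, eval_monomial, Finsupp.prod_fintype _ _ (by intro i; simp),
    Finsupp.prod_fintype _ _ (by intro i; simp)]
  simp only [Pi.smul_apply, smul_eq_mul, mul_pow, Finset.prod_mul_distrib]
  rw [Finset.prod_pow_eq_pow_sum]
  rw [Finsupp.degree_eq_sum] at hd
  rw [hd]
  ring

end bin

section complex

/-- equality of the restricted polynomials gives equality of the restricted binary forms -/
lemma bin_eq_forms (F G : MvPolynomial (Fin 3) ℂ) (hF : F.IsHomogeneous 6) (hG : G.IsHomogeneous 6)
    (a b a' b' : Fin 3 → ℂ) (h : bin F a b = bin G a' b') (s t : ℂ) :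
    eval (s • a + t • b) F = eval (s • a' + t • b') G := by
  by_cases hs : s = 0
  · subst hs
    simp only [zero_smul, zero_add]
    rw [eval_smul_six F hF, eval_smul_six G hG, ← coeff_six_bin F hF a b,
      ← coeff_six_bin G hG a' b', h]
  · have h1 : s • a + t • b = s • (a + (t / s) • b) := by
      rw [smul_add, smul_smul, mul_div_cancel₀ _ hs]
    have h2 : s • a' + t • b' = s • (a' + (t / s) • b') := by
      rw [smul_add, smul_smul, mul_div_cancel₀ _ hs]
    rw [h1, h2, eval_smul_six F hF, eval_smul_six G hG, ← eval_bin, ← eval_bin, h]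

lemma bin_eq_of_forms (F G : MvPolynomial (Fin 3) ℂ)
    (a b a' b' : Fin 3 → ℂ) (h : ∀ t : ℂ, eval (a + t • b) F = eval (a' + t • b') G) :
    bin F a b = bin G a' b' := by
  apply Polynomial.funext
  intro t
  rw [eval_bin, eval_bin, h]

end complex

end Pool.Agent.Lib.MP_75d53c_ag
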