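import Mathlib

/-! Algebraic dependence of more polynomials than variables, and the calculus of
properties that hold for a general form of degree six in three variables. -/

set_option autoImplicit false

open MvPolynomial

namespace Pool.Agent.Lib.MP_75d53c_ag

/-- More polynomials than variables satisfy a nontrivial polynomial relation. -/
lemma exists_rel {σ τ : Type} [Fintype σ] [Fintype τ] (h : Fintype.card σ < Fintype.card τ)
    (Φ : τ → MvPolynomial σ ℂ) : ∃ P : MvPolynomial τ ℂ, P ≠ 0 ∧ aeval Φ P = 0 := by
  by_contra hcon
  push Not at hcon
  have hind : AlgebraicIndependent ℂ Φ := by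
    rw [algebraicIndependent_iff]
    intro P hP
    by_contra hne
    exact hcon P hne hP
  have h1 := hind.cardinalMk_le_trdeg
  rw [MvPolynomial.trdeg_of_isDomain] at h1
  simp only [Cardinal.mk_fintype, Cardinal.lift_natCast, Nat.cast_le] at h1
  omega

end Pool.Agent.Lib.MP_75d53c_ag
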