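import Mathlib

/-! Few equations have infinitely many solutions. -/

set_option autoImplicit false

open MvPolynomial

namespace Pool.Agent.Lib.MP_75d53c_ag

variable {σ : Type} [Fintype σ]

/-- translation of the variables -/
noncomputable def trans (c : σ → ℂ) : MvPolynomial σ ℂ ≃ₐ[ℂ] MvPolynomial σ ℂ :=
  AlgEquiv.ofAlgHom (aeval (fun i => X i + C (c i))) (aeval (fun i => X i - C (c i)))
    (by apply algHom_ext; intro i; simp) (by apply algHom_ext; intro i; simp)

omit [Fintype σ] in
lemma eval_trans (c x : σ → ℂ) (P : MvPolynomial σ ℂ) :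
    eval x (trans c P) = eval (x + c) P := by
  have : (eval x).comp (trans c : MvPolynomial σ ℂ →+* MvPolynomial σ ℂ) = eval (x + c) := by
    apply ringHom_ext
    · intro r
      simp [trans]
    · intro i
      simp [trans]
  exact congrArg (fun f => f P) this

/-- the ideal of a point has full height -/
lemma height_point (z : σ → ℂ) : (RingHom.ker (eval z)).height = Fintype.card σ := by
  have hdim : ringKrullDim (MvPolynomial σ ℂ) = Fintype.card σ := by
    rw [MvPolynomial.ringKrullDim_of_isNoetherianRing, ringKrullDim_eq_zero_of_field]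
    simp
  have : FiniteRingKrullDim (MvPolynomial σ ℂ) := by
    rw [finiteRingKrullDim_iff_ne_bot_and_top, hdim]
    constructor
    · exact WithBot.coe_ne_bot
    · intro h
      have := WithBot.coe_injective h
      exact ENat.natCast_ne_top _ this
  obtain ⟨p, hp, hph⟩ := Ideal.exists_isMaximal_height (R := MvPolynomial σ ℂ)
  obtain ⟨x, hx⟩ := isMaximal_iff_eq_vanishingIdeal_singleton.mp hp
  have h1 : p = (RingHom.ker (eval z)).comap (trans (z - x)).toRingEquiv.symm := by
    ext P
    have h2 : P = trans (z - x) ((trans (z - x)).toRingEquiv.symm P) :=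
      ((trans (z - x)).toRingEquiv.apply_symm_apply P).symm
    have h3 : eval x P = eval z ((trans (z - x)).toRingEquiv.symm P) := by
      conv_lhs => rw [h2]
      rw [eval_trans]
      congr 2
      abel
    rw [hx, mem_vanishingIdeal_singleton_iff, Ideal.mem_comap, RingHom.mem_ker, ← h3]
    rfl
  rw [hdim, h1, RingEquiv.height_comap] at hph
  have h4 : ((RingHom.ker (eval z)).height : WithBot ℕ∞) = ((Fintype.card σ : ℕ∞) : WithBot ℕ∞) := hph
  exact WithBot.coe_injective h4

/-- A nonempty locally closed set given by fewer equations than variables is infinite. -/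
theorem infinite_solutions {τ : Type} [Fintype τ] (hcard : Fintype.card τ < Fintype.card σ)
    (g : τ → MvPolynomial σ ℂ) (N : MvPolynomial σ ℂ) (z0 : σ → ℂ)
    (hz : ∀ k, eval z0 (g k) = 0) (hN : eval z0 N ≠ 0) :
    {z : σ → ℂ | (∀ k, eval z (g k) = 0) ∧ eval z N ≠ 0}.Infinite := by
  classical
  intro hfin
  set J := Ideal.span (Set.range g) with hJ
  have hJz : J ≤ RingHom.ker (eval z0) := by
    rw [hJ, Ideal.span_le]
    rintro _ ⟨k, rfl⟩
    exact hz k
  have : (RingHom.ker (eval z0)).IsPrime := RingHom.ker_isPrime _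
  obtain ⟨p, hp, hpz⟩ := Ideal.exists_minimalPrimes_le hJz
  have hpp : p.IsPrime := hp.1.1
  have hht : p.height ≤ Fintype.card τ := by
    refine (Ideal.height_le_card_of_mem_minimalPrimes_span (Set.finite_range g) hp).trans ?_
    have := Set.ncard_le_ncard (Set.image_univ.symm ▸ (Set.Subset.refl _) : Set.range g ⊆ g '' Set.univ)
    have h2 := Set.ncard_image_le (f := g) (Set.finite_univ (α := τ))
    rw [Set.ncard_univ, Nat.card_eq_fintype_card, Set.image_univ] at h2
    exact_mod_cast h2
  have hne : p ≠ RingHom.ker (eval z0) := by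
    intro h
    rw [h, height_point] at hht
    have : Fintype.card σ ≤ Fintype.card τ := by exact_mod_cast hht
    omega
  have hnot : ∀ z : σ → ℂ, ∃ f : MvPolynomial σ ℂ, eval z f = 0 ∧ f ∉ p := by
    intro z
    by_contra hcon
    push Not at hcon
    have h1 : RingHom.ker (eval z) ≤ p := fun f hf => hcon f hf
    have hmax : (RingHom.ker (eval z)).IsMaximal := by
      apply RingHom.ker_isMaximal_of_surjective
      intro c
      exact ⟨C c, by simp⟩
    have h2 := hmax.eq_of_le hpp.ne_top h1
    have h3 := hmax.eq_of_le (RingHom.ker_isPrime (eval z0)).ne_top (h1.trans hpz)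
    exact hne (h2.symm.trans h3)
  choose f hf0 hfp using hnot
  have hprod : N * ∏ z ∈ hfin.toFinset, f z ∈ p := by
    rw [← IsPrime.vanishingIdeal_zeroLocus (K := ℂ) p, mem_vanishingIdeal_iff]
    intro x hx
    have hxJ : ∀ k, eval x (g k) = 0 := by
      intro k
      exact hx (g k) (hp.1.2 (Ideal.subset_span ⟨k, rfl⟩))
    rw [map_mul, map_prod]
    by_cases hxN : eval x N = 0
    · rw [show (aeval x) N = 0 from hxN, zero_mul]
    · have hmem : x ∈ hfin.toFinset := by
        rw [Set.Finite.mem_toFinset]
        exact ⟨hxJ, hxN⟩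
      rw [Finset.prod_eq_zero hmem (show (aeval x) (f x) = 0 from hf0 x), mul_zero]
  rcases hpp.mem_or_mem hprod with h | h
  · exact hN (hpz h)
  · rw [hpp.prod_mem_iff] at h
    obtain ⟨z, -, hz⟩ := h
    exact hfp z hz

end Pool.Agent.Lib.MP_75d53c_ag
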