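import Pool.Agent.Lib.MP_75d53c_ag.Planes
import Pool.Agent.Lib.MP_75d53c_ag.Krull

/-! A cone in `ℂ³` that is contained in a surface and that has no isolated lines has
a surface as its closure. -/

set_option autoImplicit false

open MvPolynomial

namespace Pool.Agent.Lib.MP_75d53c_ag

/-- restriction of a polynomial to a line through the origin -/
noncomputable def onLine (ξ : Fin 3 → ℂ) : MvPolynomial (Fin 3) ℂ →+* Polynomial ℂ :=
  eval₂Hom Polynomial.C (fun i => Polynomial.C (ξ i) * Polynomial.X)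

lemma eval_onLine (ξ : Fin 3 → ℂ) (p : MvPolynomial (Fin 3) ℂ) (c : ℂ) :
    (onLine ξ p).eval c = eval (c • ξ) p := by
  have : (Polynomial.evalRingHom c).comp (onLine ξ) = eval (c • ξ) := by
    apply ringHom_ext
    · intro r; simp [onLine]
    · intro i
      rw [RingHom.comp_apply, onLine, coe_eval₂Hom, eval₂_X, Polynomial.coe_evalRingHom,
        Polynomial.eval_mul, Polynomial.eval_C, Polynomial.eval_X, eval_X, Pi.smul_apply,
        smul_eq_mul]
      ring
  exact congrArg (fun f => f p) this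

/-- the ideal of the line spanned by a vector -/
noncomputable def lineIdeal (ξ : Fin 3 → ℂ) : Ideal (MvPolynomial (Fin 3) ℂ) :=
  RingHom.ker (onLine ξ)

instance (ξ : Fin 3 → ℂ) : (lineIdeal ξ).IsPrime := RingHom.ker_isPrime _

lemma lineIdeal_lt (ξ : Fin 3 → ℂ) (hξ : ξ ≠ 0) : lineIdeal ξ < RingHom.ker (eval ξ) := by
  refine lt_of_le_of_ne ?_ ?_
  · intro p hp
    have h1 : onLine ξ p = 0 := hp
    have h2 := eval_onLine ξ p 1
    rw [h1, one_smul] at h2
    simpa using h2.symm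
  · intro h
    obtain ⟨i, hi⟩ := Function.ne_iff.mp hξ
    have h1 : (X i - C (ξ i) : MvPolynomial (Fin 3) ℂ) ∈ lineIdeal ξ := by
      rw [h, RingHom.mem_ker]; simp
    have h2 : onLine ξ (X i - C (ξ i)) = 0 := h1
    have h3 := eval_onLine ξ (X i - C (ξ i)) 0
    rw [h2] at h3
    simp at h3
    exact hi (by simpa using h3)

/-- a prime ideal contained in a line ideal, that is not principal, is the line ideal -/
lemma eq_lineIdeal (ξ : Fin 3 → ℂ) (hξ : ξ ≠ 0) (P : Ideal (MvPolynomial (Fin 3) ℂ)) [P.IsPrime]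
    (hP : P ≤ lineIdeal ξ) (π : MvPolynomial (Fin 3) ℂ) (hπ : Prime π) (hπP : π ∈ P)
    (hne : P ≠ Ideal.span {π}) : P = lineIdeal ξ := by
  by_contra hcon
  have hpr : (Ideal.span {π}).IsPrime := (Ideal.span_singleton_prime hπ.ne_zero).mpr hπ
  have hm : (RingHom.ker (eval ξ)).IsPrime := RingHom.ker_isPrime _
  have h1 : (⊥ : Ideal (MvPolynomial (Fin 3) ℂ)) < Ideal.span {π} := by
    rw [bot_lt_iff_ne_bot, Ne, Ideal.span_singleton_eq_bot]
    exact hπ.ne_zero
  have h2 : Ideal.span {π} < P := by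
    refine lt_of_le_of_ne ?_ (Ne.symm hne)
    rw [Ideal.span_singleton_le_iff_mem]; exact hπP
  have h3 : P < lineIdeal ξ := lt_of_le_of_ne hP hcon
  have h4 := lineIdeal_lt ξ hξ
  have k1 := Ideal.height_strict_mono_of_isPrime_of_isPrime h1
  have k2 := Ideal.height_strict_mono_of_isPrime_of_isPrime h2
  have k3 := Ideal.height_strict_mono_of_isPrime_of_isPrime h3
  have k4 := Ideal.height_strict_mono_of_isPrime_of_isPrime h4
  rw [height_point] at k4
  have key : ∀ a0 a1 a2 a3 : ℕ∞, a0 < a1 → a1 < a2 → a2 < a3 → a3 < 3 → False := by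
    intro a0 a1 a2 a3 h1 h2 h3 h4
    have e3 : a3 ≠ ⊤ := h4.ne_top
    have e2 : a2 ≠ ⊤ := h3.ne_top
    have e1 : a1 ≠ ⊤ := h2.ne_top
    have e0 : a0 ≠ ⊤ := h1.ne_top
    lift a3 to ℕ using e3
    lift a2 to ℕ using e2
    lift a1 to ℕ using e1
    lift a0 to ℕ using e0
    norm_cast at h1 h2 h3 h4
    omega
  exact key _ _ _ _ k1 k2 k3 (by simpa using k4)

section

variable (K : Set (Fin 3 → ℂ))

/-- the polynomials vanishing on a set -/
noncomputable def van : Ideal (MvPolynomial (Fin 3) ℂ) := vanishingIdeal ℂ K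

lemma mem_van (p : MvPolynomial (Fin 3) ℂ) : p ∈ van K ↔ ∀ ξ ∈ K, eval ξ p = 0 := by
  unfold van
  rw [mem_vanishingIdeal_iff]
  exact Iff.rfl

lemma van_radical : (van K).radical = van K := by
  apply le_antisymm _ Ideal.le_radical
  rintro p ⟨n, hn⟩
  rw [mem_van] at hn ⊢
  intro ξ hξ
  have := hn ξ hξ
  rw [map_pow] at this
  by_contra hne
  exact pow_ne_zero n hne this

/-- the homogeneous components of a polynomial vanishing on a cone vanish on the cone -/
lemma component_mem (hsm : ∀ ξ ∈ K, ∀ c : ℂ, c ≠ 0 → c • ξ ∈ K) (p : MvPolynomial (Fin 3) ℂ)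
    (hp : p ∈ van K) (n : ℕ) : homogeneousComponent n p ∈ van K := by
  rw [mem_van] at hp ⊢
  intro ξ hξ
  have h0 : onLine ξ p = 0 := by
    have : onLine ξ p * Polynomial.X = 0 := by
      apply Polynomial.funext
      intro c
      rw [Polynomial.eval_mul, Polynomial.eval_X, eval_onLine, Polynomial.eval_zero]
      by_cases hc : c = 0
      · rw [hc, mul_zero]
      · rw [hp _ (hsm ξ hξ c hc), zero_mul]
    exact (mul_eq_zero.mp this).resolve_right Polynomial.X_ne_zero
  have h1 : ∀ q : MvPolynomial (Fin 3) ℂ, (onLine ξ q).coeff n =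
      eval ξ (homogeneousComponent n q) := by
    intro q
    induction q using MvPolynomial.induction_on' with
    | monomial u a =>
      have e1 : onLine ξ (monomial u a) =
          Polynomial.C (eval ξ (monomial u a)) * Polynomial.X ^ u.degree := by
        rw [onLine, coe_eval₂Hom, eval₂_monomial, eval_monomial, Finsupp.prod_fintype,
          Finsupp.prod_fintype]
        · simp only [mul_pow, Finset.prod_mul_distrib]
          rw [Finset.prod_pow_eq_pow_sum, ← Finsupp.degree_eq_sum, Polynomial.C_mul]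
          rw [map_prod]
          simp only [map_pow]
          ring
        · intro i; simp
        · intro i; simp
      rw [e1, Polynomial.coeff_C_mul, Polynomial.coeff_X_pow]
      rw [homogeneousComponent_of_mem (m := n) (n := u.degree)
        (isHomogeneous_monomial _ rfl : (monomial u a).IsHomogeneous u.degree)]
      by_cases hn : n = u.degree
      · rw [if_pos hn, if_pos hn, mul_one]
      · rw [if_neg hn, if_neg hn, mul_zero, map_zero]
    | add q r hq hr => rw [map_add, Polynomial.coeff_add, hq, hr, map_add, map_add]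
  rw [← h1, h0, Polynomial.coeff_zero]

/-- the minimal primes are principal -/
lemma minimal_principal
    (hH : ∃ H : MvPolynomial (Fin 3) ℂ, H ≠ 0 ∧ H ∈ van K) (h0 : ∀ ξ ∈ K, ξ ≠ 0)
    (hsm : ∀ ξ ∈ K, ∀ c : ℂ, c ≠ 0 → c • ξ ∈ K)
    (hiso : ∀ ξ ∈ K, ∀ h : MvPolynomial (Fin 3) ℂ, eval ξ h ≠ 0 →
      ∃ η ∈ K, eval η h ≠ 0 ∧ cr η ξ ≠ 0)
    (P : Ideal (MvPolynomial (Fin 3) ℂ)) (hP : P ∈ (van K).minimalPrimes) :
    ∃ π : MvPolynomial (Fin 3) ℂ, Prime π ∧ P = Ideal.span {π} := by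
  classical
  have hPp : P.IsPrime := hP.1.1
  have hIP : van K ≤ P := hP.1.2
  obtain ⟨H, hH0, hHI⟩ := hH
  have hPb : P ≠ ⊥ := by
    rintro rfl
    exact hH0 (by simpa using hIP hHI)
  obtain ⟨π, hπP, hπ⟩ := Ideal.IsPrime.exists_mem_prime_of_ne_bot hPp hPb
  refine ⟨π, hπ, ?_⟩
  by_contra hne
  have hfin := (van K).finite_minimalPrimes_of_isNoetherianRing
  have hex : ∀ Q : Ideal (MvPolynomial (Fin 3) ℂ), ∃ f : MvPolynomial (Fin 3) ℂ,
      Q ∈ (van K).minimalPrimes → Q ≠ P → f ∈ Q ∧ f ∉ P := by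
    intro Q
    by_cases hQ : Q ∈ (van K).minimalPrimes ∧ Q ≠ P
    · have hnle : ¬ Q ≤ P := by
        intro hle
        exact hQ.2 (le_antisymm hle (hP.2 hQ.1.1 hle))
      obtain ⟨f, hf1, hf2⟩ := Set.not_subset.mp hnle
      exact ⟨f, fun _ _ => ⟨hf1, hf2⟩⟩
    · refine ⟨0, fun h1 h2 => absurd ⟨h1, h2⟩ hQ⟩
  choose f hf using hex
  set h : MvPolynomial (Fin 3) ℂ := ∏ Q ∈ hfin.toFinset.erase P, f Q with hh
  have hhP : h ∉ P := by
    intro hmem
    rw [hh, hPp.prod_mem_iff] at hmem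
    obtain ⟨Q, hQ, hfQ⟩ := hmem
    rw [Finset.mem_erase, Set.Finite.mem_toFinset] at hQ
    exact (hf Q hQ.2 hQ.1).2 hfQ
  have hhQ : ∀ Q ∈ (van K).minimalPrimes, Q ≠ P → h ∈ Q := by
    intro Q hQ hne
    rw [hh]
    exact Ideal.prod_mem Q (Finset.mem_erase.mpr ⟨hne, hfin.mem_toFinset.mpr hQ⟩) (hf Q hQ hne).1
  have hKP : ∀ η ∈ K, eval η h ≠ 0 → ∀ p ∈ P, eval η p = 0 := by
    intro η hη hηh p hp
    have hmem : p * h ∈ van K := by
      rw [← van_radical, ← Ideal.sInf_minimalPrimes, Submodule.mem_sInf]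
      intro Q hQ
      by_cases hQP : Q = P
      · rw [hQP]; exact P.mul_mem_right _ hp
      · exact Ideal.mul_mem_left Q _ (hhQ Q hQ hQP)
    rw [mem_van] at hmem
    have := hmem η hη
    rw [map_mul] at this
    exact (mul_eq_zero.mp this).resolve_right hηh
  obtain ⟨ξ, hξK, hξh⟩ : ∃ ξ ∈ K, eval ξ h ≠ 0 := by
    by_contra hcon
    push Not at hcon
    exact hhP (hIP ((mem_van K h).mpr hcon))
  have hle : P ≤ lineIdeal ξ := by
    intro p hp
    have hprod : onLine ξ p * (onLine ξ h * Polynomial.X) = 0 := by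
      apply Polynomial.funext
      intro c
      rw [Polynomial.eval_mul, Polynomial.eval_mul, Polynomial.eval_X, eval_onLine, eval_onLine,
        Polynomial.eval_zero]
      by_cases hc : c = 0
      · rw [hc]; ring
      · by_cases hch : eval (c • ξ) h = 0
        · rw [hch]; ring
        · rw [hKP _ (hsm ξ hξK c hc) hch p hp]; ring
    have hne0 : onLine ξ h ≠ 0 := by
      intro h1
      apply hξh
      have := eval_onLine ξ h 1
      rw [h1, one_smul] at this
      simpa using this.symm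
    exact (mul_eq_zero.mp hprod).resolve_right (mul_ne_zero hne0 Polynomial.X_ne_zero)
  have heq := eq_lineIdeal ξ (h0 ξ hξK) P hle π hπ hπP hne
  obtain ⟨η, hηK, hηh, hcr⟩ := hiso ξ hξK h hξh
  apply hcr
  funext i
  have hmem : cr (fun j => (X j : MvPolynomial (Fin 3) ℂ)) (fun j => C (ξ j)) i ∈ P := by
    rw [heq]
    change onLine ξ _ = 0
    have h1 := congrFun (cr_map (onLine ξ) (fun j => (X j : MvPolynomial (Fin 3) ℂ))
      (fun j => C (ξ j))) i
    have h2 : (onLine ξ ∘ fun j => (X j : MvPolynomial (Fin 3) ℂ)) =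
        (Polynomial.X : Polynomial ℂ) • (fun j => Polynomial.C (ξ j)) := by
      funext j; simp [onLine]
    have h3 : (onLine ξ ∘ fun j => (C (ξ j) : MvPolynomial (Fin 3) ℂ)) =
        (1 : Polynomial ℂ) • (fun j => Polynomial.C (ξ j)) := by
      funext j; simp [onLine]
    rw [h2, h3, cr_smul, cr_self] at h1
    simpa using h1
  have h4 := hKP η hηK hηh _ hmem
  have h5 := congrFun (cr_map (eval η) (fun j => (X j : MvPolynomial (Fin 3) ℂ))
      (fun j => C (ξ j))) i
  have h6 : (eval η ∘ fun j => (X j : MvPolynomial (Fin 3) ℂ)) = η := by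
    funext j; simp
  have h7 : (eval η ∘ fun j => (C (ξ j) : MvPolynomial (Fin 3) ℂ)) = ξ := by
    funext j; simp
  rw [h6, h7] at h5
  rw [← h5]
  exact h4

lemma prod_primes_dvd' {ι R : Type} [CommRing R] [IsDomain R] (s : Finset ι) (π : ι → R)
    (hπ : ∀ i ∈ s, Prime (π i)) (hne : ∀ i ∈ s, ∀ j ∈ s, i ≠ j → ¬ π i ∣ π j) (p : R)
    (hp : ∀ i ∈ s, π i ∣ p) : ∏ i ∈ s, π i ∣ p := by
  classical
  induction s using Finset.induction_on with
  | empty => simp
  | insert a s ha ih =>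
    rw [Finset.prod_insert ha]
    obtain ⟨q, hq⟩ := ih (fun i hi => hπ i (Finset.mem_insert_of_mem hi))
      (fun i hi j hj => hne i (Finset.mem_insert_of_mem hi) j (Finset.mem_insert_of_mem hj))
      (fun i hi => hp i (Finset.mem_insert_of_mem hi))
    have h1 : π a ∣ (∏ i ∈ s, π i) * q := by
      rw [← hq]; exact hp a (Finset.mem_insert_self a s)
    have hpa := hπ a (Finset.mem_insert_self a s)
    rcases hpa.dvd_or_dvd h1 with h2 | h2
    · exfalso
      obtain ⟨j, hj, hj2⟩ := hpa.exists_mem_finset_dvd h2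
      refine hne a (Finset.mem_insert_self a s) j (Finset.mem_insert_of_mem hj) ?_ hj2
      rintro rfl
      exact ha hj
    · obtain ⟨r, hr⟩ := h2
      exact ⟨r, by rw [hq, hr]; ring⟩

/-- the cone has a surface as its closure -/
theorem curve_of (hne : K.Nonempty)
    (hH : ∃ H : MvPolynomial (Fin 3) ℂ, H ≠ 0 ∧ ∀ ξ ∈ K, eval ξ H = 0) (h0 : ∀ ξ ∈ K, ξ ≠ 0)
    (hsm : ∀ ξ ∈ K, ∀ c : ℂ, c ≠ 0 → c • ξ ∈ K)
    (hiso : ∀ ξ ∈ K, ∀ h : MvPolynomial (Fin 3) ℂ, eval ξ h ≠ 0 →
      ∃ η ∈ K, eval η h ≠ 0 ∧ cr η ξ ≠ 0) :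
    ∃ (G : MvPolynomial (Fin 3) ℂ) (d : ℕ), 0 < d ∧ G.IsHomogeneous d ∧ G ≠ 0 ∧
      (∀ ξ ∈ K, eval ξ G = 0) ∧
      ∀ p : MvPolynomial (Fin 3) ℂ, (∀ ξ ∈ K, eval ξ p = 0) → G ∣ p := by
  classical
  have hH' : ∃ H : MvPolynomial (Fin 3) ℂ, H ≠ 0 ∧ H ∈ van K := by
    obtain ⟨H, h1, h2⟩ := hH
    exact ⟨H, h1, (mem_van K H).mpr h2⟩
  have hfin := (van K).finite_minimalPrimes_of_isNoetherianRing
  have hex : ∀ P : Ideal (MvPolynomial (Fin 3) ℂ), ∃ π : MvPolynomial (Fin 3) ℂ,
      P ∈ (van K).minimalPrimes → Prime π ∧ P = Ideal.span {π} := by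
    intro P
    by_cases hP : P ∈ (van K).minimalPrimes
    · obtain ⟨π, h1, h2⟩ := minimal_principal K hH' h0 hsm hiso P hP
      exact ⟨π, fun _ => ⟨h1, h2⟩⟩
    · exact ⟨0, fun h => absurd h hP⟩
  choose π hπ using hex
  set G : MvPolynomial (Fin 3) ℂ := ∏ P ∈ hfin.toFinset, π P with hG
  have hG0 : G ≠ 0 := by
    rw [hG, Finset.prod_ne_zero_iff]
    intro P hP
    exact (hπ P (hfin.mem_toFinset.mp hP)).1.ne_zero
  have hGI : G ∈ van K := by
    rw [← van_radical, ← Ideal.sInf_minimalPrimes, Submodule.mem_sInf]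
    intro P hP
    refine Ideal.prod_mem P (hfin.mem_toFinset.mpr hP) ?_
    have h1 : π P ∈ Ideal.span {π P} := Ideal.mem_span_singleton_self _
    rwa [← (hπ P hP).2] at h1
  have hdvd : ∀ p ∈ van K, G ∣ p := by
    intro p hp
    rw [hG]
    apply prod_primes_dvd'
    · intro P hP
      exact (hπ P (hfin.mem_toFinset.mp hP)).1
    · intro P hP Q hQ hPQ hd
      have hP' := hfin.mem_toFinset.mp hP
      have hQ' := hfin.mem_toFinset.mp hQ
      apply hPQ
      have hle : Q ≤ P := by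
        rw [(hπ P hP').2, (hπ Q hQ').2]
        exact Ideal.span_singleton_le_span_singleton.mpr hd
      exact le_antisymm (hP'.2 hQ'.1 hle) hle
    · intro P hP
      have hP' := hfin.mem_toFinset.mp hP
      have h1 : p ∈ P := hP'.1.2 hp
      rw [(hπ P hP').2, Ideal.mem_span_singleton] at h1
      exact h1
  -- a nonzero homogeneous component
  obtain ⟨n, hn⟩ : ∃ n, homogeneousComponent n G ≠ 0 := by
    by_contra hcon
    push Not at hcon
    apply hG0
    rw [← sum_homogeneousComponent G]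
    exact Finset.sum_eq_zero (fun i _ => hcon i)
  have hhom : G.IsHomogeneous n := by
    obtain ⟨q, hq⟩ := hdvd _ (component_mem K hsm G hGI n)
    have hq0 : q ≠ 0 := by
      rintro rfl
      exact hn (by rw [hq, mul_zero])
    have hdeg := totalDegree_mul_of_isDomain hG0 hq0
    rw [← hq, (homogeneousComponent_isHomogeneous n G).totalDegree hn] at hdeg
    have hle : n ≤ G.totalDegree := by
      by_contra hlt
      exact hn (homogeneousComponent_eq_zero n G (by omega))
    have hq1 : q.totalDegree = 0 := by omega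
    rw [totalDegree_eq_zero_iff_eq_C] at hq1
    set c := coeff 0 q with hc
    have hc0 : c ≠ 0 := by
      intro h
      rw [h, C_0] at hq1
      exact hq0 hq1
    have hGn : G = C c⁻¹ * homogeneousComponent n G := by
      rw [hq, hq1, mul_comm G, ← mul_assoc, ← C_mul, inv_mul_cancel₀ hc0, C_1, one_mul]
    rw [hGn]
    have := (isHomogeneous_C (Fin 3) c⁻¹).mul (homogeneousComponent_isHomogeneous n G)
    rwa [zero_add] at this
  refine ⟨G, n, ?_, hhom, hG0, (mem_van K G).mp hGI, fun p hp => hdvd p ((mem_van K p).mpr hp)⟩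
  rcases Nat.eq_zero_or_pos n with h | h
  · exfalso
    subst h
    have h1 : G.totalDegree = 0 := Nat.le_zero.mp hhom.totalDegree_le
    rw [totalDegree_eq_zero_iff_eq_C] at h1
    obtain ⟨ξ, hξ⟩ := hne
    have h2 := (mem_van K G).mp hGI ξ hξ
    rw [h1, eval_C] at h2
    apply hG0
    rw [h1, h2, C_0]
  · exact h

end

end Pool.Agent.Lib.MP_75d53c_ag
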