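import Mathlib

/-! # The double-point locus of the moduli map of a plane sextic: definitions

The plane sextic is `X = {F = 0}`, where `F` is a form of degree six in three variables over `ℂ`.
Both the plane and its dual plane are `Plane = ℙ(ℂ³)`; the point `L` of the dual plane with
homogeneous coordinates `ξ` stands for the line `{x : ξ₀ x₀ + ξ₁ x₁ + ξ₂ x₂ = 0}`. -/

set_option autoImplicit false

open MvPolynomial

namespace Pool.Agent.Lib.MP_75d53c_ag

/-- The projective plane over `ℂ`. It is used both for the plane that contains the sextic and
for the dual plane, whose points are lines. -/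
abbrev Plane : Type := Projectivization ℂ (Fin 3 → ℂ)

/-- The polynomial `G` vanishes at the point `x`. For a form `G` this does not depend on the
representative of `x`. -/
def Vanishes (G : MvPolynomial (Fin 3) ℂ) (x : Plane) : Prop := eval x.rep G = 0

/-- The two-dimensional linear space whose projectivisation is the line `L`. -/
def planeOf (L : Plane) : Submodule ℂ (Fin 3 → ℂ) where
  carrier := {v | ∑ i, L.rep i * v i = 0}
  add_mem' := by
    intro v w hv hw
    have hv : ∑ i, L.rep i * v i = 0 := hv
    have hw : ∑ i, L.rep i * w i = 0 := hw
    change ∑ i, L.rep i * (v i + w i) = 0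
    simp only [mul_add, Finset.sum_add_distrib, hv, hw, add_zero]
  zero_mem' := by
    change ∑ i, L.rep i * (0 : ℂ) = 0
    simp
  smul_mem' := by
    intro c v hv
    have hv : ∑ i, L.rep i * v i = 0 := hv
    change ∑ i, L.rep i * (c * v i) = 0
    have h : ∀ i, L.rep i * (c * v i) = c * (L.rep i * v i) := fun i => by ring
    simp only [h, ← Finset.mul_sum, hv, mul_zero]

/-- The intersection of the line `L` with the sextic `{F = 0}`, a set of points of the plane. -/
def sect (F : MvPolynomial (Fin 3) ℂ) (L : Plane) : Set Plane :=
  {x | x.rep ∈ planeOf L ∧ Vanishes F x}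

/-- The line `L` meets the sextic `{F = 0}` transversally: it meets it in exactly six points. -/
def Transverse (F : MvPolynomial (Fin 3) ℂ) (L : Plane) : Prop := (sect F L).ncard = 6

/-- The six-point sets cut out by the sextic on the lines `L` and `L'` have the same class
modulo projective equivalence: a linear isomorphism between the two planes, that is a projective
isomorphism `L ≅ L'`, carries the zeros of `F` on `L` onto the zeros of `F` on `L'`. -/
def SameModuli (F : MvPolynomial (Fin 3) ℂ) (L L' : Plane) : Prop :=
  ∃ φ : planeOf L ≃ₗ[ℂ] planeOf L', ∀ v : planeOf L,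
    eval (v : Fin 3 → ℂ) F = 0 ↔ eval (φ v : Fin 3 → ℂ) F = 0

/-- The lines `L` in the domain of the moduli map for which there is another line `L'` in the
domain with the same image. -/
def doubleLines (F : MvPolynomial (Fin 3) ℂ) : Set Plane :=
  {L | Transverse F L ∧ ∃ L', L' ≠ L ∧ Transverse F L' ∧ SameModuli F L L'}

/-- The Zariski closure of a set of points of the projective plane. -/
def zariskiClosure (S : Set Plane) : Set Plane :=
  {x | ∀ (H : MvPolynomial (Fin 3) ℂ) (d : ℕ), H.IsHomogeneous d →
    (∀ y ∈ S, Vanishes H y) → Vanishes H x}

/-- A plane curve, that is a closed subset of the projective plane of pure dimension one: the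
zero set of a nonzero form of positive degree. -/
def IsPlaneCurve (Y : Set Plane) : Prop :=
  ∃ (G : MvPolynomial (Fin 3) ℂ) (d : ℕ), 0 < d ∧ G.IsHomogeneous d ∧ G ≠ 0 ∧
    Y = {x | Vanishes G x}

/-- exponents of the monomials of degree six in three variables -/
abbrev Exp6 : Type := {m : Fin 3 →₀ ℕ // m.degree = 6}

/-- A property holds for the general plane sextic: it holds for every form `F` of degree six at
whose vector of coefficients a fixed nonzero polynomial does not vanish. -/
def General (Q : MvPolynomial (Fin 3) ℂ → Prop) : Prop :=
  ∃ Δ : MvPolynomial Exp6 ℂ, Δ ≠ 0 ∧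
    ∀ F : MvPolynomial (Fin 3) ℂ, F.IsHomogeneous 6 →
      eval (fun m : Exp6 => coeff m.1 F) Δ ≠ 0 → Q F

end Pool.Agent.Lib.MP_75d53c_ag
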