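import Mathlib

/-! A nondegenerate solution of a square polynomial system depending on parameters gives
solutions for general values of the parameters. -/

set_option autoImplicit false

open MvPolynomial

namespace Pool.Agent.Lib.MP_75d53c_ag

section

variable {κ : Type} {n : ℕ}

/-- evaluation at a value of the parameters and of the unknowns -/
noncomputable def ev {ι : Type} (c : κ → ℂ) (θ : ι → ℂ) :
    MvPolynomial ι (MvPolynomial κ ℂ) →+* ℂ :=
  (eval θ).comp (map (eval c))

/-- the system together with the inverse of a function -/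
noncomputable def rel (E : Fin n → MvPolynomial (Fin n) (MvPolynomial κ ℂ))
    (D : MvPolynomial (Fin n) (MvPolynomial κ ℂ)) :
    Fin n ⊕ Unit → MvPolynomial (Fin n ⊕ Unit) (MvPolynomial κ ℂ) :=
  Sum.elim (fun k => rename Sum.inl (E k)) (fun _ => X (Sum.inr ()) * rename Sum.inl D - 1)

/-- the jacobian determinant -/
noncomputable def jac (E : Fin n → MvPolynomial (Fin n) (MvPolynomial κ ℂ)) :
    MvPolynomial (Fin n) (MvPolynomial κ ℂ) :=
  (Matrix.of (fun i j => pderiv i (E j))).det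

lemma pderiv_inr_rename (P : MvPolynomial (Fin n) (MvPolynomial κ ℂ)) :
    pderiv (Sum.inr () : Fin n ⊕ Unit) (rename Sum.inl P) = 0 := by
  classical
  induction P using MvPolynomial.induction_on with
  | C a => simp
  | add p q hp hq => simp [hp, hq]
  | mul_X p i hp => simp [hp]

lemma unit_aux {A S : Type} [CommRing A] [CommRing S] (f : A →+* S) (x d m j : A)
    (h : f (x * d - 1) = 0) (hd : d = m * j) : IsUnit (f j * f d) := by
  have h1 : f x * f d = 1 := by
    rw [map_sub, map_mul, map_one, sub_eq_zero] at h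
    exact h
  have h2 : IsUnit (f d) := IsUnit.of_mul_eq_one_right _ h1
  refine IsUnit.mul ?_ h2
  rw [hd, map_mul] at h2
  exact isUnit_of_mul_isUnit_right h2

theorem standard_smooth (E : Fin n → MvPolynomial (Fin n) (MvPolynomial κ ℂ))
    (N : MvPolynomial (Fin n) (MvPolynomial κ ℂ)) :
    Algebra.IsStandardSmooth (MvPolynomial κ ℂ)
      (MvPolynomial (Fin n ⊕ Unit) (MvPolynomial κ ℂ) ⧸
        (Ideal.span <| Set.range (rel E (N * jac E)))) := by
  classical
  set D := N * jac E with hD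
  set v := rel E D with hv
  let P : Algebra.PreSubmersivePresentation (MvPolynomial κ ℂ)
      (MvPolynomial (Fin n ⊕ Unit) (MvPolynomial κ ℂ) ⧸ (Ideal.span <| Set.range v))
      (Fin n ⊕ Unit) (Fin n ⊕ Unit) :=
    Algebra.PreSubmersivePresentation.naive id Function.injective_id
  have hmat : P.jacobiMatrix = Matrix.fromBlocks
      (Matrix.of (fun i j => rename Sum.inl (pderiv i (E j))))
      (Matrix.of (fun i (_ : Unit) => pderiv (Sum.inl i) (v (Sum.inr ())))) 0
      (Matrix.of (fun (_ _ : Unit) => rename Sum.inl D)) := by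
    ext i j : 2
    rw [Algebra.PreSubmersivePresentation.jacobiMatrix_naive]
    rcases i with i | ⟨⟩ <;> rcases j with j | ⟨⟩
    · simp [v, rel, pderiv_rename Sum.inl_injective]
    · simp
    · simp [v, rel, pderiv_inr_rename (n := n)]
    · simp [v, rel, pderiv_inr_rename (n := n)]
  have hdet : P.jacobiMatrix.det = rename Sum.inl (jac E) * rename Sum.inl D := by
    rw [hmat, Matrix.det_fromBlocks_zero₂₁]
    congr 1
    · rw [jac, AlgHom.map_det]
      rfl
    · simp
  have hunit : IsUnit P.jacobian := by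
    rw [Algebra.PreSubmersivePresentation.jacobian_eq_jacobiMatrix_det, hdet, map_mul]
    have halg : ∀ x : MvPolynomial (Fin n ⊕ Unit) (MvPolynomial κ ℂ),
        algebraMap P.Ring (MvPolynomial (Fin n ⊕ Unit) (MvPolynomial κ ℂ) ⧸
          (Ideal.span <| Set.range v)) x = Ideal.Quotient.mk _ x := by
      intro x
      rfl
    rw [halg, halg]
    refine unit_aux (A := MvPolynomial (Fin n ⊕ Unit) (MvPolynomial κ ℂ))
      (S := MvPolynomial (Fin n ⊕ Unit) (MvPolynomial κ ℂ) ⧸ (Ideal.span <| Set.range v))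
      (Ideal.Quotient.mk (Ideal.span <| Set.range v)) (X (Sum.inr ())) (rename Sum.inl D)
      (rename Sum.inl N) (rename Sum.inl (jac E)) ?_ (by rw [hD, map_mul])
    rw [Ideal.Quotient.eq_zero_iff_mem]
    apply Ideal.subset_span
    exact ⟨Sum.inr (), rfl⟩
  exact (Algebra.SubmersivePresentation.mk P hunit).isStandardSmooth


/-- openness of the projection -/
theorem open_range (S : Type) [CommRing S]
    [Algebra (MvPolynomial κ ℂ) S] [Algebra.IsStandardSmooth (MvPolynomial κ ℂ) S] :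
    IsOpen (Set.range (PrimeSpectrum.comap (algebraMap (MvPolynomial κ ℂ) S))) := by
  have h1 : Module.Flat (MvPolynomial κ ℂ) S := inferInstance
  exact (PrimeSpectrum.isOpenMap_comap_of_hasGoingDown_of_finitePresentation).isOpen_range

/-- a nonzero fibre has a point -/
lemma lift_point {ι τ : Type} [Finite ι] (v : τ → MvPolynomial ι (MvPolynomial κ ℂ)) (T : Type)
    [CommRing T] [Nontrivial T] (f : MvPolynomial ι (MvPolynomial κ ℂ) →+* T)
    (hf : ∀ k, f (v k) = 0) (c : κ → ℂ) (hc : ∀ r, eval c r = 0 → f (C r) = 0) :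
    ∃ x : ι → ℂ, ∀ k, ev c x (v k) = 0 := by
  by_contra hcon
  push Not at hcon
  set J : Ideal (MvPolynomial ι ℂ) := Ideal.span (Set.range (fun k => map (eval c) (v k))) with hJ
  have hzero : zeroLocus ℂ J = ∅ := by
    rw [Set.eq_empty_iff_forall_notMem]
    intro x hx
    obtain ⟨k, hk⟩ := hcon x
    exact hk (hx _ (Ideal.subset_span ⟨k, rfl⟩))
  have htop : J = ⊤ := by
    rw [← Ideal.radical_eq_top, ← vanishingIdeal_zeroLocus_eq_radical (K := ℂ) J, hzero,
      vanishingIdeal_empty]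
  let g : MvPolynomial ι ℂ →+* T := eval₂Hom ((f.comp C).comp C) (fun i => f (X i))
  have hg : ∀ P, g (map (eval c) P) = f P := by
    intro P
    have : g.comp (map (eval c)) = f := by
      apply ringHom_ext
      · intro r
        simp only [RingHom.comp_apply, map_C, g, coe_eval₂Hom, eval₂_C]
        rw [← sub_eq_zero, ← map_sub, ← map_sub]
        apply hc
        simp
      · intro i
        simp [g]
    exact congrArg (fun h => h P) this
  have hle : J ≤ RingHom.ker g := by
    rw [hJ, Ideal.span_le]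
    rintro _ ⟨k, rfl⟩
    simp only [SetLike.mem_coe, RingHom.mem_ker]
    rw [hg, hf]
  have h1 : (1 : MvPolynomial ι ℂ) ∈ RingHom.ker g := hle (by rw [htop]; trivial)
  rw [RingHom.mem_ker, map_one] at h1
  exact one_ne_zero h1

lemma ev_rename (c : κ → ℂ) (x : Fin n ⊕ Unit → ℂ)
    (P : MvPolynomial (Fin n) (MvPolynomial κ ℂ)) :
    ev c x (rename Sum.inl P) = ev c (x ∘ Sum.inl) P := by
  simp only [ev, RingHom.comp_apply]
  rw [map_rename, eval_rename]

/-- the basic step: a prime of the parameter ring over which there is a prime gives a solution -/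
lemma solution_of_prime (E : Fin n → MvPolynomial (Fin n) (MvPolynomial κ ℂ))
    (N : MvPolynomial (Fin n) (MvPolynomial κ ℂ)) (T : Type) [CommRing T] [Nontrivial T]
    (f : MvPolynomial (Fin n ⊕ Unit) (MvPolynomial κ ℂ) →+* T)
    (hf : ∀ k, f (rel E (N * jac E) k) = 0) (c : κ → ℂ) (hc : ∀ r, eval c r = 0 → f (C r) = 0) :
    ∃ θ : Fin n → ℂ, (∀ k, ev c θ (E k) = 0) ∧ ev c θ N ≠ 0 := by
  obtain ⟨x, hx⟩ := lift_point _ T f hf c hc
  refine ⟨x ∘ Sum.inl, ?_, ?_⟩
  · intro k
    rw [← ev_rename]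
    exact hx (Sum.inl k)
  · intro h0
    have h1 := hx (Sum.inr ())
    simp only [rel, Sum.elim_inr, map_sub, map_mul, map_one] at h1
    rw [ev_rename, ev_rename, h0] at h1
    simp at h1

lemma general_aux (E : Fin n → MvPolynomial (Fin n) (MvPolynomial κ ℂ))
    (N : MvPolynomial (Fin n) (MvPolynomial κ ℂ)) (c0 : κ → ℂ)
    (S : Type) [CommRing S] [Algebra (MvPolynomial κ ℂ) S]
    (hopen : IsOpen (Set.range (PrimeSpectrum.comap (algebraMap (MvPolynomial κ ℂ) S))))
    (f : MvPolynomial (Fin n ⊕ Unit) (MvPolynomial κ ℂ) →+* S)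
    (hf : ∀ k, f (rel E (N * jac E) k) = 0)
    (hfC : ∀ r, f (C r) = algebraMap (MvPolynomial κ ℂ) S r)
    (ψ : S →+* ℂ) (hψ : ∀ r, ψ (algebraMap (MvPolynomial κ ℂ) S r) = eval c0 r) :
    ∃ Δ : MvPolynomial κ ℂ, Δ ≠ 0 ∧ ∀ c : κ → ℂ, eval c Δ ≠ 0 →
      ∃ θ : Fin n → ℂ, (∀ k, ev c θ (E k) = 0) ∧ ev c θ N ≠ 0 := by
  classical
  let pt : (κ → ℂ) → PrimeSpectrum (MvPolynomial κ ℂ) := fun c =>
    ⟨RingHom.ker (eval c), RingHom.ker_isPrime _⟩
  have hmem : pt c0 ∈ Set.range (PrimeSpectrum.comap (algebraMap (MvPolynomial κ ℂ) S)) := by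
    refine ⟨⟨RingHom.ker ψ, RingHom.ker_isPrime _⟩, ?_⟩
    apply PrimeSpectrum.ext
    ext r
    simp only [PrimeSpectrum.comap_asIdeal, Ideal.mem_comap, RingHom.mem_ker, pt]
    rw [hψ]
  obtain ⟨_, ⟨_, ⟨Δ, rfl⟩, rfl⟩, hΔ1, hΔ2⟩ :=
    (PrimeSpectrum.isBasis_basic_opens).exists_subset_of_mem_open hmem hopen
  refine ⟨Δ, ?_, ?_⟩
  · rintro rfl
    simp at hΔ1
  · intro c hc
    have h1 : pt c ∈ (PrimeSpectrum.basicOpen Δ : Set (PrimeSpectrum (MvPolynomial κ ℂ))) := by
      exact hc
    obtain ⟨Q, hQ⟩ := hΔ2 h1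
    refine solution_of_prime E N (S ⧸ Q.asIdeal) ((Ideal.Quotient.mk Q.asIdeal).comp f) ?_ c ?_
    · intro k
      rw [RingHom.comp_apply, hf, map_zero]
    · intro r hr
      rw [RingHom.comp_apply, hfC, Ideal.Quotient.eq_zero_iff_mem]
      have h2 : r ∈ (pt c).asIdeal := hr
      rw [← hQ] at h2
      exact h2

/-- Main statement: a nondegenerate solution deforms to general values of the parameters. -/
theorem general_solution (E : Fin n → MvPolynomial (Fin n) (MvPolynomial κ ℂ))
    (N : MvPolynomial (Fin n) (MvPolynomial κ ℂ)) (c0 : κ → ℂ) (θ0 : Fin n → ℂ)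
    (hE : ∀ k, ev c0 θ0 (E k) = 0) (hN : ev c0 θ0 N ≠ 0) (hJ : ev c0 θ0 (jac E) ≠ 0) :
    ∃ Δ : MvPolynomial κ ℂ, Δ ≠ 0 ∧ ∀ c : κ → ℂ, eval c Δ ≠ 0 →
      ∃ θ : Fin n → ℂ, (∀ k, ev c θ (E k) = 0) ∧ ev c θ N ≠ 0 := by
  classical
  have hsm := standard_smooth E N
  have hopen := open_range (κ := κ) (MvPolynomial (Fin n ⊕ Unit) (MvPolynomial κ ℂ) ⧸
    (Ideal.span (Set.range (rel E (N * jac E)))))
  refine general_aux E N c0 _ hopen (Ideal.Quotient.mk _) ?_ ?_
    (Ideal.Quotient.lift _ (ev c0 (Sum.elim θ0 (fun _ => (ev c0 θ0 (N * jac E))⁻¹))) ?_) ?_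
  · intro k
    rw [Ideal.Quotient.eq_zero_iff_mem]
    exact Ideal.subset_span ⟨k, rfl⟩
  · intro r
    rfl
  · intro a ha
    have hle : Ideal.span (Set.range (rel E (N * jac E))) ≤
        RingHom.ker (ev c0 (Sum.elim θ0 (fun _ => (ev c0 θ0 (N * jac E))⁻¹))) := by
      rw [Ideal.span_le]
      rintro _ ⟨k, rfl⟩
      rcases k with k | k
      · simp only [rel, Sum.elim_inl, SetLike.mem_coe, RingHom.mem_ker]
        rw [ev_rename]
        exact hE k
      · simp only [rel, Sum.elim_inr, SetLike.mem_coe, RingHom.mem_ker]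
        rw [map_sub, map_mul, ev_rename, map_one]
        have h1 : ev c0 (Sum.elim θ0 (fun _ => (ev c0 θ0 (N * jac E))⁻¹)) (X (Sum.inr ())) =
            (ev c0 θ0 (N * jac E))⁻¹ := by
          simp [ev]
        rw [h1, Sum.elim_comp_inl, inv_mul_cancel₀, sub_self]
        rw [map_mul]
        exact mul_ne_zero hN hJ
    exact hle ha
  · intro r
    change Ideal.Quotient.lift _ _ _ (Ideal.Quotient.mk _ (C r)) = _
    rw [Ideal.Quotient.lift_mk]
    simp [ev]

end

end Pool.Agent.Lib.MP_75d53c_ag
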