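import Pool.Agent.Lib.MP_75d53c_ag.NonIsolated
import Pool.Agent.Lib.MP_75d53c_ag.Smooth

/-! A general sextic has a pair of lines with projectively equivalent sections. -/

set_option autoImplicit false

open MvPolynomial

namespace Pool.Agent.Lib.MP_75d53c_ag

section dual

variable {κ : Type} {n : ℕ}

/-- evaluation at a tangent vector -/
noncomputable def dv (c : κ → ℂ) (θ : Fin n → ℂ) (j : Fin n) :
    MvPolynomial (Fin n) (MvPolynomial κ ℂ) →+* DualNumber ℂ :=
  eval₂Hom ((algebraMap ℂ (DualNumber ℂ)).comp (eval c))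
    (fun i => algebraMap ℂ (DualNumber ℂ) (θ i) + if i = j then DualNumber.eps else 0)

lemma dv_fst (c : κ → ℂ) (θ : Fin n → ℂ) (j : Fin n)
    (P : MvPolynomial (Fin n) (MvPolynomial κ ℂ)) :
    TrivSqZeroExt.fst (dv c θ j P) = ev c θ P := by
  induction P using MvPolynomial.induction_on with
  | C a => simp [dv, ev, TrivSqZeroExt.algebraMap_eq_inl]
  | add p q hp hq => rw [map_add, map_add, TrivSqZeroExt.fst_add, hp, hq]
  | mul_X p i hp =>
    rw [map_mul, map_mul, TrivSqZeroExt.fst_mul, hp]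
    congr 1
    by_cases h : i = j
    · simp [dv, ev, h, TrivSqZeroExt.algebraMap_eq_inl]
    · simp [dv, ev, h, TrivSqZeroExt.algebraMap_eq_inl]

lemma dv_snd (c : κ → ℂ) (θ : Fin n → ℂ) (j : Fin n)
    (P : MvPolynomial (Fin n) (MvPolynomial κ ℂ)) :
    TrivSqZeroExt.snd (dv c θ j P) = ev c θ (pderiv j P) := by
  classical
  induction P using MvPolynomial.induction_on with
  | C a => simp [dv, ev, TrivSqZeroExt.algebraMap_eq_inl]
  | add p q hp hq => rw [map_add, map_add, map_add, TrivSqZeroExt.snd_add, hp, hq]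
  | mul_X p i hp =>
    rw [map_mul, TrivSqZeroExt.snd_mul, hp, dv_fst, Derivation.leibniz, map_add]
    by_cases h : i = j
    · subst h
      simp [dv, ev, TrivSqZeroExt.algebraMap_eq_inl]
      ring
    · simp [dv, ev, h, TrivSqZeroExt.algebraMap_eq_inl]
      ring

end dual

section example_sextic

/-- the special sextic -/
noncomputable def F0 (R : Type) [CommRing R] : MvPolynomial (Fin 3) R :=
  X 0 ^ 6 + X 1 ^ 6 + X 2 ^ 6 + X 0 ^ 3 * X 1 ^ 2 * X 2 + X 0 ^ 3 * X 1 * X 2 ^ 2

lemma map_F0 {R S : Type} [CommRing R] [CommRing S] (φ : R →+* S) : map φ (F0 R) = F0 S := by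
  simp [F0]

lemma isHomogeneous_F0 (R : Type) [CommRing R] : (F0 R).IsHomogeneous 6 := by
  have hX : ∀ i : Fin 3, (X i : MvPolynomial (Fin 3) R).IsHomogeneous 1 := fun i =>
    isHomogeneous_X R i
  unfold F0
  refine ((((((hX 0).pow 6).add ((hX 1).pow 6)).add ((hX 2).pow 6)).add ?_).add ?_)
  · exact (((hX 0).pow 3).mul ((hX 1).pow 2)).mul (hX 2)
  · exact (((hX 0).pow 3).mul (hX 1)).mul ((hX 2).pow 2)

lemma bin_F0 (R : Type) [CommRing R] (a b : Fin 3 → R) :
    bin (F0 R) a b =
      (Polynomial.C (a 0) + Polynomial.C (b 0) * Polynomial.X) ^ 6 +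
      (Polynomial.C (a 1) + Polynomial.C (b 1) * Polynomial.X) ^ 6 +
      (Polynomial.C (a 2) + Polynomial.C (b 2) * Polynomial.X) ^ 6 +
      (Polynomial.C (a 0) + Polynomial.C (b 0) * Polynomial.X) ^ 3 *
        (Polynomial.C (a 1) + Polynomial.C (b 1) * Polynomial.X) ^ 2 *
        (Polynomial.C (a 2) + Polynomial.C (b 2) * Polynomial.X) +
      (Polynomial.C (a 0) + Polynomial.C (b 0) * Polynomial.X) ^ 3 *
        (Polynomial.C (a 1) + Polynomial.C (b 1) * Polynomial.X) *
        (Polynomial.C (a 2) + Polynomial.C (b 2) * Polynomial.X) ^ 2 := by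
  unfold bin F0
  simp

/-- the four vectors of the family -/
def vA {R : Type} [CommRing R] (x : Fin 7 → R) : Fin 3 → R := ![1, 0, x 2]
def vB {R : Type} [CommRing R] (x : Fin 7 → R) : Fin 3 → R := ![0, 1, x 3]
def vA' {R : Type} [CommRing R] (x : Fin 7 → R) : Fin 3 → R := ![x 5, 0, x 0]
def vB' {R : Type} [CommRing R] (x : Fin 7 → R) : Fin 3 → R := ![x 6, x 4, x 1]

lemma vA_map {R S : Type} [CommRing R] [CommRing S] (φ : R →+* S) (x : Fin 7 → R) :
    φ ∘ vA x = vA (φ ∘ x) := by
  funext i; fin_cases i <;> simp [vA]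
lemma vB_map {R S : Type} [CommRing R] [CommRing S] (φ : R →+* S) (x : Fin 7 → R) :
    φ ∘ vB x = vB (φ ∘ x) := by
  funext i; fin_cases i <;> simp [vB]
lemma vA'_map {R S : Type} [CommRing R] [CommRing S] (φ : R →+* S) (x : Fin 7 → R) :
    φ ∘ vA' x = vA' (φ ∘ x) := by
  funext i; fin_cases i <;> simp [vA']
lemma vB'_map {R S : Type} [CommRing R] [CommRing S] (φ : R →+* S) (x : Fin 7 → R) :
    φ ∘ vB' x = vB' (φ ∘ x) := by
  funext i; fin_cases i <;> simp [vB']

/-- the base point -/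
def base {R : Type} [CommRing R] : Fin 7 → R := ![1, 0, 0, 0, 0, 0, 1]

/-- the eigenvalues of the differential -/
noncomputable def lam : Fin 7 → ℂ := ![-6, -6, 1, 1, -1, -6, -6]

/-- the difference of the two restrictions along a tangent vector -/
lemma diff_F0 (j : Fin 7) (x : Fin 7 → DualNumber ℂ)
    (hx : x = fun i => base i + if i = j then DualNumber.eps else 0) :
    bin (F0 (DualNumber ℂ)) (vA x) (vB x) - bin (F0 (DualNumber ℂ)) (vA' x) (vB' x) =
      Polynomial.C (algebraMap ℂ (DualNumber ℂ) (lam j) * DualNumber.eps) *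
        Polynomial.X ^ (j : ℕ) := by
  have he : (Polynomial.C (DualNumber.eps : DualNumber ℂ)) ^ 2 = 0 := by
    rw [← Polynomial.C_pow, pow_two, DualNumber.eps_mul_eps, Polynomial.C_0]
  rw [bin_F0, bin_F0]
  subst hx
  set e : Polynomial (DualNumber ℂ) := Polynomial.C (DualNumber.eps : DualNumber ℂ) with hedef
  have h6 : (Polynomial.C ((algebraMap ℂ (DualNumber ℂ)) 6)) = 6 := by
    rw [map_ofNat, map_ofNat]
  fin_cases j
  all_goals simp [vA, vB, vA', vB', base, lam, ← hedef]
  · rw [h6]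
    linear_combination (-(15 + 20 * e + 15 * e ^ 2 + 6 * e ^ 3 + e ^ 4)) * he
  · rw [h6]
    linear_combination (-(Polynomial.X ^ 2 * (15 + 20 * e * Polynomial.X +
      15 * e ^ 2 * Polynomial.X ^ 2 + 6 * e ^ 3 * Polynomial.X ^ 3 +
      e ^ 4 * Polynomial.X ^ 4))) * he
  · linear_combination (e ^ 4 + Polynomial.X) * he
  · linear_combination (e ^ 4 * Polynomial.X ^ 6 + Polynomial.X ^ 3) * he
  · linear_combination (-(e ^ 4 * Polynomial.X ^ 6 + Polynomial.X ^ 5)) * he
  · rw [h6]
    linear_combination (-(15 * Polynomial.X ^ 4 + 20 * e * Polynomial.X ^ 3 +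
      15 * e ^ 2 * Polynomial.X ^ 2 + 6 * e ^ 3 * Polynomial.X + e ^ 4)) * he
  · rw [h6]
    linear_combination (-((15 + 20 * e + 15 * e ^ 2 + 6 * e ^ 3 + e ^ 4) * Polynomial.X ^ 6)) * he

/-- the ring of polynomials in seven unknowns and in the coefficients of a sextic -/
abbrev RR : Type := MvPolynomial (Fin 7) (MvPolynomial Exp6 ℂ)

/-- the generic sextic -/
noncomputable def genF : MvPolynomial (Fin 3) RR := sext (fun m : Exp6 => C (X m))

/-- the unknowns -/
noncomputable def xs : Fin 7 → RR := fun i => X i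

/-- the system of seven equations in seven unknowns -/
noncomputable def eqs (k : Fin 7) : RR :=
  (bin genF (vA xs) (vB xs) - bin genF (vA' xs) (vB' xs)).coeff (k : ℕ)

/-- the nondegeneracy condition -/
noncomputable def nondeg : RR :=
  Polynomial.resultant (bin genF (vA xs) (vB xs))
    (Polynomial.derivative (bin genF (vA xs) (vB xs))) 6 5 *
    cr (cr (vA xs) (vB xs)) (cr (vA' xs) (vB' xs)) 0

lemma map_genF {T : Type} [CommRing T] (φ : RR →+* T) (c : Exp6 → T)
    (hφ : ∀ m, φ (C (X m)) = c m) : map φ genF = sext c := by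
  unfold genF
  rw [map_sext]
  congr 1
  funext m
  exact hφ m

lemma map_eqs {T : Type} [CommRing T] (φ : RR →+* T) (c : Exp6 → T)
    (hφ : ∀ m, φ (C (X m)) = c m) (x : Fin 7 → T) (hx : ∀ i, φ (X i) = x i) (k : Fin 7) :
    φ (eqs k) = (bin (sext c) (vA x) (vB x) - bin (sext c) (vA' x) (vB' x)).coeff (k : ℕ) := by
  have hx' : φ ∘ xs = x := funext hx
  unfold eqs
  rw [← Polynomial.coeff_map, Polynomial.map_sub, map_bin, map_bin, map_genF φ c hφ,
    vA_map, vB_map, vA'_map, vB'_map, hx']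

lemma map_nondeg {T : Type} [CommRing T] (φ : RR →+* T) (c : Exp6 → T)
    (hφ : ∀ m, φ (C (X m)) = c m) (x : Fin 7 → T) (hx : ∀ i, φ (X i) = x i) :
    φ nondeg = Polynomial.resultant (bin (sext c) (vA x) (vB x))
      (Polynomial.derivative (bin (sext c) (vA x) (vB x))) 6 5 *
      cr (cr (vA x) (vB x)) (cr (vA' x) (vB' x)) 0 := by
  have hx' : φ ∘ xs = x := funext hx
  unfold nondeg
  rw [map_mul, ← Polynomial.resultant_map_map, ← Polynomial.derivative_map, map_bin,
    map_genF φ c hφ, vA_map, vB_map, hx']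
  congr 1
  have e4 := cr_map φ (cr (vA xs) (vB xs)) (cr (vA' xs) (vB' xs))
  rw [cr_map φ (vA xs) (vB xs), cr_map φ (vA' xs) (vB' xs), vA_map, vB_map, vA'_map, vB'_map,
    hx'] at e4
  exact congrFun e4 0

/-- the coefficients of the special sextic -/
noncomputable def c0 : Exp6 → ℂ := fun m => coeff m.1 (F0 ℂ)

lemma sext_c0 : sext c0 = F0 ℂ := sext_coeff _ (isHomogeneous_F0 ℂ)

lemma bin_A0 : bin (F0 ℂ) (vA base) (vB base) = 1 + Polynomial.X ^ 6 := by
  rw [bin_F0]; simp [vA, vB, base]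

lemma bin_A0' : bin (F0 ℂ) (vA' base) (vB' base) = Polynomial.X ^ 6 + 1 := by
  rw [bin_F0]; simp [vA', vB', base]

lemma tr_base : Tr (1 + Polynomial.X ^ 6 : Polynomial ℂ) := by
  constructor
  · simp [Polynomial.coeff_one]
  · refine ⟨1, -(Polynomial.C (1 / 6)) * Polynomial.X, ?_⟩
    have h6 : (Polynomial.C (1 / 6 : ℂ)) * Polynomial.C 6 = 1 := by
      rw [← Polynomial.C_mul]
      norm_num
    have hd : Polynomial.derivative (1 + Polynomial.X ^ 6 : Polynomial ℂ) =
        Polynomial.C 6 * Polynomial.X ^ 5 := by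
      rw [Polynomial.derivative_add, Polynomial.derivative_one, Polynomial.derivative_X_pow]
      norm_num
    rw [hd]
    linear_combination (-Polynomial.X ^ 6) * h6

/-- A general sextic has a pair of lines. -/
theorem existence : General (fun F => ∃ a b a' b' : Fin 3 → ℂ, Pair F a b a' b' ∧
    Tr (bin F a b)) := by
  have hE : ∀ k, ev c0 (base : Fin 7 → ℂ) (eqs k) = 0 := by
    intro k
    rw [map_eqs (ev c0 base) c0 (by intro m; simp [ev]) base (by intro i; simp [ev]), sext_c0,
      bin_A0, bin_A0']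
    simp [add_comm]
  have hN : ev c0 (base : Fin 7 → ℂ) nondeg ≠ 0 := by
    rw [map_nondeg (ev c0 base) c0 (by intro m; simp [ev]) base (by intro i; simp [ev]), sext_c0,
      bin_A0]
    refine mul_ne_zero ?_ ?_
    · rw [← tr_iff]
      · exact tr_base
      · compute_degree
    · simp [cr, vA, vB, vA', vB', base]
  have hJ : ev c0 (base : Fin 7 → ℂ) (jac eqs) ≠ 0 := by
    have : ev c0 (base : Fin 7 → ℂ) (jac eqs) = (Matrix.diagonal lam).det := by
      unfold jac
      rw [RingHom.map_det]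
      congr 1
      ext i j
      simp only [RingHom.mapMatrix_apply, Matrix.map_apply, Matrix.of_apply]
      rw [← dv_snd]
      rw [map_eqs (dv c0 base i) (fun m => algebraMap ℂ (DualNumber ℂ) (c0 m))
        (by intro m; simp [dv]) (fun l => base l + if l = i then DualNumber.eps else 0)
        (by
          intro l
          have hb : algebraMap ℂ (DualNumber ℂ) (base l) = base l := by
            fin_cases l <;> simp [base]
          simp [dv, hb])]
      have hs : sext (fun m => algebraMap ℂ (DualNumber ℂ) (c0 m)) = F0 (DualNumber ℂ) := by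
        rw [← map_sext, sext_c0, map_F0]
      rw [hs, diff_F0 i _ rfl, Polynomial.coeff_C_mul, Polynomial.coeff_X_pow]
      by_cases hij : i = j
      · subst hij
        simp [TrivSqZeroExt.algebraMap_eq_inl]
      · rw [Matrix.diagonal_apply_ne _ hij, if_neg (fun h => hij (Fin.ext h.symm))]
        simp
    rw [this, Matrix.det_diagonal, Fin.prod_univ_seven]
    simp [lam]
  obtain ⟨Δ, hΔ0, hΔ⟩ := general_solution eqs nondeg c0 base hE hN hJ
  refine ⟨Δ, hΔ0, ?_⟩
  intro F hF hFΔ
  obtain ⟨θ, h1, h2⟩ := hΔ _ hFΔ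
  have hs : sext (fun m : Exp6 => coeff m.1 F) = F := sext_coeff F hF
  rw [map_nondeg (ev _ θ) (fun m => coeff m.1 F) (by intro m; simp [ev]) θ
    (by intro i; simp [ev]), hs] at h2
  have hbin : bin F (vA θ) (vB θ) = bin F (vA' θ) (vB' θ) := by
    rw [← sub_eq_zero]
    ext k
    rw [Polynomial.coeff_zero]
    by_cases hk : k < 7
    · have := h1 ⟨k, hk⟩
      rw [map_eqs (ev _ θ) (fun m => coeff m.1 F) (by intro m; simp [ev]) θ
        (by intro i; simp [ev]), hs] at this
      exact this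
    · apply Polynomial.coeff_eq_zero_of_natDegree_lt
      refine lt_of_le_of_lt (Polynomial.natDegree_sub_le _ _) ?_
      have h3 := natDegree_bin_le F hF (vA θ) (vB θ)
      have h4 := natDegree_bin_le F hF (vA' θ) (vB' θ)
      omega
  have h4 : cr (cr (vA θ) (vB θ)) (cr (vA' θ) (vB' θ)) ≠ 0 := by
    intro h0; exact (right_ne_zero_of_mul h2) (by rw [h0]; rfl)
  refine ⟨vA θ, vB θ, vA' θ, vB' θ, ⟨bin_eq_forms F F hF hF _ _ _ _ hbin, cr_ne_zero_left h4,
    cr_ne_zero_right h4, h4⟩, ?_⟩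
  exact (tr_iff _ (natDegree_bin_le F hF _ _)).mpr (left_ne_zero_of_mul h2)

end example_sextic

end Pool.Agent.Lib.MP_75d53c_ag
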