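import Pool.Agent.Lib.MP_75d53c_ag.Planes

/-! The families of triples (sextic, plane, plane) with isomorphic restrictions. -/

set_option autoImplicit false

open MvPolynomial

namespace Pool.Agent.Lib.MP_75d53c_ag

section

variable {R S : Type} [CommRing R] [CommRing S]

/-- the matrix with the given columns -/
def mat (r s r' : Fin 3 → R) : Matrix (Fin 3) (Fin 3) R := fun i j => ![r i, s i, r' i] j

lemma mat_map (φ : R →+* S) (r s r' : Fin 3 → R) :
    (mat r s r').map φ = mat (φ ∘ r) (φ ∘ s) (φ ∘ r') := by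
  ext i j
  fin_cases j <;> simp [mat]

lemma det_mat (r s r' : Fin 3 → R) : (mat r s r').det = dot (cr r s) r' := by
  simp [Matrix.det_fin_three, mat, dot, cr]
  ring

lemma mat_mulVec (r s r' v : Fin 3 → R) :
    (mat r s r').mulVec v = v 0 • r + v 1 • s + v 2 • r' := by
  funext i
  simp [Matrix.mulVec, dotProduct, mat, Fin.sum_univ_three]
  ring

lemma third (i j : Fin 3) (hij : i ≠ j) : ∃ l : Fin 3, l ≠ i ∧ l ≠ j ∧
    ∀ n : Fin 3, n = i ∨ n = j ∨ n = l := by
  revert i j; decide

lemma prod_three {M : Type} [CommMonoid M] (f : Fin 3 → M) (i j l : Fin 3) (hij : i ≠ j)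
    (hl : l ≠ i) (hl' : l ≠ j) : ∏ x : Fin 3, f x = f i * f j * f l := by
  have huniv : (Finset.univ : Finset (Fin 3)) = {i, j, l} := by
    revert i j l; decide
  rw [huniv, Finset.prod_insert, Finset.prod_insert, Finset.prod_singleton, mul_assoc]
  · simp [hl'.symm]
  · simp [hij, hl.symm]

/-- the coefficients of the restriction to a coordinate line -/
lemma coeff_bin_single (c : Exp6 → R) (i j : Fin 3) (hij : i ≠ j) (α : R) (m : Exp6)
    (hm : m.1 i + m.1 j = 6) :
    (bin (sext c) (Pi.single i α) (Pi.single j 1)).coeff (m.1 j) = α ^ (m.1 i) * c m := by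
  classical
  have h2 : bin (sext c) (Pi.single i α) (Pi.single j 1) =
      ∑ m : Exp6, bin (monomial m.1 (c m)) (Pi.single i α) (Pi.single j 1) := by
    unfold bin sext
    rw [eval₂_sum]
  obtain ⟨l, hl, hl', hall⟩ := third i j hij
  have hsum : ∀ m' : Exp6, m'.1 i + m'.1 j + m'.1 l = 6 := by
    intro m'
    have h := m'.2
    rw [Finsupp.degree_eq_sum] at h
    have hp := prod_three (M := Multiplicative ℕ) (fun x => Multiplicative.ofAdd (m'.1 x)) i j l
      hij hl hl'
    rw [← ofAdd_sum, ← ofAdd_add, ← ofAdd_add] at hp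
    have := Multiplicative.ofAdd.injective hp
    omega
  have hbin : ∀ m' : Exp6, bin (monomial m'.1 (c m')) (Pi.single i α) (Pi.single j 1) =
      Polynomial.C (c m') * (Polynomial.C (α ^ m'.1 i) * Polynomial.X ^ m'.1 j *
        0 ^ (m'.1 l)) := by
    intro m'
    rw [bin_monomial, prod_three _ i j l hij hl hl']
    simp [hij, hij.symm, hl, hl']
  rw [h2, Polynomial.finsetSum_coeff, Finset.sum_eq_single m]
  · rw [hbin]
    have hs := hsum m
    have h0 : m.1 l = 0 := by omega
    rw [h0, pow_zero, mul_one, Polynomial.coeff_C_mul, Polynomial.coeff_C_mul]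
    simp
    ring
  · intro m' _ hne
    have hs := hsum m
    have hs' := hsum m'
    rw [hbin]
    by_cases h0 : m'.1 l = 0
    · have hj : m'.1 j ≠ m.1 j := by
        intro hj
        apply hne
        apply Subtype.ext
        ext n
        rcases hall n with rfl | rfl | rfl
        · omega
        · exact hj
        · omega
      rw [h0, pow_zero, mul_one, Polynomial.coeff_C_mul, Polynomial.coeff_C_mul,
        Polynomial.coeff_X_pow, if_neg (Ne.symm hj)]
      simp
    · rw [zero_pow h0, mul_zero, mul_zero, Polynomial.coeff_zero]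
  · intro h; exact absurd (Finset.mem_univ m) h

end

/-- an exponent with given entries -/
noncomputable def ex (x y z : ℕ) (h : x + y + z = 6) : Exp6 :=
  ⟨Finsupp.equivFunOnFinite.symm ![x, y, z], by rw [deg_eq]; simpa using h⟩

@[simp] lemma ex_zero (x y z : ℕ) (h : x + y + z = 6) : (ex x y z h).1 0 = x := by simp [ex]
@[simp] lemma ex_one (x y z : ℕ) (h : x + y + z = 6) : (ex x y z h).1 1 = y := by simp [ex]
@[simp] lemma ex_two (x y z : ℕ) (h : x + y + z = 6) : (ex x y z h).1 2 = z := by simp [ex]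

lemma exp_ext {m m' : Exp6} (h1 : m.1 1 = m'.1 1) (h2 : m.1 2 = m'.1 2) : m = m' := by
  apply Subtype.ext
  have := exp_sum m
  have := exp_sum m'
  ext i
  fin_cases i <;> simp <;> omega

/-- exchange of the last two exponents -/
noncomputable def sw (m : Exp6) : Exp6 :=
  ex (m.1 0) (m.1 2) (m.1 1) (by have := exp_sum m; omega)

/-- cyclic rotation of exponents -/
noncomputable def rot (m : Exp6) : Exp6 :=
  ex (m.1 2) (m.1 0) (m.1 1) (by have := exp_sum m; omega)

/-- A sextic is recovered from its expression in another basis. -/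
lemma recover (F : MvPolynomial (Fin 3) ℂ) (hF : F.IsHomogeneous 6)
    (M : Matrix (Fin 3) (Fin 3) ℂ) (hM : M.det ≠ 0) :
    F = subst (sext (fun m : Exp6 => (M.det ^ 6)⁻¹ * coeff m.1 (subst F M))) M.adjugate := by
  apply MvPolynomial.funext
  intro v
  rw [eval_subst]
  have h1 : eval (M.adjugate.mulVec v) (sext (fun m : Exp6 => (M.det ^ 6)⁻¹ * coeff m.1 (subst F M)))
      = (M.det ^ 6)⁻¹ * eval (M.adjugate.mulVec v) (subst F M) := by
    conv_rhs => rw [← sext_coeff (subst F M) (isHomogeneous_subst F hF M)]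
    rw [eval_sext, eval_sext, Finset.mul_sum]
    apply Finset.sum_congr rfl
    intro m _
    ring
  rw [h1, eval_subst, Matrix.mulVec_mulVec, Matrix.mul_adjugate, Matrix.smul_mulVec,
    Matrix.one_mulVec, eval_smul_six F hF, ← mul_assoc, inv_mul_cancel₀ (pow_ne_zero 6 hM), one_mul]

/-- First type: the isomorphism moves the common line. -/
def N1 (F : MvPolynomial (Fin 3) ℂ) (r s r' : Fin 3 → ℂ) : Prop :=
  ∀ X Y : ℂ, eval (X • r + Y • s) F = eval (Y • r + X • r') F

/-- Second type: the isomorphism multiplies the common line by a number that is not a sixth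
root of unity. -/
def N2 (i : Fin 3) (F : MvPolynomial (Fin 3) ℂ) (r s r' : Fin 3 → ℂ) : Prop :=
  s i = 0 ∧ ∃ α : ℂ, α ^ 6 ≠ 1 ∧
    ∀ X Y : ℂ, eval (X • r + Y • s) F = eval ((α * X) • r + Y • r') F

/-- Third type: the isomorphism is the identity on the common line. -/
def N3 (i : Fin 3) (F : MvPolynomial (Fin 3) ℂ) (r s r' : Fin 3 → ℂ) : Prop :=
  s i = 0 ∧ ∀ X Y : ℂ, eval (X • r + Y • s) F = eval (X • r + Y • r') F

/-- A type of normal forms that is parametrised by at most thirty numbers. -/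
def Small (N : MvPolynomial (Fin 3) ℂ → (Fin 3 → ℂ) → (Fin 3 → ℂ) → (Fin 3 → ℂ) → Prop) : Prop :=
  ∃ (σ : Type) (_ : Fintype σ) (e : Fin 3 → Fin 3 → MvPolynomial σ ℂ)
    (c : Exp6 → MvPolynomial σ ℂ), Fintype.card σ ≤ 30 ∧
    ∀ F : MvPolynomial (Fin 3) ℂ, F.IsHomogeneous 6 → ∀ r s r' : Fin 3 → ℂ,
      dot (cr r s) r' ≠ 0 → N F r s r' →
      ∃ t : σ → ℂ, (∀ i, eval t (e i 0) = r i) ∧ (∀ i, eval t (e i 1) = s i) ∧
        (∀ i, eval t (e i 2) = r' i) ∧
        F = subst (sext (fun m => eval t (c m))) (mat r s r').adjugate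

lemma single_eq (i j : Fin 3) (α t : ℂ) (hij : i ≠ j)
    (r s r' : Fin 3 → ℂ) :
    (mat r s r').mulVec (Pi.single i α + t • Pi.single j 1) =
      α • (![r, s, r'] i) + t • (![r, s, r'] j) := by
  rw [mat_mulVec]
  fin_cases i <;> fin_cases j <;> simp at hij ⊢
  · rw [add_comm]
  · rw [add_comm]
  · rw [add_comm]

lemma coeff_N1 (F : MvPolynomial (Fin 3) ℂ) (hF : F.IsHomogeneous 6) (r s r' : Fin 3 → ℂ)
    (hN : N1 F r s r') (m : Exp6) (hm : m.1 1 = 0) :
    coeff (rot m).1 (subst F (mat r s r')) = coeff m.1 (subst F (mat r s r')) := by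
  have hs := exp_sum m
  set G := subst F (mat r s r') with hG
  have hGh : G.IsHomogeneous 6 := isHomogeneous_subst F hF _
  have hb : bin G (Pi.single 1 1) (Pi.single 0 1) = bin G (Pi.single 0 1) (Pi.single 2 1) := by
    apply bin_eq_of_forms
    intro t
    rw [hG, eval_subst, eval_subst, single_eq _ _ _ _ (by decide),
      single_eq _ _ _ _ (by decide)]
    have := hN t 1
    simp only [Matrix.cons_val_zero, Matrix.cons_val_one, Matrix.cons_val]
    rw [add_comm, this]
  have h1 := coeff_bin_single (fun m : Exp6 => coeff m.1 G) 1 0 (by decide) 1 (rot m)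
    (by simp [rot]; omega)
  have h2 := coeff_bin_single (fun m : Exp6 => coeff m.1 G) 0 2 (by decide) 1 m
    (by omega)
  rw [sext_coeff G hGh] at h1 h2
  rw [hb] at h1
  have h3 : (rot m).1 0 = m.1 2 := by simp [rot]
  rw [h3, h2] at h1
  simp only [one_pow, one_mul] at h1
  exact h1.symm

lemma coeff_N23 (F : MvPolynomial (Fin 3) ℂ) (hF : F.IsHomogeneous 6) (r s r' : Fin 3 → ℂ)
    (α : ℂ) (hN : ∀ X Y : ℂ, eval (X • r + Y • s) F = eval ((α * X) • r + Y • r') F)
    (m : Exp6) (hm : m.1 2 = 0) :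
    coeff m.1 (subst F (mat r s r')) = α ^ (m.1 0) * coeff (sw m).1 (subst F (mat r s r')) := by
  have hs := exp_sum m
  set G := subst F (mat r s r') with hG
  have hGh : G.IsHomogeneous 6 := isHomogeneous_subst F hF _
  have hb : bin G (Pi.single 0 1) (Pi.single 1 1) = bin G (Pi.single 0 α) (Pi.single 2 1) := by
    apply bin_eq_of_forms
    intro t
    rw [hG, eval_subst, eval_subst, single_eq _ _ _ _ (by decide),
      single_eq _ _ _ _ (by decide)]
    have := hN 1 t
    simp only [Matrix.cons_val_zero, Matrix.cons_val_one, Matrix.cons_val]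
    rw [this, mul_one]
  have h1 := coeff_bin_single (fun m : Exp6 => coeff m.1 G) 0 1 (by decide) 1 m
    (by omega)
  have h2 := coeff_bin_single (fun m : Exp6 => coeff m.1 G) 0 2 (by decide) α (sw m)
    (by simp [sw]; omega)
  rw [sext_coeff G hGh] at h1 h2
  rw [hb] at h1
  have h3 : (sw m).1 2 = m.1 1 := by simp [sw]
  have h4 : (sw m).1 0 = m.1 0 := by simp [sw]
  rw [h3, h1, h4] at h2
  simp only [one_pow, one_mul] at h2
  exact h2

end Pool.Agent.Lib.MP_75d53c_ag
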