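import Pool.Agent.Lib.MP_75d53c_ag.Relations

/-! For a general sextic, a given binary sextic is the restriction to finitely many planes,
in finitely many ways. -/

set_option autoImplicit false

open MvPolynomial

namespace Pool.Agent.Lib.MP_75d53c_ag

lemma roots_finite {u : Polynomial ℂ} (h : u ≠ 0) : {t : ℂ | u.eval t = 0}.Finite := by
  have := (u.roots.toFinset).finite_toSet
  refine this.subset ?_
  intro t ht
  simp only [Set.mem_ofPred_eq] at ht
  simp [h, Polynomial.IsRoot, ht]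

lemma three_roots {u : Polynomial ℂ} (h6 : u.natDegree = 6) (hu : u.Separable) :
    ∃ t : Fin 3 → ℂ, Function.Injective t ∧ ∀ i, u.eval (t i) = 0 := by
  have hcard : Multiset.card u.roots = 6 := by
    rw [← h6]; exact (IsAlgClosed.splits u).natDegree_eq_card_roots.symm
  have hnd : u.roots.Nodup := Polynomial.nodup_roots hu
  have hc2 : u.roots.toFinset.card = 6 := by
    rw [Multiset.toFinset_card_of_nodup hnd, hcard]
  obtain ⟨T, hT, hTc⟩ := Finset.exists_subset_card_eq (s := u.roots.toFinset) (n := 3) (by omega)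
  let e := (Finset.equivFinOfCardEq hTc).symm
  refine ⟨fun i => (e i).1, ?_, ?_⟩
  · intro i j hij
    exact e.injective (Subtype.ext hij)
  · intro i
    have h1 := hT (e i).2
    rw [Multiset.mem_toFinset] at h1
    exact (Polynomial.mem_roots'.mp h1).2

/-- the stabiliser of a binary sextic with three distinct zeros is finite -/
lemma stab_finite (f : ℂ → ℂ → ℂ) (hf : ∀ c x y : ℂ, f (c * x) (c * y) = c ^ 6 * f x y)
    (h0 : f 0 1 ≠ 0) (hr : {t : ℂ | f 1 t = 0}.Finite) (τ : Fin 3 → ℂ)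
    (hinj : Function.Injective τ) (hτ : ∀ i, f 1 (τ i) = 0) :
    {g : Fin 4 → ℂ | g 0 * g 3 - g 1 * g 2 ≠ 0 ∧
      ∀ s t : ℂ, f (s * g 0 + t * g 2) (s * g 1 + t * g 3) = f s t}.Finite := by
  have hne : ∀ g : Fin 4 → ℂ, g 0 * g 3 - g 1 * g 2 ≠ 0 →
      (∀ s t : ℂ, f (s * g 0 + t * g 2) (s * g 1 + t * g 3) = f s t) →
      ∀ i, g 0 + τ i * g 2 ≠ 0 ∧ f 1 ((g 1 + τ i * g 3) / (g 0 + τ i * g 2)) = 0 := by
    intro g hg hst i
    have h1 : f (g 0 + τ i * g 2) (g 1 + τ i * g 3) = 0 := by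
      have := hst 1 (τ i)
      rw [one_mul, one_mul] at this
      rw [this, hτ]
    have h2 : g 0 + τ i * g 2 ≠ 0 := by
      intro h3
      have h4 : f 0 (g 1 + τ i * g 3) = (g 1 + τ i * g 3) ^ 6 * f 0 1 := by
        have := hf (g 1 + τ i * g 3) 0 1
        rwa [mul_zero, mul_one] at this
      rw [h3, h4] at h1
      rcases mul_eq_zero.mp h1 with h5 | h5
      · have h6 : g 1 + τ i * g 3 = 0 := by simpa using h5
        apply hg
        linear_combination g 3 * h3 - g 2 * h6
      · exact h0 h5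
    refine ⟨h2, ?_⟩
    have h3 := hf (g 0 + τ i * g 2) 1 ((g 1 + τ i * g 3) / (g 0 + τ i * g 2))
    rw [mul_one, mul_div_cancel₀ _ h2, h1] at h3
    rcases mul_eq_zero.mp h3.symm with h5 | h5
    · exact absurd (by simpa using h5) h2
    · exact h5
  refine Set.Finite.of_finite_fibers
    (fun g : Fin 4 → ℂ => fun i : Fin 3 => (g 1 + τ i * g 3) / (g 0 + τ i * g 2)) ?_ ?_
  · refine (Set.Finite.pi' (fun _ : Fin 3 => hr)).subset ?_
    rintro w ⟨g, ⟨hg, hst⟩, rfl⟩ i
    exact (hne g hg hst i).2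
  · rintro w ⟨g, ⟨hg, hst⟩, hw⟩
    have hroots : {l : ℂ | l ^ 6 = 1}.Finite := by
      have := roots_finite (u := Polynomial.X ^ 6 - 1) (Polynomial.X_pow_sub_C_ne_zero (by norm_num) 1)
      refine this.subset ?_
      intro l hl
      simp only [Set.mem_ofPred_eq] at hl ⊢
      simp [hl]
    refine (hroots.image (fun l : ℂ => l • g)).subset ?_
    rintro g' ⟨⟨hg', hst'⟩, hw'⟩
    simp only [Set.mem_preimage, Set.mem_singleton_iff] at hw'
    have hcross : ∀ i, (g 1 + τ i * g 3) * (g' 0 + τ i * g' 2) =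
        (g' 1 + τ i * g' 3) * (g 0 + τ i * g 2) := by
      intro i
      have h1 := congrFun (hw.trans hw'.symm) i
      simp only at h1
      rw [div_eq_div_iff (hne g hg hst i).1 (hne g' hg' hst' i).1] at h1
      exact h1
    -- three roots of a quadratic polynomial
    have hA : g 1 * g' 0 = g' 1 * g 0 ∧ g 3 * g' 2 = g' 3 * g 2 ∧
        g 1 * g' 2 + g 3 * g' 0 = g' 1 * g 2 + g' 3 * g 0 := by
      have e0 := hcross 0
      have e1 := hcross 1
      have e2 := hcross 2
      have d01 : τ 0 - τ 1 ≠ 0 := sub_ne_zero.mpr (fun h => by simpa using hinj h)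
      have d02 : τ 0 - τ 2 ≠ 0 := sub_ne_zero.mpr (fun h => by simpa using hinj h)
      have d12 : τ 1 - τ 2 ≠ 0 := sub_ne_zero.mpr (fun h => by simpa using hinj h)
      set A := g 3 * g' 2 - g' 3 * g 2 with hAdef
      set B := g 1 * g' 2 + g 3 * g' 0 - (g' 1 * g 2 + g' 3 * g 0) with hBdef
      set C := g 1 * g' 0 - g' 1 * g 0 with hCdef
      have f0 : A * τ 0 ^ 2 + B * τ 0 + C = 0 := by
        rw [hAdef, hBdef, hCdef]; linear_combination e0
      have f1 : A * τ 1 ^ 2 + B * τ 1 + C = 0 := by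
        rw [hAdef, hBdef, hCdef]; linear_combination e1
      have f2 : A * τ 2 ^ 2 + B * τ 2 + C = 0 := by
        rw [hAdef, hBdef, hCdef]; linear_combination e2
      have g1 : A * (τ 0 + τ 1) + B = 0 := by
        have : (τ 0 - τ 1) * (A * (τ 0 + τ 1) + B) = 0 := by linear_combination f0 - f1
        exact (mul_eq_zero.mp this).resolve_left d01
      have g2 : A * (τ 0 + τ 2) + B = 0 := by
        have : (τ 0 - τ 2) * (A * (τ 0 + τ 2) + B) = 0 := by linear_combination f0 - f2
        exact (mul_eq_zero.mp this).resolve_left d02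
      have hA0 : A = 0 := by
        have : (τ 1 - τ 2) * A = 0 := by linear_combination g1 - g2
        exact (mul_eq_zero.mp this).resolve_left d12
      have hB0 : B = 0 := by rw [hA0] at g1; linear_combination g1
      have hC0 : C = 0 := by rw [hA0, hB0] at f0; linear_combination f0
      refine ⟨?_, ?_, ?_⟩
      · exact sub_eq_zero.mp hC0
      · exact sub_eq_zero.mp hA0
      · exact sub_eq_zero.mp hB0
    obtain ⟨hC, hA, hB⟩ := hA
    set D := g 0 * g 3 - g 1 * g 2 with hD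
    have hg'eq : g' = ((g' 0 * g 3 - g' 1 * g 2) / D) • g := by
      funext k
      simp only [Pi.smul_apply, smul_eq_mul]
      rw [div_mul_eq_mul_div, eq_div_iff hg, hD]
      fin_cases k
      · simp only [Fin.zero_eta]
        linear_combination -(g 2) * hC
      · simp only [Fin.mk_one]
        linear_combination (-g 3) * hC
      · simp only [Fin.reduceFinMk]
        linear_combination -(g 2) * hB + (g 0) * hA
      · simp only [Fin.reduceFinMk]
        linear_combination -(g 3) * hB + (g 1) * hA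
    refine ⟨(g' 0 * g 3 - g' 1 * g 2) / D, ?_, hg'eq.symm⟩
    set l := (g' 0 * g 3 - g' 1 * g 2) / D with hl
    have h1 := hst' 0 1
    rw [hg'eq] at h1
    simp only [zero_mul, zero_add, one_mul, Pi.smul_apply, smul_eq_mul] at h1
    rw [hf] at h1
    have h2 := hst 0 1
    simp only [zero_mul, zero_add, one_mul] at h2
    rw [h2] at h1
    simp only [Set.mem_ofPred_eq]
    exact mul_right_cancel₀ h0 (by rw [h1, one_mul])

/-- a nonzero polynomial cannot vanish on a cone over infinitely many points squared -/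
lemma ratio_bound (H : MvPolynomial (Fin 4) ℂ) (hH : H ≠ 0) (R : Set ℂ)
    (h : ∀ ρ ∈ R, ∀ ρ' ∈ R, ρ ≠ ρ' → ∀ x y : ℂ, x ≠ 0 → eval ![ρ * x, x, ρ' * y, y] H = 0) :
    R.Finite := by
  by_contra hinf
  have hinf : R.Infinite := hinf
  apply hH
  have hc : ({0}ᶜ : Set ℂ).Infinite := (Set.finite_singleton (0 : ℂ)).infinite_compl
  -- substitute
  set K : MvPolynomial (Fin 4) ℂ := aeval (R := ℂ)
    ![X 0 * X 1, X 1, X 2 * X 3, (X 3 : MvPolynomial (Fin 4) ℂ)] H with hK
  have hKeval : ∀ v : Fin 4 → ℂ, eval v K = eval ![v 0 * v 1, v 1, v 2 * v 3, v 3] H := by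
    intro v
    rw [hK, aeval_def, ← coe_eval₂Hom, ← RingHom.comp_apply]
    congr 1
    apply ringHom_ext
    · intro r; simp
    · intro i; fin_cases i <;> simp
  have hK0 : K * (X 0 - X 2) = 0 := by
    apply funext_set ![R, {0}ᶜ, R, {0}ᶜ]
    · intro i; fin_cases i <;> simpa
    · intro v hv
      have h0 : v 0 ∈ R := hv 0 (Set.mem_univ _)
      have h1 : v 1 ≠ 0 := hv 1 (Set.mem_univ _)
      have h2 : v 2 ∈ R := hv 2 (Set.mem_univ _)
      rw [map_mul, hKeval, map_sub, eval_X, eval_X, map_zero]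
      by_cases h02 : v 0 = v 2
      · rw [h02, sub_self, mul_zero]
      · rw [h _ h0 _ h2 h02 _ _ h1, zero_mul]
  have hX : (X 0 - X 2 : MvPolynomial (Fin 4) ℂ) ≠ 0 := by
    rw [sub_ne_zero]
    intro h
    exact absurd (X_injective h) (by decide)
  have hK00 : K = 0 := (mul_eq_zero.mp hK0).resolve_right hX
  apply funext_set ![Set.univ, {0}ᶜ, Set.univ, {0}ᶜ]
  · intro i; fin_cases i <;> simp [hc, Set.infinite_univ]
  · intro v hv
    have h1 : v 1 ≠ 0 := hv 1 (Set.mem_univ _)
    have h3 : v 3 ≠ 0 := hv 3 (Set.mem_univ _)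
    have := hKeval ![v 0 / v 1, v 1, v 2 / v 3, v 3]
    rw [hK00, map_zero] at this
    rw [map_zero, this]
    congr 1
    congr 1
    funext i
    fin_cases i <;> simp [h1, h3]

/-- the relations of `rel2` for one sextic -/
def Rel2 (F : MvPolynomial (Fin 3) ℂ) : Prop :=
  ∀ i j : Fin 3, ∃ H : MvPolynomial (Fin 4) ℂ, H ≠ 0 ∧
    ∀ a b a' b' : Fin 3 → ℂ, Pair F a b a' b' → ∀ c c' : ℂ, c ≠ 0 →
      eval ![c * cr a b i, c * cr a b j, c' * cr a' b' i, c' * cr a' b' j] H = 0

lemma general_Rel2 : General Rel2 :=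
  General.forall_finite _ (fun i => General.forall_finite _ (fun j => rel2 i j))

lemma ratio_finite (F : MvPolynomial (Fin 3) ℂ) (hF : F.IsHomogeneous 6) (hrel : Rel2 F)
    (u : Polynomial ℂ) (i j : Fin 3) :
    {ρ : ℂ | ∃ a b : Fin 3 → ℂ, bin F a b = u ∧ cr a b j ≠ 0 ∧
      cr a b i = ρ * cr a b j}.Finite := by
  obtain ⟨H, hH0, hH⟩ := hrel i j
  apply ratio_bound H hH0
  rintro ρ ⟨a, b, hu, hj, hi⟩ ρ' ⟨a', b', hu', hj', hi'⟩ hne x y hx
  have hp : Pair F a b a' b' := by
    refine ⟨?_, ?_, ?_, ?_⟩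
    · exact bin_eq_forms F F hF hF a b a' b' (by rw [hu, hu'])
    · intro h0; exact hj (by rw [h0]; rfl)
    · intro h0; exact hj' (by rw [h0]; rfl)
    · intro h0
      obtain ⟨c, hc⟩ := par_of_cr_eq_zero _ _ (by intro h0; exact hj (by rw [h0]; rfl)) h0
      have e1 := congrFun hc i
      have e2 := congrFun hc j
      simp only [Pi.smul_apply, smul_eq_mul] at e1 e2
      rw [hi, hi', e2] at e1
      have hc0 : c ≠ 0 := by
        rintro rfl
        rw [zero_mul] at e2
        exact hj' e2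
      apply hne
      have : c * cr a b j * (ρ' - ρ) = 0 := by linear_combination e1
      rcases mul_eq_zero.mp this with h1 | h1
      · exact absurd h1 (mul_ne_zero hc0 hj)
      · exact (sub_eq_zero.mp h1).symm
  have key := hH a b a' b' hp (x / cr a b j) (y / cr a' b' j) (div_ne_zero hx hj)
  have e : ![x / cr a b j * cr a b i, x / cr a b j * cr a b j, y / cr a' b' j * cr a' b' i,
      y / cr a' b' j * cr a' b' j] = ![ρ * x, x, ρ' * y, y] := by
    rw [hi, hi']
    funext k
    fin_cases k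
    · simp; field_simp
    · simp; field_simp
    · simp; field_simp
    · simp; field_simp
  rw [e] at key
  exact key

/-- finitely many bases of a fixed plane give the same binary sextic -/
lemma plane_finite (F : MvPolynomial (Fin 3) ℂ) (hF : F.IsHomogeneous 6)
    (u : Polynomial ℂ) (hu6 : u.coeff 6 ≠ 0) (hu : u.Separable) (w : Fin 3 → ℂ) :
    {p : (Fin 3 → ℂ) × (Fin 3 → ℂ) | bin F p.1 p.2 = u ∧ ∃ c : ℂ, c ≠ 0 ∧
      cr p.1 p.2 = c • w ∧ w ≠ 0}.Finite := by
  set E := {p : (Fin 3 → ℂ) × (Fin 3 → ℂ) | bin F p.1 p.2 = u ∧ ∃ c : ℂ, c ≠ 0 ∧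
      cr p.1 p.2 = c • w ∧ w ≠ 0} with hE
  rcases Set.eq_empty_or_nonempty E with h | ⟨⟨p, q⟩, hpq⟩
  · rw [h]; exact Set.finite_empty
  · obtain ⟨hpu, c, hc, hcr, hw⟩ := hpq
    simp only at hpu hcr
    have hcr0 : cr p q ≠ 0 := by
      rw [hcr]; exact smul_ne_zero hc hw
    have hdeg : u.natDegree = 6 := by
      apply le_antisymm
      · rw [← hpu]; exact natDegree_bin_le F hF p q
      · exact Polynomial.le_natDegree_of_ne_zero hu6
    have hu0 : u ≠ 0 := by
      rintro rfl; simp at hu6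
    obtain ⟨τ, hinj, hτ⟩ := three_roots hdeg hu
    set f : ℂ → ℂ → ℂ := fun x y => eval (x • p + y • q) F with hf
    have hf1 : ∀ t, f 1 t = u.eval t := by
      intro t
      rw [hf, ← hpu, eval_bin]
      simp only [one_smul]
    have hst := stab_finite f ?_ ?_ ?_ τ hinj ?_
    · refine (hst.image (fun g : Fin 4 → ℂ =>
        ((g 0 • p + g 1 • q, g 2 • p + g 3 • q) : (Fin 3 → ℂ) × (Fin 3 → ℂ)))).subset ?_
      rintro ⟨a', b'⟩ ⟨hbu, c', hc', hcr', -⟩
      simp only at hbu hcr'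
      have hcr0' : cr a' b' ≠ 0 := by
        rw [hcr']; exact smul_ne_zero hc' hw
      have hpar : cr p q = (c / c') • cr a' b' := by
        rw [hcr, hcr', smul_smul, div_mul_cancel₀ _ hc']
      have h1 : dot (cr p q) a' = 0 := by rw [hpar, dot_smul_left, dot_cr_left, mul_zero]
      have h2 : dot (cr p q) b' = 0 := by rw [hpar, dot_smul_left, dot_cr_right, mul_zero]
      obtain ⟨x, y, hxy⟩ := exists_coords p q a' hcr0 h1
      obtain ⟨z, v, hzv⟩ := exists_coords p q b' hcr0 h2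
      refine ⟨![x, y, z, v], ⟨?_, ?_⟩, ?_⟩
      · simp only [Matrix.cons_val_zero, Matrix.cons_val_one, Matrix.cons_val]
        intro h0
        apply hcr0'
        rw [hxy, hzv, cr_lin, h0, zero_smul]
      · intro s t
        simp only [Matrix.cons_val_zero, Matrix.cons_val_one, Matrix.cons_val, hf]
        have e1 : (s * x + t * z) • p + (s * y + t * v) • q = s • a' + t • b' := by
          rw [hxy, hzv]; module
        rw [e1]
        exact (bin_eq_forms F F hF hF a' b' p q (by rw [hpu, hbu]) s t)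
      · simp [hxy, hzv]
    · intro c x y
      simp only [hf]
      have e1 : (c * x) • p + (c * y) • q = c • (x • p + y • q) := by module
      rw [e1, eval_smul_six F hF]
    · simp only [hf, zero_smul, zero_add, one_smul]
      rw [← coeff_six_bin F hF p q, hpu]
      exact hu6
    · simp only [hf1]
      exact roots_finite hu0
    · intro i
      rw [hf1, hτ]

/-- for a general sextic, a binary sextic occurs finitely often -/
theorem class_finite (F : MvPolynomial (Fin 3) ℂ) (hF : F.IsHomogeneous 6) (hrel : Rel2 F)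
    (u : Polynomial ℂ) (hu6 : u.coeff 6 ≠ 0) (hu : u.Separable) :
    {p : (Fin 3 → ℂ) × (Fin 3 → ℂ) | bin F p.1 p.2 = u ∧ cr p.1 p.2 ≠ 0}.Finite := by
  have hW : ∀ k : Fin 3, {w : Fin 3 → ℂ | ∀ i, w i ∈ {ρ : ℂ | ∃ a b : Fin 3 → ℂ,
      bin F a b = u ∧ cr a b k ≠ 0 ∧ cr a b i = ρ * cr a b k}}.Finite := by
    intro k
    exact Set.Finite.pi' (fun i => ratio_finite F hF hrel u i k)
  have hall : (⋃ k : Fin 3, ⋃ w ∈ {w : Fin 3 → ℂ | ∀ i, w i ∈ {ρ : ℂ | ∃ a b : Fin 3 → ℂ,
      bin F a b = u ∧ cr a b k ≠ 0 ∧ cr a b i = ρ * cr a b k}},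
        {p : (Fin 3 → ℂ) × (Fin 3 → ℂ) | bin F p.1 p.2 = u ∧ ∃ c : ℂ, c ≠ 0 ∧
      cr p.1 p.2 = c • w ∧ w ≠ 0}).Finite := by
    apply Set.finite_iUnion
    intro k
    exact (hW k).biUnion (fun w _ => plane_finite F hF u hu6 hu w)
  refine hall.subset ?_
  rintro ⟨a, b⟩ ⟨hbu, hcr⟩
  simp only at hbu hcr
  obtain ⟨k, hk⟩ := Function.ne_iff.mp hcr
  simp only [Pi.zero_apply] at hk
  simp only [Set.mem_iUnion]
  refine ⟨k, (cr a b k)⁻¹ • cr a b, ?_, hbu, cr a b k, hk, ?_, ?_⟩
  · intro i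
    refine ⟨a, b, hbu, hk, ?_⟩
    simp only [Pi.smul_apply, smul_eq_mul]
    field_simp
  · rw [smul_smul, mul_inv_cancel₀ hk, one_smul]
  · exact smul_ne_zero (inv_ne_zero hk) hcr

end Pool.Agent.Lib.MP_75d53c_ag
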