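import Pool.Agent.Lib.MP_75d53c_ag.FiniteClass
import Pool.Agent.Lib.MP_75d53c_ag.Krull

/-! A line in a pair can be moved inside the set of such lines. -/

set_option autoImplicit false

open MvPolynomial

namespace Pool.Agent.Lib.MP_75d53c_ag

/-- the restricted sextic has six distinct zeros, none of them at infinity -/
def Tr (u : Polynomial ℂ) : Prop := u.coeff 6 ≠ 0 ∧ u.Separable

lemma tr_iff (u : Polynomial ℂ) (hu : u.natDegree ≤ 6) :
    Tr u ↔ Polynomial.resultant u (Polynomial.derivative u) 6 5 ≠ 0 := by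
  constructor
  · rintro ⟨h6, hs⟩
    have hd : u.natDegree = 6 := le_antisymm hu (Polynomial.le_natDegree_of_ne_zero h6)
    have hd' : (Polynomial.derivative u).natDegree = 5 := by
      rw [Polynomial.natDegree_derivative, hd]
    have := Polynomial.resultant_ne_zero u (Polynomial.derivative u) hs
    rwa [hd, hd'] at this
  · intro h
    have hd' : (Polynomial.derivative u).natDegree ≤ 5 :=
      (Polynomial.natDegree_derivative_le u).trans (by omega)
    constructor
    · intro h6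
      apply h
      apply Polynomial.resultant_eq_zero_of_lt_lt
      · have hle : u.natDegree ≤ 5 := by
          rw [Polynomial.natDegree_le_iff_coeff_eq_zero]
          intro N hN
          rcases (show N = 6 ∨ 6 < N by omega) with rfl | hN
          · exact h6
          · exact Polynomial.coeff_eq_zero_of_natDegree_lt (by omega)
        omega
      · have hle : u.natDegree ≤ 5 := by
          rw [Polynomial.natDegree_le_iff_coeff_eq_zero]
          intro N hN
          rcases (show N = 6 ∨ 6 < N by omega) with rfl | hN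
          · exact h6
          · exact Polynomial.coeff_eq_zero_of_natDegree_lt (by omega)
        have := Polynomial.natDegree_derivative_le u
        omega
    · obtain ⟨p, q, -, -, he⟩ := Polynomial.exists_mul_add_mul_eq_C_resultant u
        (Polynomial.derivative u) hu hd' (by norm_num)
      set r := Polynomial.resultant u (Polynomial.derivative u) 6 5 with hr
      refine ⟨Polynomial.C r⁻¹ * p, Polynomial.C r⁻¹ * q, ?_⟩
      calc Polynomial.C r⁻¹ * p * u + Polynomial.C r⁻¹ * q * Polynomial.derivative u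
          = Polynomial.C r⁻¹ * (u * p + Polynomial.derivative u * q) := by ring
        _ = 1 := by rw [he, ← Polynomial.C_mul, inv_mul_cancel₀ h, Polynomial.C_1]

lemma map_eval_map_C {σ : Type} (z : σ → ℂ) (F : MvPolynomial (Fin 3) ℂ) :
    map (eval z) (map (C : ℂ →+* MvPolynomial σ ℂ) F) = F := by
  rw [map_map]
  have : (eval z).comp (C : ℂ →+* MvPolynomial σ ℂ) = RingHom.id ℂ := by
    ext x; simp
  rw [this, map_id]

/-- A line in a pair is not isolated among such lines. -/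
theorem nonisolated (F : MvPolynomial (Fin 3) ℂ) (hF : F.IsHomogeneous 6) (hrel : Rel2 F)
    (a0 b0 a0' b0' : Fin 3 → ℂ) (hp : Pair F a0 b0 a0' b0') (htr : Tr (bin F a0 b0))
    (h : MvPolynomial (Fin 3) ℂ) (hh : eval (cr a0 b0) h ≠ 0) :
    ∃ a b a' b' : Fin 3 → ℂ, Pair F a b a' b' ∧ Tr (bin F a b) ∧ eval (cr a b) h ≠ 0 ∧
      cr (cr a b) (cr a0 b0) ≠ 0 := by
  classical
  by_contra hcon
  push Not at hcon
  obtain ⟨hp1, hp2, hp3, hp4⟩ := hp
  obtain ⟨c0, hc0⟩ : ∃ c0 : Fin 3 → ℂ, dot (cr a0 b0) c0 ≠ 0 := by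
    obtain ⟨k, hk⟩ := Function.ne_iff.mp hp2
    refine ⟨Pi.single k 1, ?_⟩
    fin_cases k <;> simpa [dot] using hk
  obtain ⟨k0, hk0⟩ := Function.ne_iff.mp hp4
  simp only [Pi.zero_apply] at hk0
  obtain ⟨A, hA⟩ : ∃ A : Fin 3 → MvPolynomial (Fin 8) ℂ, ∀ i, A i = C (a0 i) + X 0 * C (c0 i) :=
    ⟨_, fun _ => rfl⟩
  obtain ⟨B, hB⟩ : ∃ B : Fin 3 → MvPolynomial (Fin 8) ℂ, ∀ i, B i = C (b0 i) + X 1 * C (c0 i) :=
    ⟨_, fun _ => rfl⟩
  obtain ⟨A', hA'⟩ : ∃ A' : Fin 3 → MvPolynomial (Fin 8) ℂ, A' = ![X 2, X 3, X 4] := ⟨_, rfl⟩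
  obtain ⟨B', hB'⟩ : ∃ B' : Fin 3 → MvPolynomial (Fin 8) ℂ, B' = ![X 5, X 6, X 7] := ⟨_, rfl⟩
  have eA : ∀ z : Fin 8 → ℂ, eval z ∘ A = a0 + z 0 • c0 := by
    intro z; funext i; simp [hA]
  have eB : ∀ z : Fin 8 → ℂ, eval z ∘ B = b0 + z 1 • c0 := by
    intro z; funext i; simp [hB]
  have eA' : ∀ z : Fin 8 → ℂ, eval z ∘ A' = ![z 2, z 3, z 4] := by
    intro z; funext i; rw [hA']; fin_cases i <;> simp
  have eB' : ∀ z : Fin 8 → ℂ, eval z ∘ B' = ![z 5, z 6, z 7] := by
    intro z; funext i; rw [hB']; fin_cases i <;> simp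
  obtain ⟨FR, hFR⟩ : ∃ FR : MvPolynomial (Fin 3) (MvPolynomial (Fin 8) ℂ),
    FR = map (C : ℂ →+* MvPolynomial (Fin 8) ℂ) F := ⟨_, rfl⟩
  have hbin : ∀ (z : Fin 8 → ℂ) (U V : Fin 3 → MvPolynomial (Fin 8) ℂ),
      (bin FR U V).map (eval z) = bin F (eval z ∘ U) (eval z ∘ V) := by
    intro z U V
    rw [map_bin, hFR, map_eval_map_C]
  set g : Fin 7 → MvPolynomial (Fin 8) ℂ := fun k => (bin FR A B - bin FR A' B').coeff k with hg
  have hgz : ∀ z : Fin 8 → ℂ, (∀ k, eval z (g k) = 0) ↔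
      bin F (a0 + z 0 • c0) (b0 + z 1 • c0) = bin F ![z 2, z 3, z 4] ![z 5, z 6, z 7] := by
    intro z
    have hgk : ∀ k, eval z (g k) = (bin F (a0 + z 0 • c0) (b0 + z 1 • c0) -
        bin F ![z 2, z 3, z 4] ![z 5, z 6, z 7]).coeff k := by
      intro k
      rw [hg]
      simp only
      rw [← Polynomial.coeff_map, Polynomial.map_sub, hbin, hbin, eA, eB, eA', eB']
    constructor
    · intro h0
      rw [← sub_eq_zero]
      ext k
      rw [Polynomial.coeff_zero]
      by_cases hk : k < 7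
      · rw [← h0 ⟨k, hk⟩, hgk]
      · apply Polynomial.coeff_eq_zero_of_natDegree_lt
        refine lt_of_le_of_lt (Polynomial.natDegree_sub_le _ _) ?_
        have h1 := natDegree_bin_le F hF (a0 + z 0 • c0) (b0 + z 1 • c0)
        have h2 := natDegree_bin_le F hF ![z 2, z 3, z 4] ![z 5, z 6, z 7]
        omega
    · intro h0 k
      rw [hgk, h0, sub_self, Polynomial.coeff_zero]
  set N : MvPolynomial (Fin 8) ℂ := aeval (cr A B) h *
    Polynomial.resultant (bin FR A B) (Polynomial.derivative (bin FR A B)) 6 5 *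
    cr (cr A B) (cr A' B') k0 with hN
  have hNz : ∀ z : Fin 8 → ℂ, eval z N = eval (cr (a0 + z 0 • c0) (b0 + z 1 • c0)) h *
      Polynomial.resultant (bin F (a0 + z 0 • c0) (b0 + z 1 • c0))
        (Polynomial.derivative (bin F (a0 + z 0 • c0) (b0 + z 1 • c0))) 6 5 *
      cr (cr (a0 + z 0 • c0) (b0 + z 1 • c0)) (cr ![z 2, z 3, z 4] ![z 5, z 6, z 7]) k0 := by
    intro z
    have e1 : eval z (aeval (cr A B) h) = eval (cr (a0 + z 0 • c0) (b0 + z 1 • c0)) h := by
      have : (eval z).comp (aeval (R := ℂ) (cr A B)).toRingHom =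
          eval (cr (a0 + z 0 • c0) (b0 + z 1 • c0)) := by
        apply ringHom_ext
        · intro r; simp
        · intro i
          have := congrFun (cr_map (eval z) A B) i
          rw [eA, eB] at this
          simpa using this
      exact congrArg (fun f => f h) this
    have e2 : eval z (Polynomial.resultant (bin FR A B) (Polynomial.derivative (bin FR A B)) 6 5) =
        Polynomial.resultant (bin F (a0 + z 0 • c0) (b0 + z 1 • c0))
        (Polynomial.derivative (bin F (a0 + z 0 • c0) (b0 + z 1 • c0))) 6 5 := by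
      rw [← Polynomial.resultant_map_map, ← Polynomial.derivative_map, hbin, eA, eB]
    have e3 : eval z (cr (cr A B) (cr A' B') k0) = cr (cr (a0 + z 0 • c0) (b0 + z 1 • c0))
        (cr ![z 2, z 3, z 4] ![z 5, z 6, z 7]) k0 := by
      have e4 := cr_map (eval z) (cr A B) (cr A' B')
      rw [cr_map (eval z) A B, cr_map (eval z) A' B', eA, eB, eA', eB'] at e4
      exact congrFun e4 k0
    rw [hN, map_mul, map_mul, e1, e2, e3]
  set z0 : Fin 8 → ℂ := ![0, 0, a0' 0, a0' 1, a0' 2, b0' 0, b0' 1, b0' 2] with hz0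
  have ev0 : a0 + z0 0 • c0 = a0 := by simp [hz0]
  have ev1 : b0 + z0 1 • c0 = b0 := by simp [hz0]
  have ev2 : ![z0 2, z0 3, z0 4] = a0' := by
    funext i; fin_cases i <;> simp [hz0]
  have ev3 : ![z0 5, z0 6, z0 7] = b0' := by
    funext i; fin_cases i <;> simp [hz0]
  have hinf := infinite_solutions (σ := Fin 8) (τ := Fin 7) (by simp) g N z0 ?_ ?_
  · apply hinf
    have hfin := class_finite F hF hrel (bin F a0 b0) htr.1 htr.2
    refine (hfin.image (fun p : (Fin 3 → ℂ) × (Fin 3 → ℂ) =>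
      (![0, 0, p.1 0, p.1 1, p.1 2, p.2 0, p.2 1, p.2 2] : Fin 8 → ℂ))).subset ?_
    rintro z ⟨hz1, hz2⟩
    rw [hgz] at hz1
    rw [hNz] at hz2
    have n1 := left_ne_zero_of_mul (left_ne_zero_of_mul hz2)
    have n2 := right_ne_zero_of_mul (left_ne_zero_of_mul hz2)
    have n3 := right_ne_zero_of_mul hz2
    rw [← tr_iff _ (natDegree_bin_le F hF _ _)] at n2
    have n4 : cr (cr (a0 + z 0 • c0) (b0 + z 1 • c0)) (cr ![z 2, z 3, z 4] ![z 5, z 6, z 7]) ≠ 0 := by
      intro h0; exact n3 (by rw [h0]; rfl)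
    have hpair : Pair F (a0 + z 0 • c0) (b0 + z 1 • c0) ![z 2, z 3, z 4] ![z 5, z 6, z 7] :=
      ⟨bin_eq_forms F F hF hF _ _ _ _ hz1, cr_ne_zero_left n4, cr_ne_zero_right n4, n4⟩
    have hpar := hcon _ _ _ _ hpair n2 n1
    rw [cr_swap] at hpar
    obtain ⟨l, hl⟩ := par_of_cr_eq_zero _ _ hp2 (neg_eq_zero.mp hpar)
    have d1 : dot (cr (a0 + z 0 • c0) (b0 + z 1 • c0)) a0 = -(z 0) * dot (cr a0 b0) c0 := by
      simp [dot, cr]; ring
    have d2 : dot (cr (a0 + z 0 • c0) (b0 + z 1 • c0)) b0 = -(z 1) * dot (cr a0 b0) c0 := by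
      simp [dot, cr]; ring
    rw [hl, dot_smul_left, dot_cr_left, mul_zero] at d1
    rw [hl, dot_smul_left, dot_cr_right, mul_zero] at d2
    have z00 : z 0 = 0 := by
      rcases mul_eq_zero.mp d1.symm with h1 | h1
      · exact neg_eq_zero.mp h1
      · exact absurd h1 hc0
    have z10 : z 1 = 0 := by
      rcases mul_eq_zero.mp d2.symm with h1 | h1
      · exact neg_eq_zero.mp h1
      · exact absurd h1 hc0
    refine ⟨(![z 2, z 3, z 4], ![z 5, z 6, z 7]), ⟨?_, ?_⟩, ?_⟩
    · simp only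
      rw [← hz1, z00, z10, zero_smul, add_zero, add_zero]
    · exact hpair.2.2.1
    · funext i
      fin_cases i <;> simp [z00, z10]
  · rw [hgz, ev0, ev1, ev2, ev3]
    exact bin_eq_of_forms F F _ _ _ _ (fun t => by
      have := hp1 1 t
      rwa [one_smul, one_smul] at this)
  · rw [hNz, ev0, ev1, ev2, ev3]
    refine mul_ne_zero (mul_ne_zero hh ?_) hk0
    exact (tr_iff _ (natDegree_bin_le F hF _ _)).mp htr

end Pool.Agent.Lib.MP_75d53c_ag
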