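import Pool.Agent.Lib.MP_75d53c_ag.Sextic

/-! Elementary geometry of planes in `ℂ³`. -/

set_option autoImplicit false

open MvPolynomial

namespace Pool.Agent.Lib.MP_75d53c_ag

section

variable {R : Type} [CommRing R]

/-- the cross product -/
def cr (a b : Fin 3 → R) : Fin 3 → R :=
  ![a 1 * b 2 - a 2 * b 1, a 2 * b 0 - a 0 * b 2, a 0 * b 1 - a 1 * b 0]

/-- the dot product -/
def dot (a b : Fin 3 → R) : R := a 0 * b 0 + a 1 * b 1 + a 2 * b 2

lemma cr_map {S : Type} [CommRing S] (φ : R →+* S) (a b : Fin 3 → R) :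
    φ ∘ cr a b = cr (φ ∘ a) (φ ∘ b) := by
  funext i
  fin_cases i <;> simp [cr]

lemma cr_lin (a b : Fin 3 → R) (p q r s : R) :
    cr (p • a + q • b) (r • a + s • b) = (p * s - q * r) • cr a b := by
  funext i
  fin_cases i <;> simp [cr] <;> ring

lemma cr_swap (a b : Fin 3 → R) : cr a b = - cr b a := by
  funext i
  fin_cases i <;> simp [cr] <;> ring

lemma cr_self (a : Fin 3 → R) : cr a a = 0 := by
  funext i
  fin_cases i <;> simp [cr] <;> ring

lemma cr_smul (p q : R) (a b : Fin 3 → R) : cr (p • a) (q • b) = (p * q) • cr a b := by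
  funext i
  fin_cases i <;> simp [cr] <;> ring

lemma dot_cr_left (a b : Fin 3 → R) : dot (cr a b) a = 0 := by
  simp [dot, cr]; ring

lemma dot_cr_right (a b : Fin 3 → R) : dot (cr a b) b = 0 := by
  simp [dot, cr]; ring

lemma dot_comm' (a b : Fin 3 → R) : dot a b = dot b a := by
  simp [dot]; ring

lemma dot_add_smul (x a b : Fin 3 → R) (s t : R) :
    dot x (s • a + t • b) = s * dot x a + t * dot x b := by
  simp [dot]; ring

lemma dot_smul_left (x a : Fin 3 → R) (s : R) : dot (s • x) a = s * dot x a := by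
  simp [dot]; ring

end

/-- coordinates in a plane, without denominators -/
lemma plane_coords' {R : Type} [CommRing R] (a b v : Fin 3 → R) (h : dot (cr a b) v = 0)
    (i : Fin 3) : (cr a b i) • v = (cr v b i) • a + (cr a v i) • b := by
  funext j
  simp only [dot, cr] at h
  fin_cases i <;> fin_cases j <;>
    simp [cr] at h ⊢ <;> first | linear_combination h | ring1

/-- coordinates in a plane -/
lemma plane_coords (a b v : Fin 3 → ℂ) (h : dot (cr a b) v = 0) (i : Fin 3)
    (hi : cr a b i ≠ 0) :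
    v = (cr v b i / cr a b i) • a + (cr a v i / cr a b i) • b := by
  calc v = (cr a b i)⁻¹ • ((cr a b i) • v) := by
        rw [smul_smul, inv_mul_cancel₀ hi, one_smul]
    _ = (cr a b i)⁻¹ • ((cr v b i) • a + (cr a v i) • b) := by
        rw [plane_coords' a b v h i]
    _ = _ := by
        rw [smul_add, smul_smul, smul_smul]
        congr 2 <;> field_simp

lemma cr_cr (x y z : Fin 3 → ℂ) : cr (cr x y) z = (dot x z) • y - (dot y z) • x := by
  funext i
  fin_cases i <;> simp [cr, dot] <;> ring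

lemma par_of_cr_eq_zero (x y : Fin 3 → ℂ) (hx : x ≠ 0) (h : cr x y = 0) : ∃ c : ℂ, y = c • x := by
  obtain ⟨i, hi⟩ := Function.ne_iff.mp hx
  refine ⟨y i / x i, ?_⟩
  have h0 := congrFun h 0
  have h1 := congrFun h 1
  have h2 := congrFun h 2
  simp only [cr, Fin.isValue, Matrix.cons_val_zero, Pi.zero_apply, Matrix.cons_val_one,
    Matrix.cons_val] at h0 h1 h2
  funext j
  simp only [Pi.zero_apply] at hi
  simp only [Pi.smul_apply, smul_eq_mul]
  rw [div_mul_eq_mul_div, eq_div_iff hi]
  fin_cases i <;> fin_cases j <;> simp at hi ⊢ <;>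
    first
      | ring1
      | linear_combination h0
      | linear_combination h1
      | linear_combination h2
      | linear_combination -h0
      | linear_combination -h1
      | linear_combination -h2

lemma cr_ne_zero_left {a b : Fin 3 → ℂ} (h : cr a b ≠ 0) : a ≠ 0 := by
  rintro rfl
  apply h
  funext i
  fin_cases i <;> simp [cr]

lemma cr_ne_zero_right {a b : Fin 3 → ℂ} (h : cr a b ≠ 0) : b ≠ 0 := by
  rintro rfl
  apply h
  funext i
  fin_cases i <;> simp [cr]

lemma exists_coords (a b v : Fin 3 → ℂ) (hab : cr a b ≠ 0) (h : dot (cr a b) v = 0) :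
    ∃ x y : ℂ, v = x • a + y • b := by
  obtain ⟨i, hi⟩ := Function.ne_iff.mp hab
  exact ⟨_, _, plane_coords a b v h i hi⟩

lemma comb_ne_zero {a b : Fin 3 → ℂ} (hab : cr a b ≠ 0) {x y : ℂ} (hxy : ¬ (x = 0 ∧ y = 0)) :
    x • a + y • b ≠ 0 := by
  intro h
  apply hxy
  have h1 : cr (x • a + y • b) b = x • cr a b := by
    have := cr_lin a b x y 0 1
    simpa using this
  have h2 : cr a (x • a + y • b) = y • cr a b := by
    have := cr_lin a b 1 0 x y
    simpa using this
  rw [h] at h1 h2
  have z1 : cr (0 : Fin 3 → ℂ) b = 0 := by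
    funext i; fin_cases i <;> simp [cr]
  have z2 : cr a (0 : Fin 3 → ℂ) = 0 := by
    funext i; fin_cases i <;> simp [cr]
  rw [z1] at h1
  rw [z2] at h2
  exact ⟨(smul_eq_zero.mp h1.symm).resolve_right hab, (smul_eq_zero.mp h2.symm).resolve_right hab⟩

/-- Normal form of a pair of planes with an isomorphism between them. -/
lemma normal_form (F : MvPolynomial (Fin 3) ℂ) (a b a' b' : Fin 3 → ℂ)
    (hφ : ∀ s t : ℂ, eval (s • a + t • b) F = eval (s • a' + t • b') F)
    (h1 : cr a b ≠ 0) (h2 : cr a' b' ≠ 0) (h3 : cr (cr a b) (cr a' b') ≠ 0) :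
    ∃ r s r' : Fin 3 → ℂ, dot (cr r s) r' ≠ 0 ∧
      (∃ κ : ℂ, κ ≠ 0 ∧ cr r s = κ • cr a b) ∧ (∃ κ' : ℂ, κ' ≠ 0 ∧ cr r r' = κ' • cr a' b') ∧
      ((∀ X Y : ℂ, eval (X • r + Y • s) F = eval (Y • r + X • r') F) ∨
        (∃ (i : Fin 3) (α : ℂ), α ≠ 0 ∧ s i = 0 ∧
          ∀ X Y : ℂ, eval (X • r + Y • s) F = eval ((α * X) • r + Y • r') F)) := by
  set ξ := cr a b with hξ
  set ξ' := cr a' b' with hξ'
  set p := cr ξ ξ' with hp
  have hp1 : dot ξ p = 0 := by rw [dot_comm', hp]; simp [dot, cr]; ring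
  have hp2 : dot ξ' p = 0 := by rw [dot_comm', hp]; simp [dot, cr]; ring
  obtain ⟨x, y, hxy⟩ := exists_coords a b p h1 hp1
  obtain ⟨x', y', hxy'⟩ := exists_coords a' b' p h2 hp2
  have hxy0 : ¬ (x = 0 ∧ y = 0) := by
    rintro ⟨rfl, rfl⟩
    apply h3
    rw [hxy]; simp
  set q := x • a' + y • b' with hq
  have hq2 : dot ξ' q = 0 := by
    rw [hq, dot_add_smul, hξ', dot_cr_left, dot_cr_right]; ring
  have key : ∀ v : Fin 3 → ℂ, dot ξ v = 0 → dot ξ' v = 0 → cr p v = 0 := by
    intro v hv hv'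
    rw [hp, cr_cr, hv, hv']; simp
  by_cases hpq : cr p q = 0
  · -- the intersection line is mapped to itself
    obtain ⟨α, hα⟩ := par_of_cr_eq_zero p q h3 hpq
    have hq0 : q ≠ 0 := comb_ne_zero h2 hxy0
    have hα0 : α ≠ 0 := by
      rintro rfl
      apply hq0
      rw [hα]; simp
    obtain ⟨i, hi⟩ := Function.ne_iff.mp h3
    simp only [Pi.zero_apply] at hi
    obtain ⟨u, v, huv⟩ : ∃ u v : ℂ, x * v - y * u ≠ 0 := by
      by_cases hx : x = 0
      · refine ⟨1, 0, ?_⟩
        have : y ≠ 0 := fun hy => hxy0 ⟨hx, hy⟩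
        simpa using this
      · exact ⟨0, 1, by simpa using hx⟩
    set k : ℂ := (u * a i + v * b i) / p i with hk
    have hs : (u - k * x) • a + (v - k * y) • b = (u • a + v • b) - k • p := by
      rw [hxy]; module
    have hdet : x * (v - k * y) - y * (u - k * x) = x * v - y * u := by ring
    have hc1 : cr p ((u - k * x) • a + (v - k * y) • b) = (x * v - y * u) • ξ := by
      conv_lhs => rw [hxy]
      rw [cr_lin, hdet]
    have hc2 : cr p ((u - k * x) • a' + (v - k * y) • b') = (α⁻¹ * (x * v - y * u)) • ξ' := by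
      have : p = α⁻¹ • q := by
        rw [hα, smul_smul, inv_mul_cancel₀ hα0, one_smul]
      rw [this]
      have h4 := cr_smul α⁻¹ 1 q ((u - k * x) • a' + (v - k * y) • b')
      rw [one_smul, mul_one] at h4
      rw [h4, hq, cr_lin, hdet, smul_smul]
    refine ⟨p, (u - k * x) • a + (v - k * y) • b, (u - k * x) • a' + (v - k * y) • b', ?_,
      ⟨x * v - y * u, huv, hc1⟩, ⟨α⁻¹ * (x * v - y * u), mul_ne_zero (inv_ne_zero hα0) huv, hc2⟩,
      Or.inr ⟨i, α, hα0, ?_, ?_⟩⟩
    · rw [hc1, dot_smul_left]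
      refine mul_ne_zero huv ?_
      intro h0
      have h5 : dot ξ' ((u - k * x) • a' + (v - k * y) • b') = 0 := by
        rw [dot_add_smul, hξ', dot_cr_left, dot_cr_right]; ring
      have h6 := key _ h0 h5
      rw [hc2] at h6
      rcases smul_eq_zero.mp h6 with h7 | h7
      · exact mul_ne_zero (inv_ne_zero hα0) huv h7
      · exact h2 h7
    · rw [hs]
      simp only [Pi.sub_apply, Pi.add_apply, Pi.smul_apply, smul_eq_mul, hk]
      rw [div_mul_cancel₀ _ hi]; ring
    · intro X Y
      have e1 : X • p + Y • ((u - k * x) • a + (v - k * y) • b) =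
          (X * x + Y * (u - k * x)) • a + (X * y + Y * (v - k * y)) • b := by
        conv_lhs => rw [hxy]
        module
      have e2 : (α * X) • p + Y • ((u - k * x) • a' + (v - k * y) • b') =
          (X * x + Y * (u - k * x)) • a' + (X * y + Y * (v - k * y)) • b' := by
        have : (α * X) • p = X • q := by rw [hα]; module
        rw [this, hq]; module
      rw [e1, e2, hφ]
  · -- the generic case
    have hD1 : cr p q = (x' * y - y' * x) • ξ' := by
      conv_lhs => rw [hxy']
      rw [cr_lin]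
    have hD : x' * y - y' * x ≠ 0 := by
      intro h0
      apply hpq
      rw [hD1, h0, zero_smul]
    have hD2 : cr p (x' • a + y' • b) = (-(x' * y - y' * x)) • ξ := by
      conv_lhs => rw [hxy]
      rw [cr_lin]
      congr 1; ring
    refine ⟨p, x' • a + y' • b, q, ?_, ⟨_, neg_ne_zero.mpr hD, hD2⟩, ⟨_, hD, hD1⟩, Or.inl ?_⟩
    · rw [hD2, dot_smul_left]
      refine mul_ne_zero (neg_ne_zero.mpr hD) ?_
      intro h0
      exact hpq (key q h0 hq2)
    · intro X Y
      have e1 : X • p + Y • (x' • a + y' • b) = (X * x + Y * x') • a + (X * y + Y * y') • b := by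
        conv_lhs => rw [hxy]
        module
      have e2 : Y • p + X • q = (X * x + Y * x') • a' + (X * y + Y * y') • b' := by
        conv_lhs => rw [hxy', hq]
        module
      rw [e1, e2, hφ]

end Pool.Agent.Lib.MP_75d53c_ag
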