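import Pool.Agent.Lib.MP_75d53c_ag.Families

/-! The relations satisfied by the planes in a pair, for a general sextic. -/

set_option autoImplicit false

open MvPolynomial

namespace Pool.Agent.Lib.MP_75d53c_ag

lemma card_pairs (i : Fin 3) :
    Fintype.card {p : Fin 3 × Fin 3 // p ≠ (i, 1)} = 8 := by
  revert i; decide

lemma small_N1 : Small N1 := by
  classical
  let rep : Exp6 → {m : Exp6 // 1 ≤ m.1 1} := fun m =>
    if h : 1 ≤ m.1 1 then ⟨m, h⟩
    else if h' : 1 ≤ m.1 0 then ⟨rot m, by simpa [rot] using h'⟩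
    else ⟨rot (rot m), by have := exp_sum m; simp [rot]; omega⟩
  refine ⟨(Fin 3 × Fin 3) ⊕ {m : Exp6 // 1 ≤ m.1 1}, inferInstance,
    fun i j => X (Sum.inl (i, j)), fun m => X (Sum.inr (rep m)), ?_, ?_⟩
  · rw [Fintype.card_sum, card_exp1]; simp
  · intro F hF r s r' hdet hN
    refine ⟨Sum.elim (fun p => ![r p.1, s p.1, r' p.1] p.2)
      (fun m => ((mat r s r').det ^ 6)⁻¹ * coeff m.1.1 (subst F (mat r s r'))), ?_, ?_, ?_, ?_⟩
    · intro i; simp
    · intro i; simp
    · intro i; simp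
    · conv_lhs => rw [recover F hF (mat r s r') (by rw [det_mat]; exact hdet)]
      congr 2
      funext m
      simp only [eval_X, Sum.elim_inr]
      congr 1
      simp only [rep]
      split_ifs with h h'
      · rfl
      · exact (coeff_N1 F hF r s r' hN m (by omega)).symm
      · rw [coeff_N1 F hF r s r' hN (rot m) (by simp [rot]; omega),
          coeff_N1 F hF r s r' hN m (by omega)]

lemma small_N2 (i : Fin 3) : Small (N2 i) := by
  classical
  refine ⟨{p : Fin 3 × Fin 3 // p ≠ (i, 1)} ⊕ (Unit ⊕ {m : Exp6 // 1 ≤ m.1 2}), inferInstance,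
    fun k l => if h : (k, l) ≠ (i, 1) then X (Sum.inl ⟨(k, l), h⟩) else 0,
    fun m => if h : 1 ≤ m.1 2 then X (Sum.inr (Sum.inr ⟨m, h⟩))
      else if h' : 1 ≤ m.1 1 then X (Sum.inr (Sum.inl ())) ^ m.1 0 *
        X (Sum.inr (Sum.inr ⟨sw m, by simpa [sw] using h'⟩)) else 0, ?_, ?_⟩
  · rw [Fintype.card_sum, Fintype.card_sum, card_exp2, card_pairs]; simp
  · intro F hF r s r' hdet hN
    obtain ⟨hs, α, hα, hN⟩ := hN
    refine ⟨Sum.elim (fun p => ![r p.1.1, s p.1.1, r' p.1.1] p.1.2) (Sum.elim (fun _ => α)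
      (fun m => ((mat r s r').det ^ 6)⁻¹ * coeff m.1.1 (subst F (mat r s r')))), ?_, ?_, ?_, ?_⟩
    · intro k
      dsimp only
      rw [dif_pos (by simp)]
      simp
    · intro k
      dsimp only
      by_cases hk : k = i
      · subst hk
        rw [dif_neg (by simp)]
        simp [hs]
      · rw [dif_pos (by simpa using hk)]
        simp
    · intro k
      dsimp only
      rw [dif_pos (by simp)]
      simp
    · conv_lhs => rw [recover F hF (mat r s r') (by rw [det_mat]; exact hdet)]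
      congr 2
      funext m
      dsimp only
      split_ifs with h h'
      · simp
      · rw [coeff_N23 F hF r s r' α hN m (by omega)]
        simp
        ring
      · have h0 := coeff_N23 F hF r s r' α hN m (by omega)
        have hsw : sw m = m := by
          apply exp_ext <;> simp [sw] <;> omega
        have h6 : m.1 0 = 6 := by have := exp_sum m; omega
        rw [hsw, h6] at h0
        have h1 : (α ^ 6 - 1) * coeff m.1 (subst F (mat r s r')) = 0 := by
          linear_combination -h0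
        rcases mul_eq_zero.mp h1 with h2 | h2
        · exact absurd (sub_eq_zero.mp h2) hα
        · rw [h2]; simp

lemma small_N3 (i : Fin 3) : Small (N3 i) := by
  classical
  refine ⟨{p : Fin 3 × Fin 3 // p ≠ (i, 1)} ⊕ {m : Exp6 // 1 ≤ m.1 2 ∨ m.1 1 = 0}, inferInstance,
    fun k l => if h : (k, l) ≠ (i, 1) then X (Sum.inl ⟨(k, l), h⟩) else 0,
    fun m => if h : 1 ≤ m.1 2 ∨ m.1 1 = 0 then X (Sum.inr ⟨m, h⟩)
      else X (Sum.inr ⟨sw m, by left; simp [sw]; omega⟩), ?_, ?_⟩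
  · rw [Fintype.card_sum, card_exp2', card_pairs]
  · intro F hF r s r' hdet hN
    obtain ⟨hs, hN⟩ := hN
    refine ⟨Sum.elim (fun p => ![r p.1.1, s p.1.1, r' p.1.1] p.1.2)
      (fun m => ((mat r s r').det ^ 6)⁻¹ * coeff m.1.1 (subst F (mat r s r'))), ?_, ?_, ?_, ?_⟩
    · intro k
      dsimp only
      rw [dif_pos (by simp)]
      simp
    · intro k
      dsimp only
      by_cases hk : k = i
      · subst hk
        rw [dif_neg (by simp)]
        simp [hs]
      · rw [dif_pos (by simpa using hk)]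
        simp
    · intro k
      dsimp only
      rw [dif_pos (by simp)]
      simp
    · conv_lhs => rw [recover F hF (mat r s r') (by rw [det_mat]; exact hdet)]
      congr 2
      funext m
      dsimp only
      split_ifs with h
      · simp
      · have h0 := coeff_N23 F hF r s r' 1 (by simpa using hN) m (by omega)
        rw [h0]
        simp

/-- first relation for a type of normal forms -/
lemma rel1_small {N : MvPolynomial (Fin 3) ℂ → (Fin 3 → ℂ) → (Fin 3 → ℂ) → (Fin 3 → ℂ) → Prop}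
    (hN : Small N) :
    General (fun F => ∃ H : MvPolynomial (Fin 3) ℂ, H ≠ 0 ∧ ∀ r s r' : Fin 3 → ℂ,
      dot (cr r s) r' ≠ 0 → N F r s r' → eval (cr r s) H = 0) := by
  obtain ⟨σ, _, e, c, hcard, hpar⟩ := hN
  have h := family_rel (σ := σ) (τ := Fin 3) (by simp; omega) c
    (mat (fun i => e i 0) (fun i => e i 1) (fun i => e i 2)).adjugate
    (cr (fun i => e i 0) (fun i => e i 1))
  refine h.mono ?_
  intro F hF hH
  obtain ⟨H, hH0, hH⟩ := hH
  refine ⟨H, hH0, ?_⟩
  intro r s r' hdet hNF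
  obtain ⟨t, h0, h1, h2, h3⟩ := hpar F hF r s r' hdet hNF
  have e0 : (eval t ∘ fun i => e i 0) = r := funext h0
  have e1 : (eval t ∘ fun i => e i 1) = s := funext h1
  have e2 : (eval t ∘ fun i => e i 2) = r' := funext h2
  have key := hH t (by
    have : (mat (fun i => e i 0) (fun i => e i 1) (fun i => e i 2)).adjugate.map (eval t) =
        (mat r s r').adjugate := by
      rw [← RingHom.mapMatrix_apply, RingHom.map_adjugate, RingHom.mapMatrix_apply, mat_map,
        e0, e1, e2]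
    rw [this]
    exact h3)
  have e3 : (fun k => eval t (cr (fun i => e i 0) (fun i => e i 1) k)) = cr r s := by
    have := cr_map (eval t) (fun i => e i 0) (fun i => e i 1)
    rw [e0, e1] at this
    exact this
  rw [e3] at key
  exact key

/-- second relation for a type of normal forms -/
lemma rel2_small {N : MvPolynomial (Fin 3) ℂ → (Fin 3 → ℂ) → (Fin 3 → ℂ) → (Fin 3 → ℂ) → Prop}
    (hN : Small N) (i j : Fin 3) :
    General (fun F => ∃ H : MvPolynomial (Fin 4) ℂ, H ≠ 0 ∧ ∀ r s r' : Fin 3 → ℂ, ∀ c : ℂ,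
      dot (cr r s) r' ≠ 0 → N F r s r' →
      eval ![cr r s i, cr r s j, c * cr r r' i, c * cr r r' j] H = 0) := by
  obtain ⟨σ, _, e, c, hcard, hpar⟩ := hN
  obtain ⟨ι, hι⟩ : ∃ ι : MvPolynomial σ ℂ →+* MvPolynomial (σ ⊕ Unit) ℂ,
      ∀ (t : σ → ℂ) (z : ℂ) (P : MvPolynomial σ ℂ),
        eval (Sum.elim t (fun _ => z)) (ι P) = eval t P := by
    refine ⟨(rename Sum.inl).toRingHom, ?_⟩
    intro t z P
    change eval (Sum.elim t (fun _ => z)) (rename Sum.inl P) = _
    rw [eval_rename]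
    congr 1
  obtain ⟨E, hE⟩ : ∃ E : Fin 3 → Fin 3 → MvPolynomial (σ ⊕ Unit) ℂ, ∀ i j, E i j = ι (e i j) :=
    ⟨_, fun _ _ => rfl⟩
  obtain ⟨h4, hh4⟩ : ∃ h : Fin 4 → MvPolynomial (σ ⊕ Unit) ℂ,
      h = ![cr (fun i => E i 0) (fun i => E i 1) i, cr (fun i => E i 0) (fun i => E i 1) j,
      X (Sum.inr ()) * cr (fun i => E i 0) (fun i => E i 2) i,
      X (Sum.inr ()) * cr (fun i => E i 0) (fun i => E i 2) j] := ⟨_, rfl⟩
  have hc : Fintype.card (σ ⊕ Unit) < 28 + Fintype.card (Fin 4) := by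
    rw [Fintype.card_sum, Fintype.card_unit, Fintype.card_fin]; omega
  have h := family_rel (σ := σ ⊕ Unit) (τ := Fin 4) hc (fun m => ι (c m))
    (mat (fun i => E i 0) (fun i => E i 1) (fun i => E i 2)).adjugate h4
  refine h.mono ?_
  rintro F hF ⟨H, hH0, hH⟩
  refine ⟨H, hH0, ?_⟩
  intro r s r' z hdet hNF
  obtain ⟨t, h0, h1, h2, h3⟩ := hpar F hF r s r' hdet hNF
  obtain ⟨T, hTdef⟩ : ∃ T : σ ⊕ Unit → ℂ, T = Sum.elim t (fun _ => z) := ⟨_, rfl⟩
  have hT : ∀ P : MvPolynomial σ ℂ, eval T (ι P) = eval t P := by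
    intro P
    rw [hTdef]
    exact hι t z P
  have e0 : (eval T ∘ fun i => E i 0) = r :=
    funext (fun i => by rw [Function.comp_apply, hE, hT, h0])
  have e1 : (eval T ∘ fun i => E i 1) = s :=
    funext (fun i => by rw [Function.comp_apply, hE, hT, h1])
  have e2 : (eval T ∘ fun i => E i 2) = r' :=
    funext (fun i => by rw [Function.comp_apply, hE, hT, h2])
  have h4' : (mat (fun i => E i 0) (fun i => E i 1) (fun i => E i 2)).adjugate.map (eval T) =
      (mat r s r').adjugate := by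
    rw [← RingHom.mapMatrix_apply, RingHom.map_adjugate, RingHom.mapMatrix_apply, mat_map,
      e0, e1, e2]
  have h5 : (fun m => eval T (ι (c m))) = fun m => eval t (c m) := funext (fun m => hT _)
  have key := hH T (by rw [h4', h5]; exact h3)
  have e3 : ∀ k, eval T (cr (fun i => E i 0) (fun i => E i 1) k) = cr r s k := by
    have := cr_map (eval T) (fun i => E i 0) (fun i => E i 1)
    rw [e0, e1] at this
    exact fun k => congrFun this k
  have e4 : ∀ k, eval T (cr (fun i => E i 0) (fun i => E i 2) k) = cr r r' k := by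
    have := cr_map (eval T) (fun i => E i 0) (fun i => E i 2)
    rw [e0, e2] at this
    exact fun k => congrFun this k
  have e5 : (fun k => eval T (h4 k)) =
      ![cr r s i, cr r s j, z * cr r r' i, z * cr r r' j] := by
    rw [hh4]
    funext k
    fin_cases k
    · exact e3 i
    · exact e3 j
    · simp [hTdef]
      left
      rw [← hTdef, e4]
    · simp [hTdef]
      left
      rw [← hTdef, e4]
  rw [e5] at key
  exact key

/-- a pair of planes, given by bases that correspond under an isomorphism compatible with `F` -/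
def Pair (F : MvPolynomial (Fin 3) ℂ) (a b a' b' : Fin 3 → ℂ) : Prop :=
  (∀ s t : ℂ, eval (s • a + t • b) F = eval (s • a' + t • b') F) ∧
    cr a b ≠ 0 ∧ cr a' b' ≠ 0 ∧ cr (cr a b) (cr a' b') ≠ 0

/-- the three types together -/
def NF (F : MvPolynomial (Fin 3) ℂ) (r s r' : Fin 3 → ℂ) : Prop :=
  N1 F r s r' ∨ (∃ i, N2 i F r s r') ∨ (∃ i, N3 i F r s r')

lemma NF.smul {F : MvPolynomial (Fin 3) ℂ} {r s r' : Fin 3 → ℂ} (h : NF F r s r') (l : ℂ) :
    NF F (l • r) (l • s) (l • r') := by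
  have hsm : ∀ (X : ℂ) (v : Fin 3 → ℂ), X • (l • v) = (X * l) • v := by
    intro X v; rw [smul_smul]
  rcases h with hN | ⟨i, hs, α, h6, hN⟩ | ⟨i, hs, hN⟩
  · left
    intro X Y
    rw [hsm, hsm, hsm, hsm, hN]
  · right; left
    refine ⟨i, by simp [hs], α, h6, ?_⟩
    intro X Y
    rw [hsm, hsm, hsm, hsm, hN, mul_assoc]
  · right; right
    refine ⟨i, by simp [hs], ?_⟩
    intro X Y
    rw [hsm, hsm, hsm, hN]

lemma Pair.normal0 {F : MvPolynomial (Fin 3) ℂ} (hF : F.IsHomogeneous 6)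
    {a b a' b' : Fin 3 → ℂ} (h : Pair F a b a' b') :
    ∃ r s r' : Fin 3 → ℂ, dot (cr r s) r' ≠ 0 ∧ (∃ κ : ℂ, κ ≠ 0 ∧ cr r s = κ • cr a b) ∧
      (∃ κ' : ℂ, κ' ≠ 0 ∧ cr r r' = κ' • cr a' b') ∧ NF F r s r' := by
  obtain ⟨hφ, h1, h2, h3⟩ := h
  obtain ⟨r, s, r', hdet, h4, ⟨κ', hκ', hκ1'⟩, hN⟩ := normal_form F a b a' b' hφ h1 h2 h3
  rcases hN with hN | ⟨i, α, hα, hs, hN⟩
  · exact ⟨r, s, r', hdet, h4, ⟨κ', hκ', hκ1'⟩, Or.inl hN⟩
  · by_cases h6 : α ^ 6 = 1
    · refine ⟨r, s, α⁻¹ • r', ?_, h4, ⟨α⁻¹ * κ', mul_ne_zero (inv_ne_zero hα) hκ', ?_⟩,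
        Or.inr (Or.inr ⟨i, hs, ?_⟩)⟩
      · rw [dot_comm', dot_smul_left, dot_comm']
        exact mul_ne_zero (inv_ne_zero hα) hdet
      · have := cr_smul 1 α⁻¹ r r'
        rw [one_smul, one_mul] at this
        rw [this, hκ1', smul_smul]
      · intro X Y
        have e : (α * X) • r + Y • r' = α • (X • r + Y • (α⁻¹ • r')) := by
          rw [smul_add, smul_smul, smul_smul, smul_smul]
          congr 2
          field_simp
        rw [hN, e, eval_smul_six F hF, h6, one_mul]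
    · exact ⟨r, s, r', hdet, h4, ⟨κ', hκ', hκ1'⟩, Or.inr (Or.inl ⟨i, hs, α, h6, hN⟩)⟩

lemma Pair.normal {F : MvPolynomial (Fin 3) ℂ} (hF : F.IsHomogeneous 6)
    {a b a' b' : Fin 3 → ℂ} (h : Pair F a b a' b') (c : ℂ) (hc : c ≠ 0) :
    ∃ r s r' : Fin 3 → ℂ, dot (cr r s) r' ≠ 0 ∧ cr r s = c • cr a b ∧
      (∃ κ' : ℂ, κ' ≠ 0 ∧ cr r r' = κ' • cr a' b') ∧ NF F r s r' := by
  obtain ⟨r, s, r', hdet, ⟨κ, hκ, hκ1⟩, ⟨κ', hκ', hκ1'⟩, hN⟩ := h.normal0 hF
  obtain ⟨l, hl⟩ := IsAlgClosed.exists_pow_nat_eq (c / κ) (n := 2) (by norm_num)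
  have hl0 : l ≠ 0 := by
    rintro rfl
    have : c / κ = 0 := by rw [← hl]; ring
    rw [div_eq_zero_iff] at this
    exact this.elim hc hκ
  have hc1 : cr (l • r) (l • s) = c • cr a b := by
    rw [cr_smul, hκ1, smul_smul]
    congr 1
    rw [← pow_two, hl, div_mul_cancel₀ _ hκ]
  have hc2 : cr (l • r) (l • r') = (l * l * κ') • cr a' b' := by
    rw [cr_smul, hκ1', smul_smul]
  refine ⟨l • r, l • s, l • r', ?_, hc1, ⟨l * l * κ', mul_ne_zero (mul_ne_zero hl0 hl0) hκ', hc2⟩,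
    hN.smul l⟩
  have h4 : dot (cr (l • r) (l • s)) (l • r') = l ^ 3 * dot (cr r s) r' := by
    simp [dot, cr]; ring
  rw [h4]
  exact mul_ne_zero (pow_ne_zero 3 hl0) hdet

/-- first relation -/
theorem rel1 : General (fun F => ∃ H : MvPolynomial (Fin 3) ℂ, H ≠ 0 ∧
    ∀ a b a' b' : Fin 3 → ℂ, Pair F a b a' b' → eval (cr a b) H = 0) := by
  have h1 := rel1_small small_N1
  have h2 := General.forall_finite _ (fun i : Fin 3 => rel1_small (small_N2 i))
  have h3 := General.forall_finite _ (fun i : Fin 3 => rel1_small (small_N3 i))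
  refine ((h1.and h2).and h3).mono ?_
  intro F hF h
  obtain ⟨⟨⟨H1, h10, h1⟩, h2⟩, h3⟩ := h
  choose H2 h20 h2 using h2
  choose H3 h30 h3 using h3
  refine ⟨H1 * (∏ i, H2 i) * (∏ i, H3 i), ?_, ?_⟩
  · refine mul_ne_zero (mul_ne_zero h10 ?_) ?_
    · exact Finset.prod_ne_zero_iff.mpr (fun i _ => h20 i)
    · exact Finset.prod_ne_zero_iff.mpr (fun i _ => h30 i)
  · intro a b a' b' hp
    obtain ⟨r, s, r', hdet, hrs, _, hN⟩ := hp.normal hF 1 one_ne_zero
    rw [one_smul] at hrs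
    rw [← hrs, map_mul, map_mul, map_prod, map_prod]
    rcases hN with hN | ⟨i, hN⟩ | ⟨i, hN⟩
    · rw [h1 r s r' hdet hN]; ring
    · rw [Finset.prod_eq_zero (Finset.mem_univ i) (h2 i r s r' hdet hN)]; ring
    · rw [Finset.prod_eq_zero (i := i) (f := fun x => eval (cr r s) (H3 x)) (Finset.mem_univ i)
        (h3 i r s r' hdet hN)]; ring

/-- second relation -/
theorem rel2 (i j : Fin 3) : General (fun F => ∃ H : MvPolynomial (Fin 4) ℂ, H ≠ 0 ∧
    ∀ a b a' b' : Fin 3 → ℂ, Pair F a b a' b' → ∀ c c' : ℂ, c ≠ 0 →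
      eval ![c * cr a b i, c * cr a b j, c' * cr a' b' i, c' * cr a' b' j] H = 0) := by
  have h1 := rel2_small small_N1 i j
  have h2 := General.forall_finite _ (fun k : Fin 3 => rel2_small (small_N2 k) i j)
  have h3 := General.forall_finite _ (fun k : Fin 3 => rel2_small (small_N3 k) i j)
  refine ((h1.and h2).and h3).mono ?_
  intro F hF h
  obtain ⟨⟨⟨H1, h10, h1⟩, h2⟩, h3⟩ := h
  choose H2 h20 h2 using h2
  choose H3 h30 h3 using h3
  refine ⟨H1 * (∏ i, H2 i) * (∏ i, H3 i), ?_, ?_⟩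
  · refine mul_ne_zero (mul_ne_zero h10 ?_) ?_
    · exact Finset.prod_ne_zero_iff.mpr (fun i _ => h20 i)
    · exact Finset.prod_ne_zero_iff.mpr (fun i _ => h30 i)
  · intro a b a' b' hp c c' hc
    obtain ⟨r, s, r', hdet, hrs, ⟨κ', hκ', hrr⟩, hN⟩ := hp.normal hF c hc
    have e : ![c * cr a b i, c * cr a b j, c' * cr a' b' i, c' * cr a' b' j] =
        ![cr r s i, cr r s j, (c' / κ') * cr r r' i, (c' / κ') * cr r r' j] := by
      rw [hrs, hrr]
      funext k
      fin_cases k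
      · simp
      · simp
      · simp; field_simp
      · simp; field_simp
    rw [e, map_mul, map_mul, map_prod, map_prod]
    rcases hN with hN | ⟨k, hN⟩ | ⟨k, hN⟩
    · rw [h1 r s r' _ hdet hN]; ring
    · rw [Finset.prod_eq_zero (Finset.mem_univ k) (h2 k r s r' _ hdet hN)]; ring
    · rw [Finset.prod_eq_zero (i := k) (f := fun x => eval _ (H3 x)) (Finset.mem_univ k)
        (h3 k r s r' _ hdet hN)]; ring

end Pool.Agent.Lib.MP_75d53c_ag
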