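import Pool.Agent.Lib.MP_75d53c_ag.Bin
import Pool.Agent.Lib.MP_75d53c_ag.Defs

/-! Sextic forms with given coefficients, linear substitutions, and properties of a
general sextic form. -/

set_option autoImplicit false

open MvPolynomial

namespace Pool.Agent.Lib.MP_75d53c_ag

lemma deg_eq (m : Fin 3 →₀ ℕ) : m.degree = m 0 + m 1 + m 2 := by
  rw [Finsupp.degree_eq_sum, Fin.sum_univ_three]

lemma exp_sum (m : Exp6) : m.1 0 + m.1 1 + m.1 2 = 6 := by
  have := m.2
  rwa [deg_eq] at this

/-- the index type of pairs -/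
abbrev Idx : Type := {v : Fin 7 × Fin 7 // v.1.val + v.2.val ≤ 6}

/-- a monomial is determined by its last two exponents -/
noncomputable def expEquiv : Exp6 ≃ Idx where
  toFun m := ⟨(⟨m.1 1, by have := exp_sum m; omega⟩,
    ⟨m.1 2, by have := exp_sum m; omega⟩), by
      have := exp_sum m; simp only; omega⟩
  invFun v := ⟨Finsupp.equivFunOnFinite.symm ![6 - v.1.1.val - v.1.2.val, v.1.1.val, v.1.2.val], by
    rw [deg_eq]; simp; have := v.2; omega⟩
  left_inv m := by
    apply Subtype.ext
    have := exp_sum m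
    ext i
    fin_cases i
    · simp; omega
    · simp
    · simp
  right_inv v := by
    apply Subtype.ext
    simp

noncomputable instance : Fintype Exp6 := Fintype.ofEquiv Idx expEquiv.symm

lemma card_exp : Fintype.card Exp6 = 28 := by
  rw [Fintype.card_congr expEquiv]
  decide

lemma card_exp1 : Fintype.card {m : Exp6 // 1 ≤ m.1 1} = 21 := by
  rw [Fintype.card_congr (expEquiv.subtypeEquiv (q := fun v => 1 ≤ v.1.1.val) (by intro a; rfl))]
  decide

lemma card_exp2 : Fintype.card {m : Exp6 // 1 ≤ m.1 2} = 21 := by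
  rw [Fintype.card_congr (expEquiv.subtypeEquiv (q := fun v => 1 ≤ v.1.2.val) (by intro a; rfl))]
  decide

lemma card_exp2' : Fintype.card {m : Exp6 // 1 ≤ m.1 2 ∨ m.1 1 = 0} = 22 := by
  rw [Fintype.card_congr (expEquiv.subtypeEquiv
    (q := fun v => 1 ≤ v.1.2.val ∨ v.1.1.val = 0) (by intro a; rfl))]
  decide

section sext

variable {R S : Type} [CommRing R] [CommRing S]

/-- the sextic form with given coefficients -/
noncomputable def sext (c : Exp6 → R) : MvPolynomial (Fin 3) R := ∑ m : Exp6, monomial m.1 (c m)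

lemma isHomogeneous_sext (c : Exp6 → R) : (sext c).IsHomogeneous 6 := by
  unfold sext
  apply IsHomogeneous.sum
  intro m _
  exact isHomogeneous_monomial _ m.2

lemma coeff_sext (c : Exp6 → R) (m : Exp6) : coeff m.1 (sext c) = c m := by
  classical
  unfold sext
  rw [coeff_sum]
  simp only [coeff_monomial]
  rw [Finset.sum_eq_single m]
  · simp
  · intro b _ hb
    rw [if_neg]
    intro h
    exact hb (Subtype.ext h)
  · intro h; exact absurd (Finset.mem_univ m) h

lemma sext_coeff (F : MvPolynomial (Fin 3) R) (hF : F.IsHomogeneous 6) :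
    sext (fun m : Exp6 => coeff m.1 F) = F := by
  ext m
  by_cases hm : m.degree = 6
  · exact coeff_sext _ ⟨m, hm⟩
  · rw [hF.coeff_eq_zero hm, (isHomogeneous_sext _).coeff_eq_zero hm]

lemma map_sext (φ : R →+* S) (c : Exp6 → R) : map φ (sext c) = sext (fun m => φ (c m)) := by
  unfold sext
  rw [map_sum]
  simp only [map_monomial]

lemma eval_sext (c : Exp6 → R) (v : Fin 3 → R) :
    eval v (sext c) = ∑ m : Exp6, c m * (v 0 ^ m.1 0 * v 1 ^ m.1 1 * v 2 ^ m.1 2) := by
  unfold sext
  rw [map_sum]
  apply Finset.sum_congr rfl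
  intro m _
  rw [eval_monomial, Finsupp.prod_fintype _ _ (by intro i; simp), Fin.prod_univ_three]

/-- linear substitution `F(g v)` -/
noncomputable def subst (F : MvPolynomial (Fin 3) R) (g : Matrix (Fin 3) (Fin 3) R) :
    MvPolynomial (Fin 3) R :=
  aeval (fun i => ∑ j, C (g i j) * X j) F

lemma eval_subst (F : MvPolynomial (Fin 3) R) (g : Matrix (Fin 3) (Fin 3) R) (v : Fin 3 → R) :
    eval v (subst F g) = eval (g.mulVec v) F := by
  unfold subst
  rw [aeval_def, ← coe_eval₂Hom, ← RingHom.comp_apply]
  have : (eval v).comp (eval₂Hom (algebraMap R (MvPolynomial (Fin 3) R))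
      (fun i => ∑ j, C (g i j) * X j)) = eval (g.mulVec v) := by
    apply ringHom_ext
    · intro r; simp
    · intro i; simp [Matrix.mulVec, dotProduct]
  rw [this]

lemma isHomogeneous_subst (F : MvPolynomial (Fin 3) R) (hF : F.IsHomogeneous 6)
    (g : Matrix (Fin 3) (Fin 3) R) : (subst F g).IsHomogeneous 6 := by
  unfold subst
  have := hF.aeval (S := R) (fun i => ∑ j, C (g i j) * X j) (n := 1) (by
    intro i
    apply IsHomogeneous.sum
    intro j _
    exact isHomogeneous_C_mul_X _ _)
  simpa using this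

lemma map_subst (φ : R →+* S) (F : MvPolynomial (Fin 3) R) (g : Matrix (Fin 3) (Fin 3) R) :
    map φ (subst F g) = subst (map φ F) (g.map φ) := by
  unfold subst
  rw [aeval_def, aeval_def, ← coe_eval₂Hom, ← coe_eval₂Hom, ← RingHom.comp_apply,
    ← RingHom.comp_apply]
  congr 1
  apply ringHom_ext
  · intro r; simp
  · intro i; simp

end sext

lemma General.mono {Q Q' : MvPolynomial (Fin 3) ℂ → Prop} (h : General Q)
    (hQ : ∀ F : MvPolynomial (Fin 3) ℂ, F.IsHomogeneous 6 → Q F → Q' F) : General Q' := by
  obtain ⟨Δ, h0, h1⟩ := h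
  exact ⟨Δ, h0, fun F hF hΔ => hQ F hF (h1 F hF hΔ)⟩

lemma General.and {Q Q' : MvPolynomial (Fin 3) ℂ → Prop} (h : General Q) (h' : General Q') :
    General (fun F => Q F ∧ Q' F) := by
  obtain ⟨Δ, h0, h1⟩ := h
  obtain ⟨Δ', h0', h1'⟩ := h'
  refine ⟨Δ * Δ', mul_ne_zero h0 h0', fun F hF hΔ => ?_⟩
  rw [map_mul] at hΔ
  exact ⟨h1 F hF (left_ne_zero_of_mul hΔ), h1' F hF (right_ne_zero_of_mul hΔ)⟩

lemma General.true : General (fun _ => True) := ⟨1, one_ne_zero, fun _ _ _ => trivial⟩

lemma General.forall_finset {ι : Type} (s : Finset ι) (Q : ι → MvPolynomial (Fin 3) ℂ → Prop)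
    (h : ∀ i ∈ s, General (Q i)) : General (fun F => ∀ i ∈ s, Q i F) := by
  classical
  induction s using Finset.induction_on with
  | empty => exact General.true.mono (by simp)
  | insert i s hi ih =>
    have h1 := h i (Finset.mem_insert_self i s)
    have h2 := ih (fun j hj => h j (Finset.mem_insert_of_mem hj))
    refine (h1.and h2).mono ?_
    intro F _ hF j hj
    rcases Finset.mem_insert.mp hj with rfl | hj
    · exact hF.1
    · exact hF.2 j hj

lemma General.forall_finite {ι : Type} [Finite ι] (Q : ι → MvPolynomial (Fin 3) ℂ → Prop)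
    (h : ∀ i, General (Q i)) : General (fun F => ∀ i, Q i F) := by
  cases nonempty_fintype ι
  refine (General.forall_finset Finset.univ Q (fun i _ => h i)).mono ?_
  intro F _ hF i
  exact hF i (Finset.mem_univ i)

/-- A family of sextic forms with few parameters, together with some functions of the
parameters: for a general sextic form the functions are algebraically dependent. -/
lemma family_rel {σ τ : Type} [Fintype σ] [Fintype τ]
    (hcard : Fintype.card σ < 28 + Fintype.card τ)
    (c : Exp6 → MvPolynomial σ ℂ) (g : Matrix (Fin 3) (Fin 3) (MvPolynomial σ ℂ))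
    (h : τ → MvPolynomial σ ℂ) :
    General (fun F => ∃ H : MvPolynomial τ ℂ, H ≠ 0 ∧
      ∀ t : σ → ℂ, F = subst (sext (fun m => eval t (c m))) (g.map (eval t)) →
        eval (fun k => eval t (h k)) H = 0) := by
  classical
  have hc : Fintype.card σ < Fintype.card (τ ⊕ Exp6) := by
    rw [Fintype.card_sum, card_exp]; omega
  let Φ : τ ⊕ Exp6 → MvPolynomial σ ℂ :=
    Sum.elim h (fun m => coeff m.1 (subst (sext c) g))
  obtain ⟨P, hP0, hP⟩ := exists_rel hc Φ
  let P' := sumAlgEquiv ℂ τ Exp6 P
  have hP' : P' ≠ 0 := by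
    intro h0
    exact hP0 ((sumAlgEquiv ℂ τ Exp6).injective (by rw [map_zero]; exact h0))
  obtain ⟨d, hd⟩ := exists_coeff_ne_zero hP'
  refine ⟨coeff d P', hd, ?_⟩
  intro F hF hΔ
  refine ⟨map (eval (fun m : Exp6 => coeff m.1 F)) P', ?_, ?_⟩
  · intro h0
    apply hΔ
    have := congrArg (coeff d) h0
    rw [coeff_map, coeff_zero] at this
    exact this
  · intro t ht
    have key : eval (fun k => eval t (h k)) (map (eval (fun m : Exp6 => coeff m.1 F)) P')
        = eval (Sum.elim (fun k => eval t (h k)) (fun m : Exp6 => coeff m.1 F)) P := by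
      have : ((eval (fun k => eval t (h k))).comp
          (map (eval (fun m : Exp6 => coeff m.1 F)))).comp
            (sumAlgEquiv ℂ τ Exp6 : _ →+* _) =
          eval (Sum.elim (fun k => eval t (h k)) (fun m : Exp6 => coeff m.1 F)) := by
        apply ringHom_ext
        · intro r; simp
        · intro i
          rcases i with i | i
          · simp
          · simp
      exact congrArg (fun f => f P) this
    rw [key]
    have h2 : (Sum.elim (fun k => eval t (h k)) (fun m : Exp6 => coeff m.1 F)) =
        fun i => eval t (Φ i) := by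
      funext i
      rcases i with i | i
      · rfl
      · simp only [Sum.elim_inr, Φ]
        rw [← coeff_map, map_subst, map_sext, ht]
    rw [h2]
    have h3 : eval (fun i => eval t (Φ i)) P = eval t (aeval Φ P) := by
      have : (eval t).comp (aeval Φ : _ →ₐ[ℂ] _).toRingHom = eval (fun i => eval t (Φ i)) := by
        apply ringHom_ext
        · intro r; simp
        · intro i; simp
      exact (congrArg (fun f => f P) this).symm
    rw [h3, hP, map_zero]

end Pool.Agent.Lib.MP_75d53c_ag
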