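import Pool.Agent.Lib.MP_75d53c_ag.Existence
import Pool.Agent.Lib.MP_75d53c_ag.Curve

/-! From lines and six-point sets to bases of planes and polynomials. -/

set_option autoImplicit false

open MvPolynomial

namespace Pool.Agent.Lib.MP_75d53c_ag

lemma mem_planeOf (L : Plane) (v : Fin 3 → ℂ) : v ∈ planeOf L ↔ dot L.rep v = 0 := by
  change (∑ i, L.rep i * v i = 0) ↔ _
  rw [Fin.sum_univ_three, dot]

lemma bin_smul (F : MvPolynomial (Fin 3) ℂ) (hF : F.IsHomogeneous 6) (l : ℂ)
    (a b : Fin 3 → ℂ) : bin F (l • a) (l • b) = Polynomial.C (l ^ 6) * bin F a b := by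
  apply Polynomial.funext
  intro t
  rw [Polynomial.eval_mul, Polynomial.eval_C, eval_bin, eval_bin, ← eval_smul_six F hF]
  congr 2
  rw [smul_add, smul_comm]

lemma Tr.smul {F : MvPolynomial (Fin 3) ℂ} (hF : F.IsHomogeneous 6) {a b : Fin 3 → ℂ}
    (h : Tr (bin F a b)) (l : ℂ) (hl : l ≠ 0) : Tr (bin F (l • a) (l • b)) := by
  rw [bin_smul F hF]
  constructor
  · rw [Polynomial.coeff_C_mul]
    exact mul_ne_zero (pow_ne_zero 6 hl) h.1
  · exact Polynomial.Separable.unit_mul
      (Polynomial.isUnit_C.mpr (isUnit_iff_ne_zero.mpr (pow_ne_zero 6 hl))) h.2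

lemma Pair.smul {F : MvPolynomial (Fin 3) ℂ} {a b a' b' : Fin 3 → ℂ} (h : Pair F a b a' b')
    (l : ℂ) (hl : l ≠ 0) : Pair F (l • a) (l • b) (l • a') (l • b') := by
  obtain ⟨h0, h1, h2, h3⟩ := h
  refine ⟨?_, ?_, ?_, ?_⟩
  · intro s t
    rw [smul_smul, smul_smul, smul_smul, smul_smul, h0]
  · rw [cr_smul]; exact smul_ne_zero (mul_ne_zero hl hl) h1
  · rw [cr_smul]; exact smul_ne_zero (mul_ne_zero hl hl) h2
  · rw [cr_smul, cr_smul, cr_smul]
    exact smul_ne_zero (mul_ne_zero (mul_ne_zero hl hl) (mul_ne_zero hl hl)) h3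

/-- the cone over the set of double lines -/
def cone (F : MvPolynomial (Fin 3) ℂ) : Set (Fin 3 → ℂ) :=
  {ξ | ∃ a b a' b' : Fin 3 → ℂ, Pair F a b a' b' ∧ Tr (bin F a b) ∧ ξ = cr a b}

lemma cone_smul {F : MvPolynomial (Fin 3) ℂ} (hF : F.IsHomogeneous 6) :
    ∀ ξ ∈ cone F, ∀ c : ℂ, c ≠ 0 → c • ξ ∈ cone F := by
  rintro ξ ⟨a, b, a', b', hp, ht, rfl⟩ c hc
  obtain ⟨l, hl⟩ := IsAlgClosed.exists_pow_nat_eq c (n := 2) (by norm_num)
  have hl0 : l ≠ 0 := by
    rintro rfl
    apply hc; rw [← hl]; ring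
  refine ⟨l • a, l • b, l • a', l • b', hp.smul l hl0, ht.smul hF l hl0, ?_⟩
  rw [cr_smul, ← pow_two, hl]

lemma point_injective (a b : Fin 3 → ℂ) (hab : cr a b ≠ 0) (hne : ∀ t : ℂ, a + t • b ≠ 0) :
    Function.Injective (fun t : ℂ => Projectivization.mk ℂ (a + t • b) (hne t)) := by
  intro t t' htt
  simp only at htt
  rw [Projectivization.mk_eq_mk_iff'] at htt
  obtain ⟨c, hc⟩ := htt
  have h1 : (c - 1) • a + (c * t' - t) • b = 0 := by
    have : (c - 1) • a + (c * t' - t) • b = c • (a + t' • b) - (a + t • b) := by module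
    rw [this, hc, sub_self]
  by_contra hcon
  refine comb_ne_zero hab (x := c - 1) (y := c * t' - t) ?_ h1
  rintro ⟨h2, h3⟩
  have hc1 : c = 1 := by linear_combination h2
  rw [hc1] at h3
  apply hcon
  linear_combination -h3

/-- the representative of a point is a multiple of any vector defining the point -/
lemma rep_mk (v : Fin 3 → ℂ) (hv : v ≠ 0) :
    ∃ c : ℂ, c ≠ 0 ∧ (Projectivization.mk ℂ v hv).rep = c • v := by
  obtain ⟨c, hc⟩ := Projectivization.exists_smul_eq_mk_rep ℂ v hv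
  exact ⟨(c : ℂ), c.ne_zero, by rw [← hc]; rfl⟩

/-- The points of the section of a line are given by the zeros of the restriction. -/
lemma sect_eq (F : MvPolynomial (Fin 3) ℂ) (hF : F.IsHomogeneous 6) (L : Plane)
    (a b : Fin 3 → ℂ) (hab : cr a b ≠ 0) (hL : ∀ v, v ∈ planeOf L ↔ dot (cr a b) v = 0)
    (hb : eval b F ≠ 0) :
    (sect F L).ncard = {t : ℂ | (bin F a b).eval t = 0}.ncard := by
  have hne : ∀ t : ℂ, a + t • b ≠ 0 := by
    intro t
    have := comb_ne_zero hab (x := 1) (y := t) (by simp)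
    rwa [one_smul] at this
  have himg : sect F L = (fun t : ℂ => Projectivization.mk ℂ (a + t • b) (hne t)) ''
      {t : ℂ | (bin F a b).eval t = 0} := by
    ext x
    constructor
    · rintro ⟨hx1, hx2⟩
      rw [hL] at hx1
      obtain ⟨s, t, hst⟩ := exists_coords a b x.rep hab hx1
      have hx2 : eval x.rep F = 0 := hx2
      have hs : s ≠ 0 := by
        rintro rfl
        rw [hst, zero_smul, zero_add, eval_smul_six F hF] at hx2
        have ht : t = 0 := by
          rcases mul_eq_zero.mp hx2 with h | h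
          · simpa using h
          · exact absurd h hb
        apply x.rep_nonzero
        rw [hst, ht]; simp
      have hrep : x.rep = s • (a + (t / s) • b) := by
        rw [hst, smul_add, smul_smul, mul_div_cancel₀ _ hs]
      refine ⟨t / s, ?_, ?_⟩
      · rw [hrep, eval_smul_six F hF] at hx2
        simp only [Set.mem_ofPred_eq]
        rw [eval_bin]
        exact (mul_eq_zero.mp hx2).resolve_left (pow_ne_zero 6 hs)
      · conv_rhs => rw [← x.mk_rep]
        rw [Projectivization.mk_eq_mk_iff']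
        exact ⟨s⁻¹, by rw [hrep, smul_smul, inv_mul_cancel₀ hs, one_smul]⟩
    · rintro ⟨t, ht, rfl⟩
      simp only [Set.mem_ofPred_eq] at ht
      rw [eval_bin] at ht
      obtain ⟨c, -, hc'⟩ := rep_mk (a + t • b) (hne t)
      constructor
      · rw [hL, hc']
        have := dot_add_smul (cr a b) a b c (c * t)
        rw [dot_cr_left, dot_cr_right] at this
        rw [smul_add, smul_smul, this]; ring
      · change eval _ F = 0
        rw [hc', eval_smul_six F hF, ht, mul_zero]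
  rw [himg, Set.ncard_image_of_injective]
  exact point_injective a b hab hne

lemma ncard_roots {u : Polynomial ℂ} (hu : u ≠ 0) :
    {t : ℂ | u.eval t = 0}.ncard = u.roots.toFinset.card := by
  rw [← Set.ncard_coe_finset]
  congr 1
  ext t
  simp [hu]

lemma tr_of_ncard {F : MvPolynomial (Fin 3) ℂ} (hF : F.IsHomogeneous 6) {a b : Fin 3 → ℂ}
    (hb : eval b F ≠ 0) (h : {t : ℂ | (bin F a b).eval t = 0}.ncard = 6) : Tr (bin F a b) := by
  have h6 : (bin F a b).coeff 6 ≠ 0 := by rwa [coeff_six_bin F hF]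
  have hu0 : bin F a b ≠ 0 := by
    intro h0; rw [h0] at h6; simp at h6
  have hd : (bin F a b).natDegree = 6 :=
    le_antisymm (natDegree_bin_le F hF a b) (Polynomial.le_natDegree_of_ne_zero h6)
  refine ⟨h6, ?_⟩
  rw [ncard_roots hu0] at h
  rw [← Polynomial.nodup_roots_iff_of_splits hu0 (IsAlgClosed.splits _)]
  have h1 : Multiset.card (bin F a b).roots = 6 := by
    rw [← hd]; exact (IsAlgClosed.splits _).natDegree_eq_card_roots.symm
  rw [← Multiset.toFinset_card_eq_card_iff_nodup, h, h1]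

lemma ncard_of_tr {u : Polynomial ℂ} (hd : u.natDegree ≤ 6) (h : Tr u) :
    {t : ℂ | u.eval t = 0}.ncard = 6 := by
  have hu0 : u ≠ 0 := by
    intro h0; have := h.1; rw [h0] at this; simp at this
  have hd : u.natDegree = 6 := le_antisymm hd (Polynomial.le_natDegree_of_ne_zero h.1)
  rw [ncard_roots hu0, Multiset.toFinset_card_of_nodup (Polynomial.nodup_roots h.2), ← hd]
  exact (IsAlgClosed.splits _).natDegree_eq_card_roots.symm

/-- a basis of a plane -/
lemma exists_basis (ξ : Fin 3 → ℂ) (hξ : ξ ≠ 0) :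
    ∃ (p q : Fin 3 → ℂ) (c : ℂ), c ≠ 0 ∧ cr p q = c • ξ := by
  obtain ⟨i, hi⟩ := Function.ne_iff.mp hξ
  simp only [Pi.zero_apply] at hi
  fin_cases i
  · simp only [Fin.zero_eta] at hi
    refine ⟨![-ξ 1, ξ 0, 0], ![-ξ 2, 0, ξ 0], ξ 0, hi, ?_⟩
    funext j
    fin_cases j
    all_goals simp [cr]
    all_goals ring
  · simp only [Fin.mk_one] at hi
    refine ⟨![ξ 1, -ξ 0, 0], ![0, -ξ 2, ξ 1], -ξ 1, neg_ne_zero.mpr hi, ?_⟩
    funext j
    fin_cases j
    all_goals simp [cr]
    all_goals ring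
  · simp only [Fin.reduceFinMk] at hi
    refine ⟨![ξ 2, 0, -ξ 0], ![0, ξ 2, -ξ 1], ξ 2, hi, ?_⟩
    funext j
    fin_cases j
    all_goals simp [cr]
    all_goals ring

lemma mem_planeOf' (L : Plane) (a b : Fin 3 → ℂ) (c : ℂ) (hc : c ≠ 0)
    (h : cr a b = c • L.rep) (v : Fin 3 → ℂ) : v ∈ planeOf L ↔ dot (cr a b) v = 0 := by
  rw [mem_planeOf, h, dot_smul_left]
  constructor
  · intro h0; rw [h0, mul_zero]
  · intro h0; exact (mul_eq_zero.mp h0).resolve_left hc

/-- a basis of the plane of a transversal line, with the second vector off the sextic -/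
lemma exists_good_basis (F : MvPolynomial (Fin 3) ℂ) (hF : F.IsHomogeneous 6) (L : Plane)
    (hL : Transverse F L) :
    ∃ (a b : Fin 3 → ℂ) (c : ℂ), c ≠ 0 ∧ cr a b = c • L.rep ∧ eval b F ≠ 0 := by
  obtain ⟨p, q, c, hc, hpq⟩ := exists_basis L.rep L.rep_nonzero
  have hcr : cr p q ≠ 0 := by rw [hpq]; exact smul_ne_zero hc L.rep_nonzero
  have hne : ∀ t : ℂ, p + t • q ≠ 0 := by
    intro t
    have := comb_ne_zero hcr (x := 1) (y := t) (by simp)
    rwa [one_smul] at this
  have hfin : (sect F L).Finite := by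
    apply Set.finite_of_ncard_ne_zero
    rw [hL]; norm_num
  by_contra hcon
  push Not at hcon
  have hzero : ∀ t : ℂ, eval (p + t • q) F = 0 := by
    intro t
    refine hcon q (p + t • q) (-c) (neg_ne_zero.mpr hc) ?_
    have := cr_lin p q 0 1 1 t
    rw [zero_smul, zero_add, one_smul, one_smul] at this
    rw [this, hpq, smul_smul]
    congr 1; ring
  have hsub : Set.range (fun t : ℂ => Projectivization.mk ℂ (p + t • q) (hne t)) ⊆ sect F L := by
    rintro _ ⟨t, rfl⟩
    obtain ⟨k, -, hk⟩ := rep_mk (p + t • q) (hne t)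
    constructor
    · rw [mem_planeOf' L p q c hc hpq, hk]
      have := dot_add_smul (cr p q) p q k (k * t)
      rw [dot_cr_left, dot_cr_right] at this
      rw [smul_add, smul_smul, this]; ring
    · change eval _ F = 0
      rw [hk, eval_smul_six F hF, hzero, mul_zero]
  exact (Set.infinite_range_of_injective (point_injective p q hcr hne)) (hfin.subset hsub)

/-- two vectors orthogonal to a third one -/
lemma par_of_mem (ξ a b : Fin 3 → ℂ) (ha : dot ξ a = 0) (hb : dot ξ b = 0)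
    (hab : cr a b ≠ 0) : ∃ k : ℂ, ξ = k • cr a b := by
  apply par_of_cr_eq_zero _ _ hab
  rw [cr_cr, dot_comm' a ξ, dot_comm' b ξ, ha, hb]
  simp

/-- two polynomials of degree six with the same six zeros are proportional -/
lemma prop_of_roots {u w : Polynomial ℂ} (hu : Tr u) (hud : u.natDegree ≤ 6)
    (hwd : w.natDegree ≤ 6) (h : ∀ t, u.eval t = 0 → w.eval t = 0) :
    w = Polynomial.C (w.coeff 6 / u.coeff 6) * u := by
  classical
  have hn := ncard_of_tr hud hu
  have hu0 : u ≠ 0 := by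
    intro h0; have := hu.1; rw [h0] at this; simp at this
  rw [ncard_roots hu0] at hn
  rw [← sub_eq_zero]
  apply Polynomial.eq_zero_of_natDegree_lt_card_of_eval_eq_zero' _ u.roots.toFinset
  · intro t ht
    have hut : u.eval t = 0 := by
      rw [Multiset.mem_toFinset, Polynomial.mem_roots hu0] at ht
      exact ht
    rw [Polynomial.eval_sub, Polynomial.eval_mul, h t hut, hut, mul_zero, sub_zero]
  · rw [hn]
    have h5 : (w - Polynomial.C (w.coeff 6 / u.coeff 6) * u).natDegree ≤ 5 := by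
      rw [Polynomial.natDegree_le_iff_coeff_eq_zero]
      intro N hN
      rw [Polynomial.coeff_sub, Polynomial.coeff_C_mul]
      rcases (show N = 6 ∨ 6 < N by omega) with rfl | hN
      · rw [div_mul_cancel₀ _ hu.1, sub_self]
      · have e1 : w.coeff N = 0 := Polynomial.coeff_eq_zero_of_natDegree_lt (by omega)
        have e2 : u.coeff N = 0 := Polynomial.coeff_eq_zero_of_natDegree_lt (by omega)
        rw [e1, e2]
        ring
    omega

/-- from double lines to pairs of bases -/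
theorem cone_of_double (F : MvPolynomial (Fin 3) ℂ) (hF : F.IsHomogeneous 6) (L : Plane)
    (hL : L ∈ doubleLines F) : L.rep ∈ cone F := by
  obtain ⟨hT, L', hne, hT', φ, hφ⟩ := hL
  obtain ⟨a, b, c, hc, hab, hb⟩ := exists_good_basis F hF L hT
  have hcr : cr a b ≠ 0 := by rw [hab]; exact smul_ne_zero hc L.rep_nonzero
  have hmem := mem_planeOf' L a b c hc hab
  have ha' : a ∈ planeOf L := (hmem a).mpr (dot_cr_left a b)
  have hb' : b ∈ planeOf L := (hmem b).mpr (dot_cr_right a b)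
  have htr : Tr (bin F a b) := by
    apply tr_of_ncard hF hb
    rw [← sect_eq F hF L a b hcr hmem hb]
    exact hT
  -- images of the basis
  set a1 : Fin 3 → ℂ := (φ ⟨a, ha'⟩ : Fin 3 → ℂ) with ha1
  set b1 : Fin 3 → ℂ := (φ ⟨b, hb'⟩ : Fin 3 → ℂ) with hb1
  have hlin : ∀ s t : ℂ, (φ (s • ⟨a, ha'⟩ + t • ⟨b, hb'⟩) : Fin 3 → ℂ) = s • a1 + t • b1 := by
    intro s t
    rw [map_add, map_smul, map_smul]
    rfl
  have hzero : ∀ s t : ℂ, eval (s • a + t • b) F = 0 ↔ eval (s • a1 + t • b1) F = 0 := by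
    intro s t
    have := hφ (s • ⟨a, ha'⟩ + t • ⟨b, hb'⟩)
    rw [hlin] at this
    exact this
  have hcomb : ∀ s t : ℂ, s • a1 + t • b1 = 0 → s = 0 ∧ t = 0 := by
    intro s t h0
    rw [← hlin] at h0
    have h1 : (φ (s • ⟨a, ha'⟩ + t • ⟨b, hb'⟩)) = 0 := Subtype.ext h0
    rw [LinearEquiv.map_eq_zero_iff] at h1
    have h2 : s • a + t • b = 0 := congrArg Subtype.val h1
    by_contra hcon
    exact comb_ne_zero hcr hcon h2
  have hcr1 : cr a1 b1 ≠ 0 := by
    intro h0
    have ha1ne : a1 ≠ 0 := by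
      intro h1
      have := hcomb 1 0 (by rw [h1]; simp)
      exact one_ne_zero this.1
    obtain ⟨k, hk⟩ := par_of_cr_eq_zero a1 b1 ha1ne h0
    have := hcomb (-k) 1 (by rw [hk]; module)
    exact one_ne_zero this.2
  have hb1ne : eval b1 F ≠ 0 := by
    have := hzero 0 1
    rw [zero_smul, zero_smul, zero_add, zero_add, one_smul, one_smul] at this
    rwa [Ne, ← this]
  have hmem1 : dot L'.rep a1 = 0 ∧ dot L'.rep b1 = 0 :=
    ⟨(mem_planeOf L' a1).mp (φ ⟨a, ha'⟩).2, (mem_planeOf L' b1).mp (φ ⟨b, hb'⟩).2⟩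
  obtain ⟨k, hk⟩ := par_of_mem L'.rep a1 b1 hmem1.1 hmem1.2 hcr1
  have hcc : cr (cr a b) (cr a1 b1) ≠ 0 := by
    intro h0
    obtain ⟨m, hm⟩ := par_of_cr_eq_zero _ _ hcr h0
    apply hne
    rw [← L.mk_rep, ← L'.mk_rep, Projectivization.mk_eq_mk_iff']
    refine ⟨k * m * c, ?_⟩
    rw [hk, hm, hab, smul_smul, smul_smul]
  have hprop := prop_of_roots (w := bin F a1 b1) htr (natDegree_bin_le F hF a b)
    (natDegree_bin_le F hF a1 b1) (by
      intro t ht
      rw [eval_bin] at ht ⊢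
      have := hzero 1 t
      rw [one_smul, one_smul] at this
      exact this.mp ht)
  rw [coeff_six_bin F hF, coeff_six_bin F hF] at hprop
  obtain ⟨l, hl⟩ := IsAlgClosed.exists_pow_nat_eq (eval b F / eval b1 F) (n := 6) (by norm_num)
  have hl0 : l ≠ 0 := by
    rintro rfl
    have : eval b F / eval b1 F = 0 := by rw [← hl]; ring
    rw [div_eq_zero_iff] at this
    exact this.elim hb hb1ne
  have hbin : bin F (l • a1) (l • b1) = bin F a b := by
    have e1 : eval b F / eval b1 F * (eval b1 F / eval b F) = 1 := by field_simp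
    rw [bin_smul F hF, hprop, hl, ← mul_assoc, ← Polynomial.C_mul, e1, Polynomial.C_1, one_mul]
  obtain ⟨e, he⟩ := IsAlgClosed.exists_pow_nat_eq c⁻¹ (n := 2) (by norm_num)
  have he0 : e ≠ 0 := by
    rintro rfl
    have : c⁻¹ = 0 := by rw [← he]; ring
    exact inv_ne_zero hc this
  have hpair : Pair F a b (l • a1) (l • b1) := by
    refine ⟨bin_eq_forms F F hF hF _ _ _ _ hbin.symm, hcr, ?_, ?_⟩
    · rw [cr_smul]; exact smul_ne_zero (mul_ne_zero hl0 hl0) hcr1
    · rw [cr_smul]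
      have := cr_smul 1 (l * l) (cr a b) (cr a1 b1)
      rw [one_smul, one_mul] at this
      rw [this]
      exact smul_ne_zero (mul_ne_zero hl0 hl0) hcc
  refine ⟨e • a, e • b, _, _, hpair.smul e he0, htr.smul hF e he0, ?_⟩
  rw [cr_smul, hab, smul_smul, ← pow_two, he, inv_mul_cancel₀ hc, one_smul]

/-- coordinates on a plane -/
noncomputable def param (L : Plane) (a b : Fin 3 → ℂ) (ha : a ∈ planeOf L) (hb : b ∈ planeOf L) :
    (ℂ × ℂ) →ₗ[ℂ] planeOf L where
  toFun z := z.1 • ⟨a, ha⟩ + z.2 • ⟨b, hb⟩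
  map_add' := by
    intro z w
    simp only [Prod.fst_add, Prod.snd_add]
    module
  map_smul' := by
    intro c z
    simp only [Prod.smul_fst, Prod.smul_snd, smul_eq_mul, RingHom.id_apply]
    module

lemma param_bijective (L : Plane) (a b : Fin 3 → ℂ) (ha : a ∈ planeOf L) (hb : b ∈ planeOf L)
    (hcr : cr a b ≠ 0) : Function.Bijective (param L a b ha hb) := by
  constructor
  · rw [← LinearMap.ker_eq_bot, LinearMap.ker_eq_bot']
    intro z hz
    have h2 : z.1 • a + z.2 • b = 0 := congrArg Subtype.val hz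
    by_contra hcon
    refine comb_ne_zero hcr ?_ h2
    rintro ⟨h3, h4⟩
    exact hcon (Prod.ext h3 h4)
  · intro v
    obtain ⟨k, hk⟩ := par_of_mem L.rep a b ((mem_planeOf L a).mp ha) ((mem_planeOf L b).mp hb) hcr
    have hk0 : k ≠ 0 := by
      rintro rfl
      apply L.rep_nonzero
      rw [hk, zero_smul]
    have h1 : dot (cr a b) (v : Fin 3 → ℂ) = 0 := by
      have := (mem_planeOf L v).mp v.2
      rw [hk, dot_smul_left] at this
      exact (mul_eq_zero.mp this).resolve_left hk0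
    obtain ⟨x, y, hxy⟩ := exists_coords a b v hcr h1
    exact ⟨(x, y), Subtype.ext hxy.symm⟩

/-- from pairs of bases to double lines -/
theorem double_of_pair (F : MvPolynomial (Fin 3) ℂ) (hF : F.IsHomogeneous 6)
    (a b a' b' : Fin 3 → ℂ) (hp : Pair F a b a' b') (ht : Tr (bin F a b)) :
    Projectivization.mk ℂ (cr a b) hp.2.1 ∈ doubleLines F := by
  obtain ⟨hφ, h1, h2, h3⟩ := hp
  have hbin : bin F a b = bin F a' b' := bin_eq_of_forms F F _ _ _ _ (fun t => by
    have := hφ 1 t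
    rwa [one_smul, one_smul] at this)
  have ht' : Tr (bin F a' b') := hbin ▸ ht
  obtain ⟨c, hc, hcr⟩ := rep_mk (cr a b) h1
  obtain ⟨c', hc', hcr'⟩ := rep_mk (cr a' b') h2
  set L : Plane := Projectivization.mk ℂ (cr a b) h1 with hL
  set L' : Plane := Projectivization.mk ℂ (cr a' b') h2 with hL'
  have e1 : cr a b = c⁻¹ • L.rep := by
    rw [hcr, smul_smul, inv_mul_cancel₀ hc, one_smul]
  have e1' : cr a' b' = c'⁻¹ • L'.rep := by
    rw [hcr', smul_smul, inv_mul_cancel₀ hc', one_smul]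
  have hmem := mem_planeOf' L a b _ (inv_ne_zero hc) e1
  have hmem' := mem_planeOf' L' a' b' _ (inv_ne_zero hc') e1'
  have hb : eval b F ≠ 0 := by
    rw [← coeff_six_bin F hF a b]; exact ht.1
  have hb' : eval b' F ≠ 0 := by
    rw [← coeff_six_bin F hF a' b']; exact ht'.1
  have ha1 : a ∈ planeOf L := (hmem a).mpr (dot_cr_left a b)
  have hb1 : b ∈ planeOf L := (hmem b).mpr (dot_cr_right a b)
  have ha1' : a' ∈ planeOf L' := (hmem' a').mpr (dot_cr_left a' b')
  have hb1' : b' ∈ planeOf L' := (hmem' b').mpr (dot_cr_right a' b')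
  refine ⟨?_, L', ?_, ?_, ?_⟩
  · unfold Transverse
    rw [sect_eq F hF L a b h1 hmem hb]
    exact ncard_of_tr (natDegree_bin_le F hF a b) ht
  · intro hLL
    rw [hL, hL', Projectivization.mk_eq_mk_iff'] at hLL
    obtain ⟨k, hk⟩ := hLL
    apply h3
    rw [← hk]
    have := cr_smul 1 k (cr a b) (cr a b)
    rw [one_smul] at this
    rw [this, cr_self, smul_zero]
  · unfold Transverse
    rw [sect_eq F hF L' a' b' h2 hmem' hb']
    exact ncard_of_tr (natDegree_bin_le F hF a' b') ht'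
  · refine ⟨(LinearEquiv.ofBijective _ (param_bijective L a b ha1 hb1 h1)).symm.trans
      (LinearEquiv.ofBijective _ (param_bijective L' a' b' ha1' hb1' h2)), ?_⟩
    intro v
    obtain ⟨z, hz⟩ := (param_bijective L a b ha1 hb1 h1).2 v
    rw [← hz]
    have e2 : (LinearEquiv.ofBijective _ (param_bijective L a b ha1 hb1 h1)).symm
        (param L a b ha1 hb1 z) = z :=
      (LinearEquiv.ofBijective _ (param_bijective L a b ha1 hb1 h1)).symm_apply_apply z
    rw [LinearEquiv.trans_apply, e2]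
    have e3 : ((param L a b ha1 hb1 z : planeOf L) : Fin 3 → ℂ) = z.1 • a + z.2 • b := rfl
    have e4 : ((LinearEquiv.ofBijective _ (param_bijective L' a' b' ha1' hb1' h2) z :
      planeOf L') : Fin 3 → ℂ) = z.1 • a' + z.2 • b' := rfl
    rw [e3, e4, hφ]

/-- forms scale -/
lemma eval_smul_form {G : MvPolynomial (Fin 3) ℂ} {d : ℕ} (hG : G.IsHomogeneous d) (c : ℂ)
    (v : Fin 3 → ℂ) : eval (c • v) G = c ^ d * eval v G := by
  rw [G.as_sum, map_sum, map_sum, Finset.mul_sum]
  apply Finset.sum_congr rfl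
  intro m hm
  have hd : m.degree = d := (hG.degree_eq_sum_deg_support hm).symm ▸ rfl
  rw [eval_monomial, eval_monomial, Finsupp.prod_fintype _ _ (by intro i; simp),
    Finsupp.prod_fintype _ _ (by intro i; simp)]
  simp only [Pi.smul_apply, smul_eq_mul, mul_pow, Finset.prod_mul_distrib]
  rw [Finset.prod_pow_eq_pow_sum]
  rw [Finsupp.degree_eq_sum] at hd
  rw [hd]
  ring

/-- Main theorem: for the general plane sextic, the closure of the set of double lines is a
plane curve. -/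
theorem double_point_curve : General (fun F => IsPlaneCurve (zariskiClosure (doubleLines F))) := by
  refine ((rel1.and general_Rel2).and existence).mono ?_
  rintro F hF ⟨⟨⟨H, hH0, hH⟩, hrel⟩, ⟨a0, b0, a0', b0', hp0, ht0⟩⟩
  have k1 : ∀ ξ ∈ cone F, eval ξ H = 0 := by
    rintro ξ ⟨a, b, a', b', hp, ht, rfl⟩
    exact hH a b a' b' hp
  have k2 : ∀ ξ ∈ cone F, ξ ≠ 0 := by
    rintro ξ ⟨a, b, a', b', hp, ht, rfl⟩
    exact hp.2.1
  have k3 : ∀ ξ ∈ cone F, ∀ h : MvPolynomial (Fin 3) ℂ, eval ξ h ≠ 0 →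
      ∃ η ∈ cone F, eval η h ≠ 0 ∧ cr η ξ ≠ 0 := by
    rintro ξ ⟨a, b, a', b', hp, ht, rfl⟩ h hh
    obtain ⟨a1, b1, a1', b1', hp1, ht1, h1, h2⟩ := nonisolated F hF hrel a b a' b' hp ht h hh
    exact ⟨_, ⟨a1, b1, a1', b1', hp1, ht1, rfl⟩, h1, h2⟩
  obtain ⟨G, d, hd, hGd, hG0, hGK, hGdvd⟩ := curve_of (cone F)
    ⟨cr a0 b0, a0, b0, a0', b0', hp0, ht0, rfl⟩ ⟨H, hH0, k1⟩ k2 (cone_smul hF) k3
  refine ⟨G, d, hd, hGd, hG0, ?_⟩
  ext x
  constructor
  · intro hx
    exact hx G d hGd (fun y hy => hGK _ (cone_of_double F hF y hy))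
  · intro hx P e hP hPv
    have h1 : ∀ ξ ∈ cone F, eval ξ P = 0 := by
      rintro ξ ⟨a, b, a', b', hp, ht, rfl⟩
      have h2 := hPv _ (double_of_pair F hF a b a' b' hp ht)
      obtain ⟨c, hc, hcr⟩ := rep_mk (cr a b) hp.2.1
      unfold Vanishes at h2
      rw [hcr, eval_smul_form hP] at h2
      exact (mul_eq_zero.mp h2).resolve_left (pow_ne_zero e hc)
    obtain ⟨q, hq⟩ := hGdvd P h1
    unfold Vanishes
    rw [hq, map_mul, show eval x.rep G = 0 from hx, zero_mul]

end Pool.Agent.Lib.MP_75d53c_ag
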